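import Pool.Agent.Helper594_MMS.Steps

/-!
Base case `k = 3`, `n = 14` (machine-generated chain of inferences).
-/

namespace Pool.Agent.Helper594_MMS

open Finset

theorem base_3_14 : BaseI 3 13 := by
  intro f hf hs
  have hm := mono_of_step f 13 hf
  by_contra hne
  have hb : (negI f 0 3 14).card < 78 := by
    have h1 := not_le.1 hne
    have h2 : Nat.choose 13 (3 - 1) = 78 := by decide +kernel
    rwa [h2] at h1
  have p0 : 0 ≤ ls f [13, 12, 0] :=
    pstep f 3 14 78 hm hb [13, 12, 0] [] nQ (by decide +kernel) (by decide +kernel)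
  have p1 : 0 ≤ ls f [12, 5, 1] :=
    pstep f 3 14 78 hm hb [12, 5, 1] [] nQ (by decide +kernel) (by decide +kernel)
  have p3 : 0 ≤ ls f [10, 8, 1] :=
    pstep f 3 14 78 hm hb [10, 8, 1] [] nQ (by decide +kernel) (by decide +kernel)
  have p4 : 0 ≤ ls f [12, 4, 2] :=
    pstep f 3 14 78 hm hb [12, 4, 2] [] nQ (by decide +kernel) (by decide +kernel)
  have p5 : 0 ≤ ls f [10, 5, 2] :=
    pstep f 3 14 78 hm hb [10, 5, 2] [] nQ (by decide +kernel) (by decide +kernel)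
  have p8 : 0 ≤ ls f [9, 6, 3] :=
    pstep f 3 14 78 hm hb [9, 6, 3] [] nQ (by decide +kernel) (by decide +kernel)
  have p10 : 0 ≤ ls f [8, 7, 4] :=
    pstep f 3 14 78 hm hb [8, 7, 4] [] nQ (by decide +kernel) (by decide +kernel)
  have q11 : NF f 3 14 [13, 11, 0] :=
    qstep f 3 13 hf hs [13, 11, 0] 3 [(2, [8, 7, 4]), (3, [9, 6, 3]), (2, [10, 5, 2]), (1, [12, 4, 2]), (1, [10, 8, 1]), (2, [12, 5, 1])] (cP p10 (cP p8 (cP p5 (cP p4 (cP p3 (cP p1 nP)))))) (by decide +kernel) (by decide +kernel)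
  have p12 : 0 ≤ ls f [3, 2, 1] :=
    pstep f 3 14 78 hm hb [3, 2, 1] [[13, 11, 0]] (cQ q11 nQ) (by decide +kernel) (by decide +kernel)
  exact fstep f 13 hf hs [(11, [3, 2, 1]), (3, [13, 12, 0])] (cP p12 (cP p0 nP)) (by decide +kernel)

end Pool.Agent.Helper594_MMS
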