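import Pool.Agent.Helper594_MMS.Steps

/-!
Base case `k = 4`, `n = 18` (machine-generated chain of inferences).
-/

namespace Pool.Agent.Helper594_MMS

open Finset

theorem base_4_18 : BaseI 4 17 := by
  intro f hf hs
  have hm := mono_of_step f 17 hf
  by_contra hne
  have hb : (negI f 0 4 18).card < 680 := by
    have h1 := not_le.1 hne
    have h2 : Nat.choose 17 (4 - 1) = 680 := by decide +kernel
    rwa [h2] at h1
  have p0 : 0 ≤ ls f [17, 16, 15, 0] :=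
    pstep f 4 18 680 hm hb [17, 16, 15, 0] [] nQ (by decide +kernel) (by decide +kernel)
  have p1 : 0 ≤ ls f [17, 12, 5, 1] :=
    pstep f 4 18 680 hm hb [17, 12, 5, 1] [] nQ (by decide +kernel) (by decide +kernel)
  have p4 : 0 ≤ ls f [16, 12, 6, 1] :=
    pstep f 4 18 680 hm hb [16, 12, 6, 1] [] nQ (by decide +kernel) (by decide +kernel)
  have p12 : 0 ≤ ls f [16, 13, 4, 2] :=
    pstep f 4 18 680 hm hb [16, 13, 4, 2] [] nQ (by decide +kernel) (by decide +kernel)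
  have p13 : 0 ≤ ls f [17, 9, 5, 2] :=
    pstep f 4 18 680 hm hb [17, 9, 5, 2] [] nQ (by decide +kernel) (by decide +kernel)
  have p30 : 0 ≤ ls f [14, 10, 6, 3] :=
    pstep f 4 18 680 hm hb [14, 10, 6, 3] [] nQ (by decide +kernel) (by decide +kernel)
  have p32 : 0 ≤ ls f [14, 9, 8, 3] :=
    pstep f 4 18 680 hm hb [14, 9, 8, 3] [] nQ (by decide +kernel) (by decide +kernel)
  have p39 : 0 ≤ ls f [13, 10, 7, 4] :=
    pstep f 4 18 680 hm hb [13, 10, 7, 4] [] nQ (by decide +kernel) (by decide +kernel)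
  have q44 : NF f 4 18 [15, 11, 7, 0] :=
    qstep f 4 17 hf hs [15, 11, 7, 0] 2 [(1, [13, 10, 7, 4]), (1, [14, 9, 8, 3]), (1, [14, 10, 6, 3]), (1, [17, 9, 5, 2]), (1, [16, 13, 4, 2]), (1, [16, 12, 6, 1]), (1, [17, 12, 5, 1])] (cP p39 (cP p32 (cP p30 (cP p13 (cP p12 (cP p4 (cP p1 nP))))))) (by decide +kernel) (by decide +kernel)
  have p48 : 0 ≤ ls f [16, 11, 6, 1] :=
    pstep f 4 18 680 hm hb [16, 11, 6, 1] [[15, 11, 7, 0]] (cQ q44 nQ) (by decide +kernel) (by decide +kernel)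
  have p58 : 0 ≤ ls f [15, 10, 5, 2] :=
    pstep f 4 18 680 hm hb [15, 10, 5, 2] [[15, 11, 7, 0]] (cQ q44 nQ) (by decide +kernel) (by decide +kernel)
  have p76 : 0 ≤ ls f [13, 9, 6, 3] :=
    pstep f 4 18 680 hm hb [13, 9, 6, 3] [[15, 11, 7, 0]] (cQ q44 nQ) (by decide +kernel) (by decide +kernel)
  have q86 : NF f 4 18 [17, 12, 4, 0] :=
    qstep f 4 17 hf hs [17, 12, 4, 0] 2 [(3, [13, 9, 6, 3]), (2, [15, 10, 5, 2]), (2, [16, 11, 6, 1])] (cP p76 (cP p58 (cP p48 nP))) (by decide +kernel) (by decide +kernel)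
  have p89 : 0 ≤ ls f [16, 10, 5, 1] :=
    pstep f 4 18 680 hm hb [16, 10, 5, 1] [[17, 12, 4, 0], [15, 11, 7, 0]] (cQ q86 (cQ q44 nQ)) (by decide +kernel) (by decide +kernel)
  have p104 : 0 ≤ ls f [14, 10, 4, 2] :=
    pstep f 4 18 680 hm hb [14, 10, 4, 2] [[17, 12, 4, 0], [15, 11, 7, 0]] (cQ q86 (cQ q44 nQ)) (by decide +kernel) (by decide +kernel)
  have p111 : 0 ≤ ls f [12, 10, 6, 2] :=
    pstep f 4 18 680 hm hb [12, 10, 6, 2] [[17, 12, 4, 0], [15, 11, 7, 0]] (cQ q86 (cQ q44 nQ)) (by decide +kernel) (by decide +kernel)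
  have p119 : 0 ≤ ls f [13, 8, 5, 3] :=
    pstep f 4 18 680 hm hb [13, 8, 5, 3] [[17, 12, 4, 0], [15, 11, 7, 0]] (cQ q86 (cQ q44 nQ)) (by decide +kernel) (by decide +kernel)
  have q130 : NF f 4 18 [11, 8, 4, 1] :=
    qstep f 4 17 hf hs [11, 8, 4, 1] 7 [(2, [17, 16, 15, 0])] (cP p0 nP) (by decide +kernel) (by decide +kernel)
  have p131 : 0 ≤ ls f [17, 15, 9, 0] :=
    pstep f 4 18 680 hm hb [17, 15, 9, 0] [[11, 8, 4, 1]] (cQ q130 nQ) (by decide +kernel) (by decide +kernel)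
  exact fstep f 17 hf hs [(2, [17, 15, 9, 0]), (3, [13, 8, 5, 3]), (1, [12, 10, 6, 2]), (1, [14, 10, 4, 2]), (2, [16, 10, 5, 1])] (cP p131 (cP p119 (cP p111 (cP p104 (cP p89 nP))))) (by decide +kernel)

end Pool.Agent.Helper594_MMS
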