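import Pool.Agent.Helper594_MMS.Perm

/-!
The strict partition argument: among `b * k` distinct reals (`b ≥ 4`) with sum at most `0`, at least
`C(bk - 1, k - 1)` of the `k`-subsets have negative sum.
-/

namespace Pool.Agent.Helper594_MMS

open Finset

section

variable {b k : ℕ}

theorem blk_mul (x : Fin b × Fin k → ℝ) (σ τ : Equiv.Perm (Fin b × Fin k)) (i : Fin b)
    (z : Fin k) (hz : ∀ j, j ≠ z → τ (i, j) = (i, j)) :
    blk x (σ * τ) i = blk x σ i + (x (σ (τ (i, z))) - x (σ (i, z))) := by
  unfold blk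
  have h : ∑ j : Fin k, (x ((σ * τ) (i, j)) - x (σ (i, j))) =
      (x (σ (τ (i, z))) - x (σ (i, z))) := by
    rw [Finset.sum_eq_single z]
    · rfl
    · intro j _ hj
      have : (σ * τ) (i, j) = σ (i, j) := by
        show σ (τ (i, j)) = σ (i, j)
        rw [hz j hj]
      rw [this, sub_self]
    · intro hh
      exact absurd (Finset.mem_univ z) hh
  rw [Finset.sum_sub_distrib] at h
  linarith

/-- arrangements all of whose block sums vanish. -/
noncomputable def zeroSet (x : Fin b × Fin k → ℝ) : Finset (Equiv.Perm (Fin b × Fin k)) :=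
  univ.filter (fun σ => ∀ i, blk x σ i = 0)

/-- arrangements with at least two negative blocks. -/
noncomputable def twoSet (x : Fin b × Fin k → ℝ) : Finset (Equiv.Perm (Fin b × Fin k)) :=
  univ.filter (fun σ => 2 ≤ (univ.filter (fun i => blk x σ i < 0)).card)

theorem zero_le_two (x : Fin b × Fin k → ℝ) (hx : Function.Injective x) (hb : 4 ≤ b) (hk : 1 ≤ k) :
    (zeroSet x).card ≤ (twoSet x).card := by
  let z : Fin k := ⟨0, hk⟩
  let i0 : Fin b := ⟨0, by omega⟩
  let i1 : Fin b := ⟨1, by omega⟩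
  let i2 : Fin b := ⟨2, by omega⟩
  let i3 : Fin b := ⟨3, by omega⟩
  have h01 : i0 ≠ i1 := by simp [i0, i1]
  have h02 : i0 ≠ i2 := by simp [i0, i2]
  have h03 : i0 ≠ i3 := by simp [i0, i3]
  have h12 : i1 ≠ i2 := by simp [i1, i2]
  have h13 : i1 ≠ i3 := by simp [i1, i3]
  have h23 : i2 ≠ i3 := by simp [i2, i3]
  let τ : Equiv.Perm (Fin b × Fin k) := Equiv.swap (i0, z) (i1, z) * Equiv.swap (i2, z) (i3, z)
  have pne : ∀ {i i' : Fin b} {j j' : Fin k}, i ≠ i' → ((i, j) : Fin b × Fin k) ≠ (i', j') := by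
    intro i i' j j' h hh
    exact h (Prod.mk.inj hh).1
  have pne' : ∀ {i i' : Fin b} {j j' : Fin k}, j ≠ j' → ((i, j) : Fin b × Fin k) ≠ (i', j') := by
    intro i i' j j' h hh
    exact h (Prod.mk.inj hh).2
  have t0 : τ (i0, z) = (i1, z) := by
    show Equiv.swap (i0, z) (i1, z) (Equiv.swap (i2, z) (i3, z) (i0, z)) = _
    rw [Equiv.swap_apply_of_ne_of_ne (pne h02) (pne h03), Equiv.swap_apply_left]
  have t1 : τ (i1, z) = (i0, z) := by
    show Equiv.swap (i0, z) (i1, z) (Equiv.swap (i2, z) (i3, z) (i1, z)) = _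
    rw [Equiv.swap_apply_of_ne_of_ne (pne h12) (pne h13), Equiv.swap_apply_right]
  have t2 : τ (i2, z) = (i3, z) := by
    show Equiv.swap (i0, z) (i1, z) (Equiv.swap (i2, z) (i3, z) (i2, z)) = _
    rw [Equiv.swap_apply_left, Equiv.swap_apply_of_ne_of_ne (pne h03.symm) (pne h13.symm)]
  have t3 : τ (i3, z) = (i2, z) := by
    show Equiv.swap (i0, z) (i1, z) (Equiv.swap (i2, z) (i3, z) (i3, z)) = _
    rw [Equiv.swap_apply_right, Equiv.swap_apply_of_ne_of_ne (pne h02.symm) (pne h12.symm)]
  have tj : ∀ (i : Fin b) (j : Fin k), j ≠ z → τ (i, j) = (i, j) := by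
    intro i j hj
    show Equiv.swap (i0, z) (i1, z) (Equiv.swap (i2, z) (i3, z) (i, j)) = _
    rw [Equiv.swap_apply_of_ne_of_ne (pne' hj) (pne' hj),
      Equiv.swap_apply_of_ne_of_ne (pne' hj) (pne' hj)]
  apply Finset.card_le_card_of_injOn (fun σ => σ * τ)
  · intro σ hσ
    unfold zeroSet at hσ
    unfold twoSet
    simp only [Finset.coe_filter, Finset.mem_univ, true_and, Set.mem_ofPred_eq] at hσ ⊢
    have b0 := blk_mul x σ τ i0 z (tj i0)
    have b1 := blk_mul x σ τ i1 z (tj i1)
    have b2 := blk_mul x σ τ i2 z (tj i2)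
    have b3 := blk_mul x σ τ i3 z (tj i3)
    rw [hσ, t0] at b0
    rw [hσ, t1] at b1
    rw [hσ, t2] at b2
    rw [hσ, t3] at b3
    have d1 : x (σ (i0, z)) ≠ x (σ (i1, z)) := by
      intro h
      exact pne h01 (σ.injective (hx h))
    have d2 : x (σ (i2, z)) ≠ x (σ (i3, z)) := by
      intro h
      exact pne h23 (σ.injective (hx h))
    have e1 : ∃ i ∈ ({i0, i1} : Finset (Fin b)), blk x (σ * τ) i < 0 := by
      rcases lt_or_gt_of_ne d1 with h | h
      · exact ⟨i1, by simp, by rw [b1]; linarith⟩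
      · exact ⟨i0, by simp, by rw [b0]; linarith⟩
    have e2 : ∃ i ∈ ({i2, i3} : Finset (Fin b)), blk x (σ * τ) i < 0 := by
      rcases lt_or_gt_of_ne d2 with h | h
      · exact ⟨i3, by simp, by rw [b3]; linarith⟩
      · exact ⟨i2, by simp, by rw [b2]; linarith⟩
    obtain ⟨i, hi, hi'⟩ := e1
    obtain ⟨i', hi2, hi2'⟩ := e2
    have hne : i ≠ i' := by
      simp only [Finset.mem_insert, Finset.mem_singleton] at hi hi2
      rcases hi with rfl | rfl <;> rcases hi2 with rfl | rfl <;> assumption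
    have hsub : ({i, i'} : Finset (Fin b)) ⊆ univ.filter (fun i => blk x (σ * τ) i < 0) := by
      intro y hy
      simp only [Finset.mem_insert, Finset.mem_singleton] at hy
      simp only [Finset.mem_filter, Finset.mem_univ, true_and]
      rcases hy with rfl | rfl <;> assumption
    calc 2 = ({i, i'} : Finset (Fin b)).card := (Finset.card_pair hne).symm
      _ ≤ _ := Finset.card_le_card hsub
  · intro σ _ σ' _ hh
    exact mul_right_cancel hh

theorem one_add_le (x : Fin b × Fin k → ℝ) (hs : ∑ p, x p ≤ 0) (σ : Equiv.Perm (Fin b × Fin k)) :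
    1 + (if σ ∈ twoSet x then 1 else 0) ≤
      (univ.filter (fun i => blk x σ i < 0)).card + (if σ ∈ zeroSet x then 1 else 0) := by
  by_cases h2 : σ ∈ twoSet x
  · have h3 := h2
    unfold twoSet at h3
    simp only [Finset.mem_filter, Finset.mem_univ, true_and] at h3
    rw [if_pos h2]
    omega
  · rw [if_neg h2]
    by_cases hz : σ ∈ zeroSet x
    · rw [if_pos hz]
      omega
    · rw [if_neg hz]
      have : 0 < (univ.filter (fun i => blk x σ i < 0)).card := by
        rw [Finset.card_pos]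
        by_contra hne
        rw [Finset.not_nonempty_iff_eq_empty, Finset.filter_eq_empty_iff] at hne
        apply hz
        unfold zeroSet
        simp only [Finset.mem_filter, Finset.mem_univ, true_and]
        have hnn : ∀ i ∈ (univ : Finset (Fin b)), 0 ≤ blk x σ i := by
          intro i hi
          exact not_lt.1 (hne hi)
        have hs0 : ∑ i, blk x σ i = 0 := by
          apply le_antisymm
          · rw [sum_blk]
            exact hs
          · exact Finset.sum_nonneg hnn
        intro i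
        exact (Finset.sum_eq_zero_iff_of_nonneg hnn).1 hs0 i (Finset.mem_univ i)
      omega

theorem factorial_le (x : Fin b × Fin k → ℝ) (hx : Function.Injective x) (hb : 4 ≤ b) (hk : 1 ≤ k)
    (hs : ∑ p, x p ≤ 0) :
    (b * k).factorial ≤
      ∑ σ : Equiv.Perm (Fin b × Fin k), (univ.filter (fun i => blk x σ i < 0)).card := by
  have h1 := Finset.sum_le_sum (fun σ (_ : σ ∈ (univ : Finset (Equiv.Perm (Fin b × Fin k)))) =>
    one_add_le x hs σ)
  rw [Finset.sum_add_distrib, Finset.sum_add_distrib] at h1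
  have h2 : ∑ σ : Equiv.Perm (Fin b × Fin k), (if σ ∈ twoSet x then 1 else 0) =
      (twoSet x).card := by
    simp
  have h3 : ∑ σ : Equiv.Perm (Fin b × Fin k), (if σ ∈ zeroSet x then 1 else 0) =
      (zeroSet x).card := by
    simp
  rw [h2, h3] at h1
  have h4 : ∑ σ : Equiv.Perm (Fin b × Fin k), 1 = (b * k).factorial := by
    rw [Finset.sum_const, Finset.card_univ, Fintype.card_perm]
    simp
  rw [h4] at h1
  have h5 := zero_le_two x hx hb hk
  omega

theorem choose_le_negFam (x : Fin b × Fin k → ℝ) (hx : Function.Injective x) (hb : 4 ≤ b)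
    (hk : 1 ≤ k) (hs : ∑ p, x p ≤ 0) :
    (b * k).choose k ≤ b * (negFam x).card := by
  have h1 := sum_neg_count x
  have h2 := factorial_le x hx hb hk hs
  have h3 : 0 < (b * k).factorial := Nat.factorial_pos _
  have h4 : (b * k).factorial * (b * k).choose k ≤ (b * k).factorial * (b * (negFam x).card) := by
    calc (b * k).factorial * (b * k).choose k
        ≤ (∑ σ : Equiv.Perm (Fin b × Fin k), (univ.filter (fun i => blk x σ i < 0)).card) *
          (b * k).choose k := Nat.mul_le_mul_right _ h2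
      _ = _ := by rw [h1]; ring
  exact Nat.le_of_mul_le_mul_left h4 h3

end

/-- The `k`-subsets of `R` with negative sum. -/
noncomputable def neg (k : ℕ) (R : Finset ℝ) : Finset (Finset ℝ) :=
  (R.powersetCard k).filter (fun T => ∑ y ∈ T, y < 0)

theorem choose_le_neg (R : Finset ℝ) (b k : ℕ) (hR : R.card = b * k) (hb : 4 ≤ b) (hk : 1 ≤ k)
    (hs : ∑ y ∈ R, y ≤ 0) : (b * k - 1).choose (k - 1) ≤ (neg k R).card := by
  classical
  have hc : Fintype.card (Fin b × Fin k) = Fintype.card R := by
    simp [hR]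
  let e : Fin b × Fin k ≃ R := Fintype.equivOfCardEq hc
  let f : Fin b × Fin k ↪ ℝ := e.toEmbedding.trans (Function.Embedding.subtype _)
  have hf : (univ : Finset (Fin b × Fin k)).map f = R := by
    ext y
    simp only [Finset.mem_map, Finset.mem_univ, true_and, f]
    constructor
    · rintro ⟨p, rfl⟩
      exact (e p).2
    · intro hy
      refine ⟨e.symm ⟨y, hy⟩, ?_⟩
      simp
  have hsum : ∑ p, f p ≤ 0 := by
    rw [← hf, Finset.sum_map] at hs
    exact hs
  have h1 := choose_le_negFam (fun p => f p) f.injective hb hk hsum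
  have h2 : (neg k R).card = (negFam (fun p => f p)).card := by
    unfold neg negFam
    rw [← hf, Finset.powersetCard_map, Finset.filter_map, Finset.card_map]
    congr 1
    apply Finset.filter_congr
    intro T _
    simp only [Function.comp]
    have : ((Finset.mapEmbedding f).toEmbedding T) = T.map f := rfl
    rw [this, Finset.sum_map]
  rw [h2]
  obtain ⟨k', rfl⟩ : ∃ k', k = k' + 1 := ⟨k - 1, by omega⟩
  obtain ⟨b', rfl⟩ : ∃ b', b = b' + 1 := ⟨b - 1, by omega⟩
  have h3 : (b' + 1) * (k' + 1) = ((b' + 1) * (k' + 1) - 1) + 1 := by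
    have : 0 < (b' + 1) * (k' + 1) := by positivity
    omega
  have h4 := Nat.add_one_mul_choose_eq ((b' + 1) * (k' + 1) - 1) k'
  rw [← h3] at h4
  -- (b'+1)(k'+1) * C(.,k') = C(.., k'+1) * (k'+1)
  have h5 : (k' + 1) * ((b' + 1) * ((b' + 1) * (k' + 1) - 1).choose k') ≤
      (k' + 1) * ((b' + 1) * (negFam (fun p => f p)).card) := by
    calc (k' + 1) * ((b' + 1) * ((b' + 1) * (k' + 1) - 1).choose k')
        = (b' + 1) * (k' + 1) * ((b' + 1) * (k' + 1) - 1).choose k' := by ring
      _ = ((b' + 1) * (k' + 1)).choose (k' + 1) * (k' + 1) := h4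
      _ ≤ ((b' + 1) * (negFam (fun p => f p)).card) * (k' + 1) := Nat.mul_le_mul_right _ h1
      _ = _ := by ring
  have h6 := Nat.le_of_mul_le_mul_left h5 (by omega)
  exact Nat.le_of_mul_le_mul_left h6 (by omega)

end Pool.Agent.Helper594_MMS
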