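import Pool.Agent.Helper594_MMS.Main

/-!
A certificate checker for the finitely many base cases: counting down-closures of index sets, and
Farkas certificates over the ordering constraints.
-/

namespace Pool.Agent.Helper594_MMS

open Finset

/-- The sum of `f` over a list of indices. -/
def ls (f : ℕ → ℝ) (T : List ℕ) : ℝ := (T.map f).sum

/-- Tails of those (descending) lists whose head is at least `b`. -/
def stepQ (b : ℕ) : List (List ℕ) → List (List ℕ)
  | [] => []
  | T :: Q => match T with
    | [] => stepQ b Q
    | t :: ts => bif Nat.ble b t then ts :: stepQ b Q else stepQ b Q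

/-- The largest `min b (t + 1)` over the heads `t`. -/
def topQ (b : ℕ) : List (List ℕ) → ℕ
  | [] => 0
  | T :: Q => match T with
    | [] => topQ b Q
    | t :: _ => bif Nat.ble b (t + 1) then b else Nat.max (t + 1) (topQ b Q)

/-- A lower bound for the number of `k`-subsets of `{0, ..., b-1}` dominated by a list in `Q`. -/
def cnt (k b : ℕ) (Q : List (List ℕ)) : ℕ :=
  match Q with
  | [] => 0
  | T :: Q' => match k with
    | 0 => 1
    | k' + 1 => match b with
      | 0 => 0
      | b' + 1 => match k' with
        | 0 => topQ (b' + 1) (T :: Q')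
        | k'' + 1 => cnt (k'' + 2) b' (T :: Q') + cnt (k'' + 1) b' (stepQ b' (T :: Q'))
termination_by structural b

/-- The `k`-subsets of `{0, ..., b-1}` with `c + f`-sum negative. -/
noncomputable def negI (f : ℕ → ℝ) (c : ℝ) (k b : ℕ) : Finset (Finset ℕ) :=
  ((range b).powersetCard k).filter (fun S => c + ∑ s ∈ S, f s < 0)

theorem stepQ_mem (b : ℕ) (Q : List (List ℕ)) (ts : List ℕ) (h : ts ∈ stepQ b Q) :
    ∃ t, b ≤ t ∧ (t :: ts) ∈ Q := by
  induction Q with
  | nil => simp [stepQ] at h
  | cons T Q ih =>
    cases T with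
    | nil =>
      rw [stepQ] at h
      obtain ⟨t, h1, h2⟩ := ih h
      exact ⟨t, h1, List.mem_cons_of_mem _ h2⟩
    | cons t us =>
      rw [stepQ] at h
      cases hb : Nat.ble b t with
      | true =>
        rw [hb, cond_true, List.mem_cons] at h
        rcases h with rfl | h
        · exact ⟨t, Nat.le_of_ble_eq_true hb, List.mem_cons_self⟩
        · obtain ⟨t', h1, h2⟩ := ih h
          exact ⟨t', h1, List.mem_cons_of_mem _ h2⟩
      | false =>
        rw [hb, cond_false] at h
        obtain ⟨t', h1, h2⟩ := ih h
        exact ⟨t', h1, List.mem_cons_of_mem _ h2⟩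

theorem topQ_le (b : ℕ) (Q : List (List ℕ)) (m : ℕ) (h : ∀ t ts, (t :: ts) ∈ Q → min b (t + 1) ≤ m) :
    topQ b Q ≤ m := by
  induction Q with
  | nil => simp [topQ]
  | cons T Q ih =>
    cases T with
    | nil =>
      rw [topQ]
      exact ih (fun t ts ht => h t ts (List.mem_cons_of_mem _ ht))
    | cons t us =>
      rw [topQ]
      have h1 := h t us List.mem_cons_self
      have h2 := ih (fun t ts ht => h t ts (List.mem_cons_of_mem _ ht))
      cases hb : Nat.ble b (t + 1) with
      | true =>
        have := Nat.le_of_ble_eq_true hb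
        rw [cond_true]
        rwa [min_eq_left this] at h1
      | false =>
        rw [cond_false]
        have : ¬ b ≤ t + 1 := by
          intro hh
          rw [Nat.ble_eq_true_of_le hh] at hb
          exact absurd hb (by simp)
        rw [min_eq_right (by omega)] at h1
        exact max_le h1 h2

theorem negI_succ (f : ℕ → ℝ) (c : ℝ) (k b : ℕ) :
    (negI f c (k + 1) (b + 1)).card = (negI f c (k + 1) b).card + (negI f (c + f b) k b).card := by
  classical
  unfold negI
  have hb : b ∉ range b := by simp
  rw [Finset.range_add_one, Finset.powersetCard_succ_insert hb, Finset.filter_union,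
    Finset.card_union_of_disjoint, Finset.filter_image]
  · congr 1
    rw [Finset.card_image_of_injOn]
    · congr 1
      apply Finset.filter_congr
      intro S hS
      rw [Finset.mem_powersetCard] at hS
      have : b ∉ S := fun h => hb (hS.1 h)
      rw [Finset.sum_insert this, add_assoc]
    · intro S hS S' hS' hh
      rw [Finset.mem_coe, Finset.mem_filter, Finset.mem_powersetCard] at hS hS'
      have h1 : b ∉ S := fun h => hb (hS.1.1 h)
      have h2 : b ∉ S' := fun h => hb (hS'.1.1 h)
      have hh' : insert b S = insert b S' := hh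
      calc S = (insert b S).erase b := (Finset.erase_insert h1).symm
        _ = (insert b S').erase b := by rw [hh']
        _ = S' := Finset.erase_insert h2
  · rw [Finset.disjoint_left]
    intro U hU hU'
    rw [Finset.mem_filter, Finset.mem_powersetCard] at hU
    rw [Finset.mem_filter, Finset.mem_image] at hU'
    obtain ⟨⟨T, _, rfl⟩, _⟩ := hU'
    exact hb (hU.1.1 (Finset.mem_insert_self b T))

theorem negI_one (f : ℕ → ℝ) (n : ℕ) (hf : ∀ i j, i ≤ j → j < n → f i ≤ f j) (c : ℝ) (b t : ℕ)
    (ht : t < n) (hc : c + f t < 0) : min b (t + 1) ≤ (negI f c 1 b).card := by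
  classical
  have h1 : ((range (min b (t + 1))).image (fun i => ({i} : Finset ℕ))).card = min b (t + 1) := by
    rw [Finset.card_image_of_injective _ Finset.singleton_injective, Finset.card_range]
  rw [← h1]
  apply Finset.card_le_card
  intro S hS
  rw [Finset.mem_image] at hS
  obtain ⟨i, hi, rfl⟩ := hS
  rw [Finset.mem_range] at hi
  unfold negI
  rw [Finset.mem_filter, Finset.mem_powersetCard, Finset.sum_singleton]
  refine ⟨⟨?_, Finset.card_singleton i⟩, ?_⟩
  · rw [Finset.singleton_subset_iff, Finset.mem_range]
    omega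
  · have := hf i t (by omega) ht
    linarith

theorem negI_zero (f : ℕ → ℝ) (c : ℝ) (b : ℕ) (hc : c < 0) : 1 ≤ (negI f c 0 b).card := by
  apply Finset.card_pos.2
  refine ⟨∅, ?_⟩
  unfold negI
  rw [Finset.mem_filter, Finset.mem_powersetCard, Finset.sum_empty]
  exact ⟨⟨Finset.empty_subset _, Finset.card_empty⟩, by linarith⟩

theorem cnt_le (f : ℕ → ℝ) (n : ℕ) (hf : ∀ i j, i ≤ j → j < n → f i ≤ f j) :
    ∀ (b k : ℕ) (Q : List (List ℕ)) (c : ℝ), b ≤ n →
      (∀ T ∈ Q, T.length = k ∧ (∀ t ∈ T, t < n) ∧ c + ls f T < 0) →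
      cnt k b Q ≤ (negI f c k b).card := by
  intro b
  induction b with
  | zero =>
    intro k Q c _ hQ
    cases Q with
    | nil => simp [cnt]
    | cons T Q =>
      cases k with
      | zero =>
        obtain ⟨h1, _, h3⟩ := hQ T List.mem_cons_self
        have hT : T = [] := List.eq_nil_of_length_eq_zero h1
        subst hT
        simp only [ls, List.map_nil, List.sum_nil, add_zero] at h3
        rw [cnt]
        exact negI_zero f c _ h3
      | succ k => simp [cnt]
  | succ b ih =>
    intro k Q c hb hQ
    cases Q with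
    | nil => simp [cnt]
    | cons T Q =>
      cases k with
      | zero =>
        obtain ⟨h1, _, h3⟩ := hQ T List.mem_cons_self
        have hT : T = [] := List.eq_nil_of_length_eq_zero h1
        subst hT
        simp only [ls, List.map_nil, List.sum_nil, add_zero] at h3
        rw [cnt]
        exact negI_zero f c _ h3
      | succ k =>
        cases k with
        | zero =>
          have e : cnt (0 + 1) (b + 1) (T :: Q) = topQ (b + 1) (T :: Q) := by
            rw [cnt]
          rw [e]
          apply topQ_le
          intro t ts ht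
          obtain ⟨h1, h2, h3⟩ := hQ _ ht
          have hts : ts = [] := by
            apply List.eq_nil_of_length_eq_zero
            simpa using h1
          subst hts
          have h4 : c + f t < 0 := by
            simpa [ls] using h3
          exact negI_one f n hf c (b + 1) t (h2 t List.mem_cons_self) h4
        | succ k =>
          have e : cnt (k + 1 + 1) (b + 1) (T :: Q) =
              cnt (k + 2) b (T :: Q) + cnt (k + 1) b (stepQ b (T :: Q)) := by
            rw [cnt]
          rw [e, negI_succ]
          apply Nat.add_le_add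
          · exact ih _ _ _ (by omega) hQ
          · apply ih _ _ _ (by omega)
            intro ts hts
            obtain ⟨t, h1, h2⟩ := stepQ_mem b _ ts hts
            obtain ⟨h3, h4, h5⟩ := hQ _ h2
            refine ⟨?_, ?_, ?_⟩
            · simpa using h3
            · intro u hu
              exact h4 u (List.mem_cons_of_mem _ hu)
            · have h6 := hf b t h1 (h4 t List.mem_cons_self)
              have h7 : ls f (t :: ts) = f t + ls f ts := by simp [ls]
              rw [h7] at h5
              linarith

/-! ### Farkas certificates -/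

/-- Total weight. -/
def wsum : List (ℕ × List ℕ) → ℕ
  | [] => 0
  | p :: L => p.1 * p.2.length + wsum L

/-- Weight in positions `≤ j`. -/
def cum (j : ℕ) : List (ℕ × List ℕ) → ℕ
  | [] => 0
  | p :: L => p.1 * p.2.countP (fun s => Nat.ble s j) + cum j L

/-- The weighted sum. -/
def wls (f : ℕ → ℝ) : List (ℕ × List ℕ) → ℝ
  | [] => 0
  | p :: L => (p.1 : ℝ) * ls f p.2 + wls f L

/-- The numerical check of a Farkas certificate for `p + 1` ordered numbers. -/
def chk (p : ℕ) (L : List (ℕ × List ℕ)) : Bool :=
  L.all (fun q => q.2.all (fun s => Nat.ble s p)) &&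
  (List.range p).all (fun j => Nat.ble ((j + 1) * wsum L) ((p + 1) * cum j L)) &&
  (List.range p).any (fun j => Nat.blt ((j + 1) * wsum L) ((p + 1) * cum j L))

theorem tele (f : ℕ → ℝ) (p s : ℕ) (hs : s ≤ p) :
    f p - f s = ∑ j ∈ range p, (if Nat.ble s j = true then (1 : ℝ) else 0) * (f (j + 1) - f j) := by
  induction p with
  | zero =>
    have : s = 0 := by omega
    subst this
    simp
  | succ p ih =>
    rw [Finset.sum_range_succ]
    rcases Nat.lt_or_ge p s with h | h
    · have hs' : s = p + 1 := by omega
      subst hs'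
      rw [Finset.sum_eq_zero, if_neg]
      · ring
      · simp
      · intro j hj
        rw [Finset.mem_range] at hj
        rw [if_neg]
        · ring
        · intro hh
          have := Nat.le_of_ble_eq_true hh
          omega
    · rw [← ih h, if_pos (Nat.ble_eq_true_of_le h)]
      ring

theorem tele_ls (f : ℕ → ℝ) (p : ℕ) (S : List ℕ) (hS : ∀ s ∈ S, s ≤ p) :
    (S.length : ℝ) * f p - ls f S =
      ∑ j ∈ range p, (S.countP (fun s => Nat.ble s j) : ℝ) * (f (j + 1) - f j) := by
  induction S with
  | nil => simp [ls]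
  | cons s S ih =>
    have h1 := ih (fun t ht => hS t (List.mem_cons_of_mem _ ht))
    have h2 := tele f p s (hS s List.mem_cons_self)
    have h3 : ls f (s :: S) = f s + ls f S := by simp [ls]
    rw [h3, List.length_cons]
    push_cast
    have h4 : ((S.length : ℝ) + 1) * f p - (f s + ls f S) =
        (f p - f s) + ((S.length : ℝ) * f p - ls f S) := by ring
    rw [h4, h1, h2, ← Finset.sum_add_distrib]
    apply Finset.sum_congr rfl
    intro j _
    rw [List.countP_cons]
    push_cast
    split_ifs <;> ring

theorem tele_wls (f : ℕ → ℝ) (p : ℕ) (L : List (ℕ × List ℕ))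
    (hL : ∀ q ∈ L, ∀ s ∈ q.2, s ≤ p) :
    (wsum L : ℝ) * f p - wls f L =
      ∑ j ∈ range p, (cum j L : ℝ) * (f (j + 1) - f j) := by
  induction L with
  | nil => simp [wsum, wls, cum]
  | cons q L ih =>
    have h1 := ih (fun t ht => hL t (List.mem_cons_of_mem _ ht))
    have h2 := tele_ls f p q.2 (hL q List.mem_cons_self)
    simp only [wsum, wls, cum]
    push_cast
    have h4 : ((q.1 : ℝ) * (q.2.length : ℝ) + (wsum L : ℝ)) * f p -
        ((q.1 : ℝ) * ls f q.2 + wls f L) =
        (q.1 : ℝ) * ((q.2.length : ℝ) * f p - ls f q.2) + ((wsum L : ℝ) * f p - wls f L) := by ring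
    rw [h4, h1, h2, Finset.mul_sum, ← Finset.sum_add_distrib]
    apply Finset.sum_congr rfl
    intro j _
    ring

theorem tele_sum (f : ℕ → ℝ) (p : ℕ) :
    ((p : ℝ) + 1) * f p - ∑ i ∈ range (p + 1), f i =
      ∑ j ∈ range p, ((j : ℝ) + 1) * (f (j + 1) - f j) := by
  induction p with
  | zero => simp
  | succ p ih =>
    rw [Finset.sum_range_succ _ p, ← ih, Finset.sum_range_succ _ (p + 1)]
    push_cast
    ring

theorem farkas (f : ℕ → ℝ) (p : ℕ) (hf : ∀ j < p, f j < f (j + 1))
    (hs : ∑ i ∈ range (p + 1), f i ≤ 0) (L : List (ℕ × List ℕ)) (hL : chk p L = true) :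
    wls f L < 0 := by
  unfold chk at hL
  rw [Bool.and_eq_true, Bool.and_eq_true] at hL
  obtain ⟨⟨h1, h2⟩, h3⟩ := hL
  have e1 : ∀ q ∈ L, ∀ s ∈ q.2, s ≤ p := by
    intro q hq s hs
    have := (List.all_eq_true.1 ((List.all_eq_true.1 h1) q hq)) s hs
    exact Nat.le_of_ble_eq_true this
  have e2 : ∀ j < p, (j + 1) * wsum L ≤ (p + 1) * cum j L := by
    intro j hj
    exact Nat.le_of_ble_eq_true ((List.all_eq_true.1 h2) j (List.mem_range.2 hj))
  obtain ⟨j0, hj0, hj0'⟩ := List.any_eq_true.1 h3
  rw [List.mem_range] at hj0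
  have e3 : (j0 + 1) * wsum L < (p + 1) * cum j0 L := Nat.le_of_ble_eq_true hj0'
  have t1 := tele_wls f p L e1
  have t2 := tele_sum f p
  have key : ∑ j ∈ range p, (((j : ℝ) + 1) * (wsum L : ℝ)) * (f (j + 1) - f j) <
      ∑ j ∈ range p, (((p : ℝ) + 1) * (cum j L : ℝ)) * (f (j + 1) - f j) := by
    apply Finset.sum_lt_sum
    · intro j hj
      rw [Finset.mem_range] at hj
      apply mul_le_mul_of_nonneg_right
      · exact_mod_cast e2 j hj
      · linarith [hf j hj]
    · refine ⟨j0, Finset.mem_range.2 hj0, ?_⟩
      apply mul_lt_mul_of_pos_right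
      · exact_mod_cast e3
      · linarith [hf j0 hj0]
  have k1 : ∑ j ∈ range p, (((j : ℝ) + 1) * (wsum L : ℝ)) * (f (j + 1) - f j) =
      (wsum L : ℝ) * (((p : ℝ) + 1) * f p - ∑ i ∈ range (p + 1), f i) := by
    rw [t2, Finset.mul_sum]
    apply Finset.sum_congr rfl
    intro j _
    ring
  have k2 : ∑ j ∈ range p, (((p : ℝ) + 1) * (cum j L : ℝ)) * (f (j + 1) - f j) =
      ((p : ℝ) + 1) * ((wsum L : ℝ) * f p - wls f L) := by
    rw [t1, Finset.mul_sum]
    apply Finset.sum_congr rfl
    intro j _
    ring
  rw [k1, k2] at key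
  have hw : (wsum L : ℝ) * ∑ i ∈ range (p + 1), f i ≤ 0 :=
    mul_nonpos_of_nonneg_of_nonpos (by positivity) hs
  have hp : (0 : ℝ) < (p : ℝ) + 1 := by positivity
  have h5 : ((p : ℝ) + 1) * wls f L < 0 := by nlinarith
  by_contra hc
  have := mul_nonneg hp.le (not_lt.1 hc)
  linarith

end Pool.Agent.Helper594_MMS
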