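import Pool.Agent.Helper594_MMS.Block

/-!
Counting lemmas for the non-divisible case.
-/

namespace Pool.Agent.Helper594_MMS

open Finset

theorem neg_mono {k : ℕ} {R R' : Finset ℝ} (h : R' ⊆ R) : neg k R' ⊆ neg k R := by
  intro T hT
  unfold neg at hT ⊢
  rw [Finset.mem_filter] at hT ⊢
  exact ⟨Finset.powersetCard_mono h hT.1, hT.2⟩

/-- Removing largest elements keeps the sum at most `0`. -/
theorem exists_sub_aux (d : ℕ) : ∀ (R : Finset ℝ), ∑ y ∈ R, y ≤ 0 → ∀ s : ℕ, s + d = R.card →
    ∃ R' ⊆ R, R'.card = s ∧ ∑ y ∈ R', y ≤ 0 := by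
  induction d with
  | zero =>
    intro R hR s hs
    exact ⟨R, Finset.Subset.refl _, by omega, hR⟩
  | succ d ih =>
    intro R hR s hs
    have hne : R.Nonempty := by
      rw [← Finset.card_pos]
      omega
    let m := R.max' hne
    have hm : m ∈ R := Finset.max'_mem R hne
    have hsum : ∑ y ∈ R.erase m, y + m = ∑ y ∈ R, y := Finset.sum_erase_add R (fun y => y) hm
    have hle : ∑ y ∈ R.erase m, y ≤ 0 := by
      by_cases h0 : 0 ≤ m
      · linarith
      · apply Finset.sum_nonpos
        intro y hy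
        have := Finset.le_max' R y (Finset.mem_of_mem_erase hy)
        have h1 : m < 0 := not_le.1 h0
        exact le_trans this h1.le
    have hc : (R.erase m).card = R.card - 1 := Finset.card_erase_of_mem hm
    obtain ⟨R', hR', hc', hs'⟩ := ih (R.erase m) hle s (by omega)
    exact ⟨R', hR'.trans (Finset.erase_subset _ _), hc', hs'⟩

theorem exists_sub (R : Finset ℝ) (hR : ∑ y ∈ R, y ≤ 0) (s : ℕ) (hs : s ≤ R.card) :
    ∃ R' ⊆ R, R'.card = s ∧ ∑ y ∈ R', y ≤ 0 :=
  exists_sub_aux (R.card - s) R hR s (by omega)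

/-- A weak lower bound valid for every number of elements. -/
theorem neg_card_ge (R : Finset ℝ) (k : ℕ) (hk : 1 ≤ k) (hR : 4 * k ≤ R.card)
    (hs : ∑ y ∈ R, y ≤ 0) : (R.card - k).choose (k - 1) ≤ (neg k R).card := by
  have hb : 4 ≤ R.card / k := (Nat.le_div_iff_mul_le (by omega)).2 hR
  have hmod := Nat.div_add_mod R.card k
  have hlt := Nat.mod_lt R.card (show 0 < k by omega)
  have hle : R.card / k * k ≤ R.card := Nat.div_mul_le_self _ _
  obtain ⟨R', hR', hc', hs'⟩ := exists_sub R hs (R.card / k * k) hle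
  have h1 := choose_le_neg R' (R.card / k) k hc' hb hk hs'
  calc (R.card - k).choose (k - 1) ≤ (R.card / k * k - 1).choose (k - 1) := by
        apply Nat.choose_le_choose
        rw [mul_comm] at hmod
        omega
    _ ≤ (neg k R').card := h1
    _ ≤ (neg k R).card := Finset.card_le_card (neg_mono hR')

/-- The sum of all `j`-subset sums. -/
theorem sum_powersetCard_sum_nonpos (R : Finset ℝ) (j : ℕ) (hs : ∑ y ∈ R, y ≤ 0) :
    ∑ T ∈ R.powersetCard j, ∑ y ∈ T, y ≤ 0 := by
  classical
  rcases Nat.eq_zero_or_pos j with rfl | hj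
  · simp
  have h1 : ∑ T ∈ R.powersetCard j, ∑ y ∈ T, y =
      ∑ y ∈ R, ∑ T ∈ (R.powersetCard j).filter (fun T => {y} ⊆ T), y := by
    apply Finset.sum_comm'
    intro T y
    simp only [Finset.mem_powersetCard, Finset.mem_filter, Finset.singleton_subset_iff]
    constructor
    · rintro ⟨⟨h1, h2⟩, h3⟩
      exact ⟨⟨⟨h1, h2⟩, h3⟩, h1 h3⟩
    · rintro ⟨⟨h1, h2⟩, h3⟩
      exact ⟨h1, h2⟩
  rw [h1]
  have h2 : ∀ y ∈ R, ∑ T ∈ (R.powersetCard j).filter (fun T => {y} ⊆ T), y =
      ((R.card - 1).choose (j - 1) : ℝ) * y := by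
    intro y hy
    rw [Finset.sum_const, Finset.card_filter_powersetCard_subset {y} R j
      (Finset.singleton_subset_iff.2 hy) (by rw [Finset.card_singleton]; omega)]
    simp
  rw [Finset.sum_congr rfl h2, ← Finset.mul_sum]
  exact mul_nonpos_of_nonneg_of_nonpos (by positivity) hs

/-- `N ≤ 2 |G| + (j-1) |V|`. -/
theorem lemM1 (R : Finset ℝ) (j : ℕ) (hj : 1 ≤ j) (M : ℝ) (hM : 0 < M)
    (hel : ∀ y ∈ R, -M < y) (hs : ∑ y ∈ R, y ≤ 0) :
    R.card.choose j ≤ 2 * ((R.powersetCard j).filter (fun T => ∑ y ∈ T, y < M)).card +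
      (j - 1) * ((R.powersetCard j).filter (fun T => ∑ y ∈ T, y < -M)).card := by
  classical
  set P := R.powersetCard j with hP
  have h0 : ∑ T ∈ P, ∑ y ∈ T, y ≤ 0 := sum_powersetCard_sum_nonpos R j hs
  -- pointwise lower bound
  have h1 : ∀ T ∈ P, M * (1 - 2 * (if ∑ y ∈ T, y < M then (1 : ℝ) else 0)
      - ((j : ℝ) - 1) * (if ∑ y ∈ T, y < -M then (1 : ℝ) else 0)) ≤ ∑ y ∈ T, y := by
    intro T hT
    rw [hP, Finset.mem_powersetCard] at hT
    by_cases hV : ∑ y ∈ T, y < -M
    · have hG : ∑ y ∈ T, y < M := by linarith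
      rw [if_pos hV, if_pos hG]
      have : ∑ y ∈ T, (-M) ≤ ∑ y ∈ T, y := by
        apply Finset.sum_le_sum
        intro y hy
        exact (hel y (hT.1 hy)).le
      rw [Finset.sum_const, hT.2, nsmul_eq_mul] at this
      linarith
    · rw [if_neg hV]
      by_cases hG : ∑ y ∈ T, y < M
      · rw [if_pos hG]
        linarith [not_lt.1 hV]
      · rw [if_neg hG]
        linarith [not_lt.1 hG]
  have h2 := Finset.sum_le_sum h1
  rw [← Finset.mul_sum, Finset.sum_sub_distrib, Finset.sum_sub_distrib, ← Finset.mul_sum,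
    ← Finset.mul_sum, Finset.sum_boole, Finset.sum_boole, Finset.sum_const, nsmul_eq_mul,
    mul_one] at h2
  have h3 : ((P.card : ℝ) - 2 * ((P.filter (fun T => ∑ y ∈ T, y < M)).card : ℝ) -
      ((j : ℝ) - 1) * ((P.filter (fun T => ∑ y ∈ T, y < -M)).card : ℝ)) ≤ 0 := by
    have h4 := le_trans h2 h0
    by_contra hc
    have := mul_pos hM (not_le.1 hc)
    linarith
  have hPc : P.card = R.card.choose j := Finset.card_powersetCard j R
  rw [hPc] at h3
  have hj' : ((j : ℝ) - 1) = ((j - 1 : ℕ) : ℝ) := by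
    rw [Nat.cast_sub hj]
    simp
  rw [hj'] at h3
  have h5 : ((R.card.choose j : ℕ) : ℝ) ≤
      ((2 * (P.filter (fun T => ∑ y ∈ T, y < M)).card +
      (j - 1) * (P.filter (fun T => ∑ y ∈ T, y < -M)).card : ℕ) : ℝ) := by
    push_cast
    linarith
  exact_mod_cast h5

theorem lemM2 (R : Finset ℝ) (M : ℝ) (hM : 0 < M)
    (hel : ∀ y ∈ R, -M < y) (hs : ∑ y ∈ R, y ≤ 0) :
    R.card ≤ 2 * (R.filter (fun y => y < M)).card := by
  classical
  have h1 : ∀ y ∈ R, M * (1 - 2 * (if y < M then (1 : ℝ) else 0)) ≤ y := by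
    intro y hy
    by_cases h : y < M
    · rw [if_pos h]
      linarith [hel y hy]
    · rw [if_neg h]
      linarith [not_lt.1 h]
  have h2 := Finset.sum_le_sum h1
  rw [← Finset.mul_sum, Finset.sum_sub_distrib, ← Finset.mul_sum, Finset.sum_boole,
    Finset.sum_const, nsmul_eq_mul, mul_one] at h2
  have h3 : ((R.card : ℝ) - 2 * ((R.filter (fun y => y < M)).card : ℝ)) ≤ 0 := by
    have h4 := le_trans h2 hs
    by_contra hc
    have := mul_pos hM (not_le.1 hc)
    linarith
  have h5 : ((R.card : ℕ) : ℝ) ≤ ((2 * (R.filter (fun y => y < M)).card : ℕ) : ℝ) := by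
    push_cast
    linarith
  exact_mod_cast h5

theorem lemM3 (R : Finset ℝ) (j : ℕ) (M : ℝ) :
    ((R.powersetCard j).filter (fun T => ∑ y ∈ T, y < -M)).card *
      ((R.filter (fun y => y < M)).card - j) ≤ (neg (j + 1) R).card * (j + 1) := by
  classical
  apply Finset.card_mul_le_card_mul (fun T U : Finset ℝ => T ⊆ U)
  · intro T hT
    rw [Finset.mem_filter, Finset.mem_powersetCard] at hT
    have h1 : ((R.filter (fun y => y < M)) \ T).card ≤
        ((neg (j + 1) R).bipartiteAbove (fun T U : Finset ℝ => T ⊆ U) T).card := by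
      apply Finset.card_le_card_of_injOn (fun y => insert y T)
      · intro y hy
        rw [Finset.mem_coe, Finset.mem_sdiff, Finset.mem_filter] at hy
        rw [Finset.mem_coe, Finset.mem_bipartiteAbove]
        refine ⟨?_, Finset.subset_insert _ _⟩
        unfold neg
        rw [Finset.mem_filter, Finset.mem_powersetCard]
        refine ⟨⟨?_, ?_⟩, ?_⟩
        · exact Finset.insert_subset hy.1.1 hT.1.1
        · rw [Finset.card_insert_of_notMem hy.2, hT.1.2]
        · rw [Finset.sum_insert hy.2]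
          linarith [hy.1.2, hT.2]
      · intro y hy y' hy' hh
        rw [Finset.mem_coe, Finset.mem_sdiff] at hy hy'
        have h2 : y ∈ insert y' T := by
          have : y ∈ insert y T := Finset.mem_insert_self _ _
          have hh' : insert y T = insert y' T := hh
          rwa [hh'] at this
        rw [Finset.mem_insert] at h2
        rcases h2 with h2 | h2
        · exact h2
        · exact absurd h2 hy.2
    refine le_trans ?_ h1
    have := Finset.le_card_sdiff T (R.filter (fun y => y < M))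
    rw [hT.1.2] at this
    exact this
  · intro U hU
    have hU' := hU
    unfold neg at hU'
    rw [Finset.mem_filter, Finset.mem_powersetCard] at hU'
    have h1 : (((R.powersetCard j).filter (fun T => ∑ y ∈ T, y < -M)).bipartiteBelow
        (fun T U : Finset ℝ => T ⊆ U) U) ⊆ U.powersetCard j := by
      intro T hT
      rw [Finset.mem_bipartiteBelow, Finset.mem_filter, Finset.mem_powersetCard] at hT
      rw [Finset.mem_powersetCard]
      exact ⟨hT.2, hT.1.1.2⟩
    refine le_trans (Finset.card_le_card h1) ?_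
    rw [Finset.card_powersetCard, hU'.1.2]
    simp

/-- `D * C(n-1-t, j) ≥ (D - t j) * C(n-1, j)` for `D + t ≤ n`; here `n = p + 1`. -/
theorem binom_bound (p j : ℕ) (hj : 1 ≤ j) (D : ℝ) : ∀ t : ℕ, t ≤ p → 0 ≤ D → D + t ≤ (p : ℝ) + 1 →
    (D - t * j) * (p.choose j : ℝ) ≤ D * ((p - t).choose j : ℝ) := by
  intro t
  induction t with
  | zero =>
    intro _ _ _
    simp
  | succ t ih =>
    intro ht hD hDt
    push_cast at hDt
    have h1 := ih (by omega) hD (by linarith)
    -- Pascal
    obtain ⟨q, hq⟩ : ∃ q, p - t = q + 1 := ⟨p - t - 1, by omega⟩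
    have hq' : p - (t + 1) = q := by omega
    obtain ⟨i, rfl⟩ : ∃ i, j = i + 1 := ⟨j - 1, by omega⟩
    have hpq : p = q + 1 + t := by omega
    rw [hq] at h1
    rw [hq']
    have h2 : (q + 1).choose (i + 1) = q.choose i + q.choose (i + 1) := Nat.choose_succ_succ q i
    have h3 := Nat.add_one_mul_choose_eq q i
    -- (q+1) * C(q,i) = C(q+1,i+1) * (i+1)
    have h3' : ((q : ℝ) + 1) * (q.choose i : ℝ) = ((q + 1).choose (i + 1) : ℝ) * ((i : ℝ) + 1) := by
      exact_mod_cast h3
    have h2' : ((q + 1).choose (i + 1) : ℝ) = (q.choose i : ℝ) + (q.choose (i + 1) : ℝ) := by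
      exact_mod_cast h2
    have h4 : ((q + 1).choose (i + 1) : ℝ) ≤ (p.choose (i + 1) : ℝ) := by
      have : (q + 1).choose (i + 1) ≤ p.choose (i + 1) := Nat.choose_le_choose _ (by omega)
      exact_mod_cast this
    have h5 : (p : ℝ) = q + 1 + t := by
      have : p = q + 1 + t := by omega
      exact_mod_cast this
    have h6 : D ≤ (q : ℝ) + 1 := by linarith
    have h7 : D * (q.choose i : ℝ) ≤ ((q : ℝ) + 1) * (q.choose i : ℝ) :=
      mul_le_mul_of_nonneg_right h6 (by positivity)
    have h8 : ((q + 1).choose (i + 1) : ℝ) * ((i : ℝ) + 1) ≤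
        (p.choose (i + 1) : ℝ) * ((i : ℝ) + 1) :=
      mul_le_mul_of_nonneg_right h4 (by positivity)
    push_cast at h1 ⊢
    rw [h2', mul_add] at h1
    nlinarith [h1, h3', h7, h8]

end Pool.Agent.Helper594_MMS
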