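import Pool.Agent.Helper594_MMS.USmall

/-!
Uniqueness when `k` divides the number of elements: the equality case of the partition argument.
-/

namespace Pool.Agent.Helper594_MMS

open Finset

set_option linter.unusedSectionVars false

section

variable {b k : ℕ}

/-- the double transposition. -/
def dbl (i0 i1 i2 i3 : Fin b) (z z' : Fin k) : Equiv.Perm (Fin b × Fin k) :=
  Equiv.swap (i0, z) (i1, z) * Equiv.swap (i2, z) (i3, z')

theorem pne {i i' : Fin b} {j j' : Fin k} (h : i ≠ i') : ((i, j) : Fin b × Fin k) ≠ (i', j') := by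
  intro hh
  exact h (Prod.mk.inj hh).1

theorem pne' {i i' : Fin b} {j j' : Fin k} (h : j ≠ j') : ((i, j) : Fin b × Fin k) ≠ (i', j') := by
  intro hh
  exact h (Prod.mk.inj hh).2

section
variable {i0 i1 i2 i3 : Fin b} {z z' : Fin k} (h01 : i0 ≠ i1) (h02 : i0 ≠ i2) (h03 : i0 ≠ i3)
  (h12 : i1 ≠ i2) (h13 : i1 ≠ i3) (h23 : i2 ≠ i3)
include h01 h02 h03 h12 h13 h23

theorem dbl0 : dbl i0 i1 i2 i3 z z' (i0, z) = (i1, z) := by
  show Equiv.swap (i0, z) (i1, z) (Equiv.swap (i2, z) (i3, z') (i0, z)) = _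
  rw [Equiv.swap_apply_of_ne_of_ne (pne h02) (pne h03), Equiv.swap_apply_left]

theorem dbl1 : dbl i0 i1 i2 i3 z z' (i1, z) = (i0, z) := by
  show Equiv.swap (i0, z) (i1, z) (Equiv.swap (i2, z) (i3, z') (i1, z)) = _
  rw [Equiv.swap_apply_of_ne_of_ne (pne h12) (pne h13), Equiv.swap_apply_right]

theorem dbl2 : dbl i0 i1 i2 i3 z z' (i2, z) = (i3, z') := by
  show Equiv.swap (i0, z) (i1, z) (Equiv.swap (i2, z) (i3, z') (i2, z)) = _
  rw [Equiv.swap_apply_left, Equiv.swap_apply_of_ne_of_ne (pne h03.symm) (pne h13.symm)]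

theorem dbl3 : dbl i0 i1 i2 i3 z z' (i3, z') = (i2, z) := by
  show Equiv.swap (i0, z) (i1, z) (Equiv.swap (i2, z) (i3, z') (i3, z')) = _
  rw [Equiv.swap_apply_right, Equiv.swap_apply_of_ne_of_ne (pne h02.symm) (pne h12.symm)]

theorem dblr0 (j : Fin k) (hj : j ≠ z) : dbl i0 i1 i2 i3 z z' (i0, j) = (i0, j) := by
  show Equiv.swap (i0, z) (i1, z) (Equiv.swap (i2, z) (i3, z') (i0, j)) = _
  rw [Equiv.swap_apply_of_ne_of_ne (pne h02) (pne h03),
    Equiv.swap_apply_of_ne_of_ne (pne' hj) (pne' hj)]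

theorem dblr1 (j : Fin k) (hj : j ≠ z) : dbl i0 i1 i2 i3 z z' (i1, j) = (i1, j) := by
  show Equiv.swap (i0, z) (i1, z) (Equiv.swap (i2, z) (i3, z') (i1, j)) = _
  rw [Equiv.swap_apply_of_ne_of_ne (pne h12) (pne h13),
    Equiv.swap_apply_of_ne_of_ne (pne' hj) (pne' hj)]

theorem dblr2 (j : Fin k) (hj : j ≠ z) : dbl i0 i1 i2 i3 z z' (i2, j) = (i2, j) := by
  show Equiv.swap (i0, z) (i1, z) (Equiv.swap (i2, z) (i3, z') (i2, j)) = _
  rw [Equiv.swap_apply_of_ne_of_ne (pne' hj) (pne h23),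
    Equiv.swap_apply_of_ne_of_ne (pne h02.symm) (pne h12.symm)]

theorem dblr3 (j : Fin k) (hj : j ≠ z') : dbl i0 i1 i2 i3 z z' (i3, j) = (i3, j) := by
  show Equiv.swap (i0, z) (i1, z) (Equiv.swap (i2, z) (i3, z') (i3, j)) = _
  rw [Equiv.swap_apply_of_ne_of_ne (pne h23.symm) (pne' hj),
    Equiv.swap_apply_of_ne_of_ne (pne h03.symm) (pne h13.symm)]

theorem dbl_blk2 (x : Fin b × Fin k → ℝ) (σ : Equiv.Perm (Fin b × Fin k)) (hσ : σ ∈ zeroSet x) :
    blk x (σ * dbl i0 i1 i2 i3 z z') i2 = x (σ (i3, z')) - x (σ (i2, z)) := by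
  unfold zeroSet at hσ
  simp only [Finset.mem_filter, Finset.mem_univ, true_and] at hσ
  have h := blk_mul x σ (dbl i0 i1 i2 i3 z z') i2 z
    (fun j hj => dblr2 h01 h02 h03 h12 h13 h23 j hj)
  rw [hσ, dbl2 h01 h02 h03 h12 h13 h23, zero_add] at h
  exact h

theorem dbl_mem (x : Fin b × Fin k → ℝ) (hx : Function.Injective x)
    (σ : Equiv.Perm (Fin b × Fin k)) (hσ : σ ∈ zeroSet x) :
    σ * dbl i0 i1 i2 i3 z z' ∈ twoSet x := by
  have b2 := dbl_blk2 (z := z) (z' := z') h01 h02 h03 h12 h13 h23 x σ hσ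
  unfold zeroSet at hσ
  unfold twoSet
  simp only [Finset.mem_filter, Finset.mem_univ, true_and] at hσ ⊢
  set τ := dbl i0 i1 i2 i3 z z' with hτ
  have b0 := blk_mul x σ τ i0 z (fun j hj => dblr0 h01 h02 h03 h12 h13 h23 j hj)
  have b1 := blk_mul x σ τ i1 z (fun j hj => dblr1 h01 h02 h03 h12 h13 h23 j hj)
  have b3 := blk_mul x σ τ i3 z' (fun j hj => dblr3 h01 h02 h03 h12 h13 h23 j hj)
  rw [hσ, hτ, dbl0 h01 h02 h03 h12 h13 h23, ← hτ] at b0
  rw [hσ, hτ, dbl1 h01 h02 h03 h12 h13 h23, ← hτ] at b1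
  rw [hσ, hτ, dbl3 h01 h02 h03 h12 h13 h23, ← hτ] at b3
  have d1 : x (σ (i0, z)) ≠ x (σ (i1, z)) := by
    intro h
    exact pne h01 (σ.injective (hx h))
  have d2 : x (σ (i2, z)) ≠ x (σ (i3, z')) := by
    intro h
    exact pne h23 (σ.injective (hx h))
  have e1 : ∃ i ∈ ({i0, i1} : Finset (Fin b)), blk x (σ * τ) i < 0 := by
    rcases lt_or_gt_of_ne d1 with h | h
    · exact ⟨i1, by simp, by rw [b1]; linarith⟩
    · exact ⟨i0, by simp, by rw [b0]; linarith⟩
  have e2 : ∃ i ∈ ({i2, i3} : Finset (Fin b)), blk x (σ * τ) i < 0 := by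
    rcases lt_or_gt_of_ne d2 with h | h
    · exact ⟨i3, by simp, by rw [b3]; linarith⟩
    · exact ⟨i2, by simp, by rw [b2]; linarith⟩
  obtain ⟨i, hi, hi'⟩ := e1
  obtain ⟨i', hi2, hi2'⟩ := e2
  have hne : i ≠ i' := by
    simp only [Finset.mem_insert, Finset.mem_singleton] at hi hi2
    rcases hi with rfl | rfl <;> rcases hi2 with rfl | rfl <;> assumption
  have hsub : ({i, i'} : Finset (Fin b)) ⊆ univ.filter (fun i => blk x (σ * τ) i < 0) := by
    intro y hy
    simp only [Finset.mem_insert, Finset.mem_singleton] at hy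
    simp only [Finset.mem_filter, Finset.mem_univ, true_and]
    rcases hy with rfl | rfl <;> assumption
  calc 2 = ({i, i'} : Finset (Fin b)).card := (Finset.card_pair hne).symm
    _ ≤ _ := Finset.card_le_card hsub

end

/-- In the equality case no arrangement has all block sums zero. -/
theorem zeroSet_empty (x : Fin b × Fin k → ℝ) (hx : Function.Injective x) (hb : 4 ≤ b)
    (hk : 2 ≤ k) (hle : (twoSet x).card ≤ (zeroSet x).card) : zeroSet x = ∅ := by
  classical
  let z : Fin k := ⟨0, by omega⟩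
  let z' : Fin k := ⟨1, by omega⟩
  let i0 : Fin b := ⟨0, by omega⟩
  let i1 : Fin b := ⟨1, by omega⟩
  let i2 : Fin b := ⟨2, by omega⟩
  let i3 : Fin b := ⟨3, by omega⟩
  have hzz : z' ≠ z := by simp [z, z']
  have h01 : i0 ≠ i1 := by simp [i0, i1]
  have h02 : i0 ≠ i2 := by simp [i0, i2]
  have h03 : i0 ≠ i3 := by simp [i0, i3]
  have h12 : i1 ≠ i2 := by simp [i1, i2]
  have h13 : i1 ≠ i3 := by simp [i1, i3]
  have h23 : i2 ≠ i3 := by simp [i2, i3]
  have key : ∀ w : Fin k, (zeroSet x).image (fun σ => σ * dbl i0 i1 i2 i3 z w) = twoSet x := by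
    intro w
    apply Finset.eq_of_subset_of_card_le
    · intro ρ hρ
      rw [Finset.mem_image] at hρ
      obtain ⟨σ, hσ, rfl⟩ := hρ
      exact dbl_mem h01 h02 h03 h12 h13 h23 x hx σ hσ
    · rw [Finset.card_image_of_injective _ (mul_left_injective _)]
      exact hle
  by_contra hne
  obtain ⟨σ, hσ⟩ := Finset.nonempty_iff_ne_empty.2 hne
  have h1 : σ * dbl i0 i1 i2 i3 z z ∈ (zeroSet x).image (fun σ => σ * dbl i0 i1 i2 i3 z z') := by
    rw [key z', ← key z, Finset.mem_image]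
    exact ⟨σ, hσ, rfl⟩
  rw [Finset.mem_image] at h1
  obtain ⟨σ', hσ', heq⟩ := h1
  have b1 := dbl_blk2 (z := z) (z' := z) h01 h02 h03 h12 h13 h23 x σ hσ
  have b2 := dbl_blk2 (z := z) (z' := z') h01 h02 h03 h12 h13 h23 x σ' hσ'
  rw [heq, b1] at b2
  have e1 : σ' (i3, z') = σ (i3, z) := by
    have := congrArg (fun ρ : Equiv.Perm (Fin b × Fin k) => ρ (i2, z)) heq
    simp only [Equiv.Perm.mul_apply] at this
    rw [dbl2 h01 h02 h03 h12 h13 h23, dbl2 h01 h02 h03 h12 h13 h23] at this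
    exact this
  have e2 : σ' (i2, z) = σ (i3, z') := by
    have := congrArg (fun ρ : Equiv.Perm (Fin b × Fin k) => ρ (i3, z')) heq
    simp only [Equiv.Perm.mul_apply] at this
    rw [dbl3 h01 h02 h03 h12 h13 h23, dblr3 h01 h02 h03 h12 h13 h23 z' hzz] at this
    exact this
  rw [e1, e2] at b2
  have h3 : x (σ (i2, z)) = x (σ (i3, z')) := by linarith
  exact pne h23 (σ.injective (hx h3))

/-- In the equality case every arrangement has exactly one negative block. -/
theorem one_neg (x : Fin b × Fin k → ℝ) (hx : Function.Injective x) (hb : 4 ≤ b) (hk : 2 ≤ k)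
    (hs : ∑ p, x p ≤ 0) (hle : b * (negFam x).card ≤ (b * k).choose k)
    (σ : Equiv.Perm (Fin b × Fin k)) : (univ.filter (fun i => blk x σ i < 0)).card = 1 := by
  have h0 := sum_neg_count x
  have hfpos : 0 < (b * k).choose k := Nat.choose_pos (by nlinarith)
  have hsum : (∑ σ : Equiv.Perm (Fin b × Fin k), (univ.filter (fun i => blk x σ i < 0)).card) ≤
      (b * k).factorial := by
    have h1 : (b * k).choose k * (∑ σ : Equiv.Perm (Fin b × Fin k),
        (univ.filter (fun i => blk x σ i < 0)).card) ≤ (b * k).choose k * (b * k).factorial := by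
      calc (b * k).choose k * (∑ σ : Equiv.Perm (Fin b × Fin k),
          (univ.filter (fun i => blk x σ i < 0)).card)
          = (∑ σ : Equiv.Perm (Fin b × Fin k),
          (univ.filter (fun i => blk x σ i < 0)).card) * (b * k).choose k := by ring
        _ = b * (negFam x).card * (b * k).factorial := h0
        _ ≤ (b * k).choose k * (b * k).factorial := Nat.mul_le_mul_right _ hle
    exact Nat.le_of_mul_le_mul_left h1 hfpos
  have h1 := Finset.sum_le_sum (fun σ (_ : σ ∈ (univ : Finset (Equiv.Perm (Fin b × Fin k)))) =>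
    one_add_le x hs σ)
  rw [Finset.sum_add_distrib, Finset.sum_add_distrib] at h1
  have h2 : ∑ σ : Equiv.Perm (Fin b × Fin k), (if σ ∈ twoSet x then 1 else 0) =
      (twoSet x).card := by
    simp
  have h3 : ∑ σ : Equiv.Perm (Fin b × Fin k), (if σ ∈ zeroSet x then 1 else 0) =
      (zeroSet x).card := by
    simp
  have h4 : ∑ σ : Equiv.Perm (Fin b × Fin k), 1 = (b * k).factorial := by
    rw [Finset.sum_const, Finset.card_univ, Fintype.card_perm]
    simp
  rw [h2, h3, h4] at h1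
  have hZ : zeroSet x = ∅ := zeroSet_empty x hx hb hk (by omega)
  have hge : ∀ σ ∈ (univ : Finset (Equiv.Perm (Fin b × Fin k))),
      1 ≤ (univ.filter (fun i => blk x σ i < 0)).card := by
    intro σ _
    have := one_add_le x hs σ
    rw [hZ] at this
    simp only [Finset.notMem_empty, if_false] at this
    omega
  have heq : ∑ σ : Equiv.Perm (Fin b × Fin k), 1 =
      ∑ σ : Equiv.Perm (Fin b × Fin k), (univ.filter (fun i => blk x σ i < 0)).card := by
    apply le_antisymm (Finset.sum_le_sum hge)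
    rw [h4]
    exact hsum
  exact ((Finset.sum_eq_sum_iff_of_le hge).1 heq σ (Finset.mem_univ σ)).symm

/-- Two disjoint `k`-sets are the images of two rows. -/
theorem exists_two_rows (i j : Fin b) (hij : i ≠ j) (T1 T2 : Finset (Fin b × Fin k))
    (h1 : T1.card = k) (h2 : T2.card = k) (hd : Disjoint T1 T2) :
    ∃ σ : Equiv.Perm (Fin b × Fin k),
      (row b k i).map σ.toEmbedding = T1 ∧ (row b k j).map σ.toEmbedding = T2 := by
  classical
  have hrd : Disjoint (row b k i) (row b k j) := by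
    rw [Finset.disjoint_left]
    intro p hp hp'
    unfold row at hp hp'
    rw [Finset.mem_map] at hp hp'
    obtain ⟨u, _, rfl⟩ := hp
    obtain ⟨v, _, hv⟩ := hp'
    exact hij (Prod.mk.inj hv).1.symm
  let e1 : {p // p ∈ row b k i} ≃ {p // p ∈ T1} := Finset.equivOfCardEq (by rw [card_row, h1])
  let e2 : {p // p ∈ row b k j} ≃ {p // p ∈ T2} := Finset.equivOfCardEq (by rw [card_row, h2])
  let e : {p // p ∈ row b k i ∪ row b k j} ≃ {p // p ∈ T1 ∪ T2} :=
    ((Equiv.Finset.union _ _ hrd).symm.trans (Equiv.sumCongr e1 e2)).trans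
      (Equiv.Finset.union _ _ hd)
  refine ⟨e.extendSubtype, ?_, ?_⟩
  · apply Finset.eq_of_subset_of_card_le
    · intro q hq
      rw [Finset.mem_map] at hq
      obtain ⟨p, hp, rfl⟩ := hq
      have hp' : p ∈ row b k i ∪ row b k j := Finset.mem_union_left _ hp
      show e.extendSubtype p ∈ T1
      rw [e.extendSubtype_apply_of_mem p hp']
      have : (⟨p, hp'⟩ : {p // p ∈ row b k i ∪ row b k j}) =
          Equiv.Finset.union _ _ hrd (Sum.inl ⟨p, hp⟩) := rfl
      rw [this]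
      simp only [e, Equiv.trans_apply, Equiv.symm_apply_apply, Equiv.sumCongr_apply, Sum.map_inl]
      exact (e1 ⟨p, hp⟩).2
    · rw [Finset.card_map, card_row, h1]
  · apply Finset.eq_of_subset_of_card_le
    · intro q hq
      rw [Finset.mem_map] at hq
      obtain ⟨p, hp, rfl⟩ := hq
      have hp' : p ∈ row b k i ∪ row b k j := Finset.mem_union_right _ hp
      show e.extendSubtype p ∈ T2
      rw [e.extendSubtype_apply_of_mem p hp']
      have : (⟨p, hp'⟩ : {p // p ∈ row b k i ∪ row b k j}) =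
          Equiv.Finset.union _ _ hrd (Sum.inr ⟨p, hp⟩) := rfl
      rw [this]
      simp only [e, Equiv.trans_apply, Equiv.symm_apply_apply, Equiv.sumCongr_apply, Sum.map_inr]
      exact (e2 ⟨p, hp⟩).2
    · rw [Finset.card_map, card_row, h2]

end

end Pool.Agent.Helper594_MMS
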