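import Pool.Agent.Helper594_MMS.Div

/-!
The partition argument with at least three blocks: the three-cycle in place of the double
transposition.
-/

namespace Pool.Agent.Helper594_MMS

open Finset

set_option linter.unusedSectionVars false

section

variable {b k : ℕ}

/-- A three-cycle through three different rows. -/
def cyc (i0 i1 i2 : Fin b) (z w : Fin k) : Equiv.Perm (Fin b × Fin k) :=
  Equiv.swap (i0, z) (i1, z) * Equiv.swap (i1, z) (i2, w)

section
variable {i0 i1 i2 : Fin b} {z w : Fin k} (h01 : i0 ≠ i1) (h02 : i0 ≠ i2) (h12 : i1 ≠ i2)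
include h01 h02 h12

theorem cyc0 : cyc i0 i1 i2 z w (i0, z) = (i1, z) := by
  show Equiv.swap (i0, z) (i1, z) (Equiv.swap (i1, z) (i2, w) (i0, z)) = _
  rw [Equiv.swap_apply_of_ne_of_ne (pne h01) (pne h02), Equiv.swap_apply_left]

theorem cyc1 : cyc i0 i1 i2 z w (i1, z) = (i2, w) := by
  show Equiv.swap (i0, z) (i1, z) (Equiv.swap (i1, z) (i2, w) (i1, z)) = _
  rw [Equiv.swap_apply_left, Equiv.swap_apply_of_ne_of_ne (pne h02.symm) (pne h12.symm)]

theorem cyc2 : cyc i0 i1 i2 z w (i2, w) = (i0, z) := by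
  show Equiv.swap (i0, z) (i1, z) (Equiv.swap (i1, z) (i2, w) (i2, w)) = _
  rw [Equiv.swap_apply_right, Equiv.swap_apply_right]

theorem cycr0 (j : Fin k) (hj : j ≠ z) : cyc i0 i1 i2 z w (i0, j) = (i0, j) := by
  show Equiv.swap (i0, z) (i1, z) (Equiv.swap (i1, z) (i2, w) (i0, j)) = _
  rw [Equiv.swap_apply_of_ne_of_ne (pne h01) (pne h02),
    Equiv.swap_apply_of_ne_of_ne (pne' hj) (pne' hj)]

theorem cycr1 (j : Fin k) (hj : j ≠ z) : cyc i0 i1 i2 z w (i1, j) = (i1, j) := by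
  show Equiv.swap (i0, z) (i1, z) (Equiv.swap (i1, z) (i2, w) (i1, j)) = _
  rw [Equiv.swap_apply_of_ne_of_ne (pne' hj) (pne h12),
    Equiv.swap_apply_of_ne_of_ne (pne' hj) (pne' hj)]

theorem cycr2 (j : Fin k) (hj : j ≠ w) : cyc i0 i1 i2 z w (i2, j) = (i2, j) := by
  show Equiv.swap (i0, z) (i1, z) (Equiv.swap (i1, z) (i2, w) (i2, j)) = _
  rw [Equiv.swap_apply_of_ne_of_ne (pne h12.symm) (pne' hj),
    Equiv.swap_apply_of_ne_of_ne (pne h02.symm) (pne h12.symm)]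

theorem B0 (x : Fin b × Fin k → ℝ) (σ : Equiv.Perm (Fin b × Fin k)) :
    blk x (σ * cyc i0 i1 i2 z w) i0 = blk x σ i0 + (x (σ (i1, z)) - x (σ (i0, z))) := by
  have h := blk_mul x σ (cyc i0 i1 i2 z w) i0 z (fun j hj => cycr0 h01 h02 h12 j hj)
  rwa [cyc0 h01 h02 h12] at h

theorem B1 (x : Fin b × Fin k → ℝ) (σ : Equiv.Perm (Fin b × Fin k)) :
    blk x (σ * cyc i0 i1 i2 z w) i1 = blk x σ i1 + (x (σ (i2, w)) - x (σ (i1, z))) := by
  have h := blk_mul x σ (cyc i0 i1 i2 z w) i1 z (fun j hj => cycr1 h01 h02 h12 j hj)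
  rwa [cyc1 h01 h02 h12] at h

theorem B2 (x : Fin b × Fin k → ℝ) (σ : Equiv.Perm (Fin b × Fin k)) :
    blk x (σ * cyc i0 i1 i2 z w) i2 = blk x σ i2 + (x (σ (i0, z)) - x (σ (i2, w))) := by
  have h := blk_mul x σ (cyc i0 i1 i2 z w) i2 w (fun j hj => cycr2 h01 h02 h12 j hj)
  rwa [cyc2 h01 h02 h12] at h

theorem B0' (x : Fin b × Fin k → ℝ) (σ : Equiv.Perm (Fin b × Fin k)) :
    blk x (σ * (cyc i0 i1 i2 z w)⁻¹) i0 = blk x σ i0 + (x (σ (i2, w)) - x (σ (i0, z))) := by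
  have h := blk_mul x σ (cyc i0 i1 i2 z w)⁻¹ i0 z (fun j hj => by
    rw [Equiv.Perm.inv_eq_iff_eq, cycr0 h01 h02 h12 j hj])
  have e : (cyc i0 i1 i2 z w)⁻¹ (i0, z) = (i2, w) := by
    rw [Equiv.Perm.inv_eq_iff_eq, cyc2 h01 h02 h12]
  rwa [e] at h

theorem B1' (x : Fin b × Fin k → ℝ) (σ : Equiv.Perm (Fin b × Fin k)) :
    blk x (σ * (cyc i0 i1 i2 z w)⁻¹) i1 = blk x σ i1 + (x (σ (i0, z)) - x (σ (i1, z))) := by
  have h := blk_mul x σ (cyc i0 i1 i2 z w)⁻¹ i1 z (fun j hj => by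
    rw [Equiv.Perm.inv_eq_iff_eq, cycr1 h01 h02 h12 j hj])
  have e : (cyc i0 i1 i2 z w)⁻¹ (i1, z) = (i0, z) := by
    rw [Equiv.Perm.inv_eq_iff_eq, cyc0 h01 h02 h12]
  rwa [e] at h

theorem B2' (x : Fin b × Fin k → ℝ) (σ : Equiv.Perm (Fin b × Fin k)) :
    blk x (σ * (cyc i0 i1 i2 z w)⁻¹) i2 = blk x σ i2 + (x (σ (i1, z)) - x (σ (i2, w))) := by
  have h := blk_mul x σ (cyc i0 i1 i2 z w)⁻¹ i2 w (fun j hj => by
    rw [Equiv.Perm.inv_eq_iff_eq, cycr2 h01 h02 h12 j hj])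
  have e : (cyc i0 i1 i2 z w)⁻¹ (i2, w) = (i1, z) := by
    rw [Equiv.Perm.inv_eq_iff_eq, cyc1 h01 h02 h12]
  rwa [e] at h

omit h01 h02 h12 in
theorem mem_two (x : Fin b × Fin k → ℝ) (ρ : Equiv.Perm (Fin b × Fin k)) (i j : Fin b)
    (hij : i ≠ j) (hi : blk x ρ i < 0) (hj : blk x ρ j < 0) : ρ ∈ twoSet x := by
  unfold twoSet
  simp only [Finset.mem_filter, Finset.mem_univ, true_and]
  have hsub : ({i, j} : Finset (Fin b)) ⊆ univ.filter (fun i => blk x ρ i < 0) := by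
    intro y hy
    simp only [Finset.mem_insert, Finset.mem_singleton] at hy
    simp only [Finset.mem_filter, Finset.mem_univ, true_and]
    rcases hy with rfl | rfl <;> assumption
  calc 2 = ({i, j} : Finset (Fin b)).card := (Finset.card_pair hij).symm
    _ ≤ _ := Finset.card_le_card hsub

theorem cyc_two (x : Fin b × Fin k → ℝ) (hx : Function.Injective x)
    (σ : Equiv.Perm (Fin b × Fin k)) (hσ : ∀ i, blk x σ i = 0) :
    σ * cyc i0 i1 i2 z w ∈ twoSet x ∨ σ * (cyc i0 i1 i2 z w)⁻¹ ∈ twoSet x := by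
  have b0 := B0 (z := z) (w := w) h01 h02 h12 x σ
  have b1 := B1 (z := z) (w := w) h01 h02 h12 x σ
  have b2 := B2 (z := z) (w := w) h01 h02 h12 x σ
  have b0' := B0' (z := z) (w := w) h01 h02 h12 x σ
  have b1' := B1' (z := z) (w := w) h01 h02 h12 x σ
  have b2' := B2' (z := z) (w := w) h01 h02 h12 x σ
  rw [hσ] at b0 b1 b2 b0' b1' b2'
  have dAB : x (σ (i0, z)) ≠ x (σ (i1, z)) := fun h => pne h01 (σ.injective (hx h))
  have dBC : x (σ (i1, z)) ≠ x (σ (i2, w)) := fun h => pne h12 (σ.injective (hx h))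
  have dAC : x (σ (i0, z)) ≠ x (σ (i2, w)) := fun h => pne h02 (σ.injective (hx h))
  rcases lt_or_gt_of_ne dAB with h1 | h1
  · rcases lt_or_gt_of_ne dBC with h2 | h2
    · exact Or.inr (mem_two x _ i1 i2 h12 (by linarith) (by linarith))
    · rcases lt_or_gt_of_ne dAC with h3 | h3
      · exact Or.inl (mem_two x _ i1 i2 h12 (by linarith) (by linarith))
      · exact Or.inr (mem_two x _ i0 i1 h01 (by linarith) (by linarith))
  · rcases lt_or_gt_of_ne dBC with h2 | h2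
    · rcases lt_or_gt_of_ne dAC with h3 | h3
      · exact Or.inl (mem_two x _ i0 i2 h02 (by linarith) (by linarith))
      · exact Or.inr (mem_two x _ i0 i2 h02 (by linarith) (by linarith))
    · exact Or.inl (mem_two x _ i0 i1 h01 (by linarith) (by linarith))

end

/-- The injection. -/
noncomputable def phi (x : Fin b × Fin k → ℝ) (τ σ : Equiv.Perm (Fin b × Fin k)) :
    Equiv.Perm (Fin b × Fin k) := by
  classical
  exact if σ * τ ∈ twoSet x then σ * τ else σ * τ⁻¹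

theorem phi_or (x : Fin b × Fin k → ℝ) (τ σ : Equiv.Perm (Fin b × Fin k)) :
    phi x τ σ = σ * τ ∨ phi x τ σ = σ * τ⁻¹ := by
  unfold phi
  split_ifs
  · exact Or.inl rfl
  · exact Or.inr rfl

theorem cyc_cube {i0 i1 i2 : Fin b} {z w : Fin k} (h01 : i0 ≠ i1) (h02 : i0 ≠ i2)
    (h12 : i1 ≠ i2) : cyc i0 i1 i2 z w * cyc i0 i1 i2 z w = (cyc i0 i1 i2 z w)⁻¹ := by
  rw [eq_inv_iff_mul_eq_one]
  ext1 p
  simp only [Equiv.Perm.mul_apply, Equiv.Perm.one_apply]
  by_cases h0 : p = (i0, z)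
  · rw [h0, cyc0 h01 h02 h12, cyc1 h01 h02 h12, cyc2 h01 h02 h12]
  by_cases h1 : p = (i1, z)
  · rw [h1, cyc1 h01 h02 h12, cyc2 h01 h02 h12, cyc0 h01 h02 h12]
  by_cases h2 : p = (i2, w)
  · rw [h2, cyc2 h01 h02 h12, cyc0 h01 h02 h12, cyc1 h01 h02 h12]
  have e : cyc i0 i1 i2 z w p = p := by
    show Equiv.swap (i0, z) (i1, z) (Equiv.swap (i1, z) (i2, w) p) = _
    rw [Equiv.swap_apply_of_ne_of_ne h1 h2, Equiv.swap_apply_of_ne_of_ne h0 h1]
  rw [e, e, e]

theorem phi_maps {i0 i1 i2 : Fin b} {z w : Fin k} (h01 : i0 ≠ i1) (h02 : i0 ≠ i2)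
    (h12 : i1 ≠ i2) (x : Fin b × Fin k → ℝ) (hx : Function.Injective x)
    (σ : Equiv.Perm (Fin b × Fin k)) (hσ : σ ∈ zeroSet x) :
    phi x (cyc i0 i1 i2 z w) σ ∈ twoSet x := by
  unfold zeroSet at hσ
  simp only [Finset.mem_filter, Finset.mem_univ, true_and] at hσ
  unfold phi
  split_ifs with h
  · exact h
  · exact (cyc_two h01 h02 h12 x hx σ hσ).resolve_left h

theorem no_two_zero {i0 i1 i2 : Fin b} {z w : Fin k} (h01 : i0 ≠ i1) (h02 : i0 ≠ i2)
    (h12 : i1 ≠ i2) (x : Fin b × Fin k → ℝ) (hx : Function.Injective x)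
    (σ : Equiv.Perm (Fin b × Fin k)) (hσ : σ ∈ zeroSet x)
    (hσ' : σ * (cyc i0 i1 i2 z w)⁻¹ ∈ zeroSet x) : False := by
  unfold zeroSet at hσ hσ'
  simp only [Finset.mem_filter, Finset.mem_univ, true_and] at hσ hσ'
  have h := B0' (z := z) (w := w) h01 h02 h12 x σ
  rw [hσ, hσ'] at h
  have h' : x (σ (i2, w)) = x (σ (i0, z)) := by linarith
  exact pne h02.symm (σ.injective (hx h'))

theorem phi_inj {i0 i1 i2 : Fin b} {z w : Fin k} (h01 : i0 ≠ i1) (h02 : i0 ≠ i2)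
    (h12 : i1 ≠ i2) (x : Fin b × Fin k → ℝ) (hx : Function.Injective x) :
    Set.InjOn (phi x (cyc i0 i1 i2 z w)) (zeroSet x : Set (Equiv.Perm (Fin b × Fin k))) := by
  intro σ hσ σ' hσ' hh
  rw [Finset.mem_coe] at hσ hσ'
  rcases phi_or x (cyc i0 i1 i2 z w) σ with h1 | h1 <;>
    rcases phi_or x (cyc i0 i1 i2 z w) σ' with h2 | h2 <;> rw [h1, h2] at hh
  · exact mul_right_cancel hh
  · exfalso
    have h3 : σ' = σ * (cyc i0 i1 i2 z w)⁻¹ := by
      rw [← cyc_cube h01 h02 h12, ← mul_assoc, hh, inv_mul_cancel_right]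
    rw [h3] at hσ'
    exact no_two_zero h01 h02 h12 x hx σ hσ hσ'
  · exfalso
    have h3 : σ = σ' * (cyc i0 i1 i2 z w)⁻¹ := by
      rw [← cyc_cube h01 h02 h12, ← mul_assoc, ← hh, inv_mul_cancel_right]
    rw [h3] at hσ
    exact no_two_zero h01 h02 h12 x hx σ' hσ' hσ
  · exact mul_right_cancel hh

theorem zero_le_two3 (x : Fin b × Fin k → ℝ) (hx : Function.Injective x) (hb : 3 ≤ b)
    (hk : 1 ≤ k) : (zeroSet x).card ≤ (twoSet x).card := by
  let z : Fin k := ⟨0, hk⟩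
  let i0 : Fin b := ⟨0, by omega⟩
  let i1 : Fin b := ⟨1, by omega⟩
  let i2 : Fin b := ⟨2, by omega⟩
  have h01 : i0 ≠ i1 := by simp [i0, i1]
  have h02 : i0 ≠ i2 := by simp [i0, i2]
  have h12 : i1 ≠ i2 := by simp [i1, i2]
  exact Finset.card_le_card_of_injOn (phi x (cyc i0 i1 i2 z z))
    (fun σ hσ => phi_maps h01 h02 h12 x hx σ hσ) (phi_inj h01 h02 h12 x hx)

theorem factorial_le3 (x : Fin b × Fin k → ℝ) (hx : Function.Injective x) (hb : 3 ≤ b)
    (hk : 1 ≤ k) (hs : ∑ p, x p ≤ 0) :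
    (b * k).factorial ≤
      ∑ σ : Equiv.Perm (Fin b × Fin k), (univ.filter (fun i => blk x σ i < 0)).card := by
  have h1 := Finset.sum_le_sum (fun σ (_ : σ ∈ (univ : Finset (Equiv.Perm (Fin b × Fin k)))) =>
    one_add_le x hs σ)
  rw [Finset.sum_add_distrib, Finset.sum_add_distrib] at h1
  have h2 : ∑ σ : Equiv.Perm (Fin b × Fin k), (if σ ∈ twoSet x then 1 else 0) =
      (twoSet x).card := by
    simp
  have h3 : ∑ σ : Equiv.Perm (Fin b × Fin k), (if σ ∈ zeroSet x then 1 else 0) =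
      (zeroSet x).card := by
    simp
  rw [h2, h3] at h1
  have h4 : ∑ σ : Equiv.Perm (Fin b × Fin k), 1 = (b * k).factorial := by
    rw [Finset.sum_const, Finset.card_univ, Fintype.card_perm]
    simp
  rw [h4] at h1
  have h5 := zero_le_two3 x hx hb hk
  omega

theorem choose_le_negFam3 (x : Fin b × Fin k → ℝ) (hx : Function.Injective x) (hb : 3 ≤ b)
    (hk : 1 ≤ k) (hs : ∑ p, x p ≤ 0) :
    (b * k).choose k ≤ b * (negFam x).card := by
  have h1 := sum_neg_count x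
  have h2 := factorial_le3 x hx hb hk hs
  have h3 : 0 < (b * k).factorial := Nat.factorial_pos _
  have h4 : (b * k).factorial * (b * k).choose k ≤ (b * k).factorial * (b * (negFam x).card) := by
    calc (b * k).factorial * (b * k).choose k
        ≤ (∑ σ : Equiv.Perm (Fin b × Fin k), (univ.filter (fun i => blk x σ i < 0)).card) *
          (b * k).choose k := Nat.mul_le_mul_right _ h2
      _ = _ := by rw [h1]; ring
  exact Nat.le_of_mul_le_mul_left h4 h3

theorem zeroSet_empty3 (x : Fin b × Fin k → ℝ) (hx : Function.Injective x) (hb : 3 ≤ b)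
    (hk : 2 ≤ k) (hle : (twoSet x).card ≤ (zeroSet x).card) : zeroSet x = ∅ := by
  classical
  let z : Fin k := ⟨0, by omega⟩
  let z' : Fin k := ⟨1, by omega⟩
  let i0 : Fin b := ⟨0, by omega⟩
  let i1 : Fin b := ⟨1, by omega⟩
  let i2 : Fin b := ⟨2, by omega⟩
  have hzz : z ≠ z' := by simp [z, z']
  have h01 : i0 ≠ i1 := by simp [i0, i1]
  have h02 : i0 ≠ i2 := by simp [i0, i2]
  have h12 : i1 ≠ i2 := by simp [i1, i2]
  have key : ∀ w : Fin k, (zeroSet x).image (phi x (cyc i0 i1 i2 z w)) = twoSet x := by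
    intro w
    apply Finset.eq_of_subset_of_card_le
    · intro ρ hρ
      rw [Finset.mem_image] at hρ
      obtain ⟨σ, hσ, rfl⟩ := hρ
      exact phi_maps h01 h02 h12 x hx σ hσ
    · rw [Finset.card_image_of_injOn (phi_inj h01 h02 h12 x hx)]
      exact hle
  by_contra hne
  obtain ⟨σ, hσ⟩ := Finset.nonempty_iff_ne_empty.2 hne
  have hρ : phi x (cyc i0 i1 i2 z z) σ ∈ twoSet x := phi_maps h01 h02 h12 x hx σ hσ
  set ρ := phi x (cyc i0 i1 i2 z z) σ with hρdef
  have hor : ∀ w : Fin k, (blk x ρ i0 + (x (ρ (i1, z)) - x (ρ (i0, z))) = 0 ∧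
      blk x ρ i1 + (x (ρ (i2, w)) - x (ρ (i1, z))) = 0) ∨
      (blk x ρ i0 + (x (ρ (i2, w)) - x (ρ (i0, z))) = 0) := by
    intro w
    have h1 := hρ
    rw [← key w, Finset.mem_image] at h1
    obtain ⟨σ', hσ', heq⟩ := h1
    unfold zeroSet at hσ'
    simp only [Finset.mem_filter, Finset.mem_univ, true_and] at hσ'
    rcases phi_or x (cyc i0 i1 i2 z w) σ' with h2 | h2
    · right
      have h3 : σ' = ρ * (cyc i0 i1 i2 z w)⁻¹ := by
        rw [← heq, h2, mul_inv_cancel_right]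
      rw [← B0' h01 h02 h12 x ρ, ← h3]
      exact hσ' i0
    · left
      have h3 : σ' = ρ * cyc i0 i1 i2 z w := by
        rw [← heq, h2, inv_mul_cancel_right]
      rw [← B0 (w := w) h01 h02 h12 x ρ, ← B1 h01 h02 h12 x ρ, ← h3]
      exact ⟨hσ' i0, hσ' i1⟩
  have f1 : x (ρ (i2, z)) ≠ x (ρ (i2, z')) := fun h => pne' hzz (ρ.injective (hx h))
  have f2 : x (ρ (i1, z)) ≠ x (ρ (i2, z')) := fun h => pne h12 (ρ.injective (hx h))
  have f3 : x (ρ (i1, z)) ≠ x (ρ (i2, z)) := fun h => pne h12 (ρ.injective (hx h))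
  rcases hor z with ⟨u1, u2⟩ | u1 <;> rcases hor z' with ⟨v1, v2⟩ | v1
  · exact f1 (by linarith)
  · exact f2 (by linarith)
  · exact f3 (by linarith)
  · exact f1 (by linarith)

/-- In the equality case every arrangement has exactly one negative block. -/
theorem one_neg3 (x : Fin b × Fin k → ℝ) (hx : Function.Injective x) (hb : 3 ≤ b) (hk : 2 ≤ k)
    (hs : ∑ p, x p ≤ 0) (hle : b * (negFam x).card ≤ (b * k).choose k)
    (σ : Equiv.Perm (Fin b × Fin k)) : (univ.filter (fun i => blk x σ i < 0)).card = 1 := by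
  have h0 := sum_neg_count x
  have hfpos : 0 < (b * k).choose k := Nat.choose_pos (by nlinarith)
  have hsum : (∑ σ : Equiv.Perm (Fin b × Fin k), (univ.filter (fun i => blk x σ i < 0)).card) ≤
      (b * k).factorial := by
    have h1 : (b * k).choose k * (∑ σ : Equiv.Perm (Fin b × Fin k),
        (univ.filter (fun i => blk x σ i < 0)).card) ≤ (b * k).choose k * (b * k).factorial := by
      calc (b * k).choose k * (∑ σ : Equiv.Perm (Fin b × Fin k),
          (univ.filter (fun i => blk x σ i < 0)).card)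
          = (∑ σ : Equiv.Perm (Fin b × Fin k),
          (univ.filter (fun i => blk x σ i < 0)).card) * (b * k).choose k := by ring
        _ = b * (negFam x).card * (b * k).factorial := h0
        _ ≤ (b * k).choose k * (b * k).factorial := Nat.mul_le_mul_right _ hle
    exact Nat.le_of_mul_le_mul_left h1 hfpos
  have h1 := Finset.sum_le_sum (fun σ (_ : σ ∈ (univ : Finset (Equiv.Perm (Fin b × Fin k)))) =>
    one_add_le x hs σ)
  rw [Finset.sum_add_distrib, Finset.sum_add_distrib] at h1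
  have h2 : ∑ σ : Equiv.Perm (Fin b × Fin k), (if σ ∈ twoSet x then 1 else 0) =
      (twoSet x).card := by
    simp
  have h3 : ∑ σ : Equiv.Perm (Fin b × Fin k), (if σ ∈ zeroSet x then 1 else 0) =
      (zeroSet x).card := by
    simp
  have h4 : ∑ σ : Equiv.Perm (Fin b × Fin k), 1 = (b * k).factorial := by
    rw [Finset.sum_const, Finset.card_univ, Fintype.card_perm]
    simp
  rw [h2, h3, h4] at h1
  have hZ : zeroSet x = ∅ := zeroSet_empty3 x hx hb hk (by omega)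
  have hge : ∀ σ ∈ (univ : Finset (Equiv.Perm (Fin b × Fin k))),
      1 ≤ (univ.filter (fun i => blk x σ i < 0)).card := by
    intro σ _
    have := one_add_le x hs σ
    rw [hZ] at this
    simp only [Finset.notMem_empty, if_false] at this
    omega
  have heq : ∑ σ : Equiv.Perm (Fin b × Fin k), 1 =
      ∑ σ : Equiv.Perm (Fin b × Fin k), (univ.filter (fun i => blk x σ i < 0)).card := by
    apply le_antisymm (Finset.sum_le_sum hge)
    rw [h4]
    exact hsum
  exact ((Finset.sum_eq_sum_iff_of_le hge).1 heq σ (Finset.mem_univ σ)).symm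

end

end Pool.Agent.Helper594_MMS
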