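import Pool.Agent.Helper594_MMS.Thr
import Pool.Agent.Helper594_MMS.Div3

/-!
Uniqueness when `k` divides the number of elements.
-/

namespace Pool.Agent.Helper594_MMS

open Finset

theorem map_swap_of_notMem {α : Type} [DecidableEq α] (a c : α) (T : Finset α) (ha : a ∉ T)
    (hc : c ∉ T) : T.map (Equiv.swap a c).toEmbedding = T := by
  ext y
  rw [Finset.mem_map]
  constructor
  · rintro ⟨z, hz, rfl⟩
    have h1 : z ≠ a := by
      rintro rfl
      exact ha hz
    have h2 : z ≠ c := by
      rintro rfl
      exact hc hz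
    show Equiv.swap a c z ∈ T
    rw [Equiv.swap_apply_of_ne_of_ne h1 h2]
    exact hz
  · intro hy
    have h1 : y ≠ a := by
      rintro rfl
      exact ha hy
    have h2 : y ≠ c := by
      rintro rfl
      exact hc hy
    exact ⟨y, hy, Equiv.swap_apply_of_ne_of_ne h1 h2⟩

theorem map_swap_insert {α : Type} [DecidableEq α] (a c : α) (P : Finset α) (ha : a ∉ P)
    (hc : c ∉ P) : (insert a P).map (Equiv.swap a c).toEmbedding = insert c P := by
  rw [Finset.map_insert, map_swap_of_notMem a c P ha hc]
  have : (Equiv.swap a c).toEmbedding a = c := Equiv.swap_apply_left a c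
  rw [this]

theorem choose_eq_mul (b k : ℕ) (hb : 1 ≤ b) (hk : 1 ≤ k) :
    (b * k).choose k = b * (b * k - 1).choose (k - 1) := by
  obtain ⟨k', rfl⟩ : ∃ k', k = k' + 1 := ⟨k - 1, by omega⟩
  obtain ⟨b', rfl⟩ : ∃ b', b = b' + 1 := ⟨b - 1, by omega⟩
  have h3 : (b' + 1) * (k' + 1) = ((b' + 1) * (k' + 1) - 1) + 1 := by
    have : 0 < (b' + 1) * (k' + 1) := by positivity
    omega
  have h4 := Nat.add_one_mul_choose_eq ((b' + 1) * (k' + 1) - 1) k'
  rw [← h3] at h4
  have h5 : (k' + 1) * ((b' + 1) * (k' + 1)).choose (k' + 1) =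
      (k' + 1) * ((b' + 1) * ((b' + 1) * (k' + 1) - 1).choose k') := by
    calc (k' + 1) * ((b' + 1) * (k' + 1)).choose (k' + 1)
        = ((b' + 1) * (k' + 1)).choose (k' + 1) * (k' + 1) := by ring
      _ = (b' + 1) * (k' + 1) * ((b' + 1) * (k' + 1) - 1).choose k' := h4.symm
      _ = _ := by ring
  exact Nat.eq_of_mul_eq_mul_left (by omega) h5

section

variable {b k : ℕ}

theorem disj_rows (i j : Fin b) (hij : i ≠ j) : Disjoint (row b k i) (row b k j) := by
  rw [Finset.disjoint_left]
  intro p hp hp'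
  unfold row at hp hp'
  rw [Finset.mem_map] at hp hp'
  obtain ⟨u, _, rfl⟩ := hp
  obtain ⟨v, _, hv⟩ := hp'
  exact hij (Prod.mk.inj hv).1.symm

theorem sum_ind_one (x : Fin b × Fin k → ℝ)
    (h1 : ∀ σ : Equiv.Perm (Fin b × Fin k), (univ.filter (fun i => blk x σ i < 0)).card = 1)
    (σ : Equiv.Perm (Fin b × Fin k)) :
    ∑ i : Fin b, ind (negFam x) ((row b k i).map σ.toEmbedding) = 1 := by
  have h := h1 σ
  rw [Finset.card_filter] at h
  have h2 : (((∑ i : Fin b, if blk x σ i < 0 then 1 else 0 : ℕ)) : ℤ) = 1 := by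
    rw [h]
    rfl
  rw [← h2]
  push_cast
  apply Finset.sum_congr rfl
  intro i _
  unfold ind
  by_cases h3 : blk x σ i < 0
  · rw [if_pos h3, if_pos ((mem_negFam_row x σ i).2 h3)]
  · rw [if_neg h3, if_neg (fun h4 => h3 ((mem_negFam_row x σ i).1 h4))]

theorem inter_of_one (x : Fin b × Fin k → ℝ) (hb : 3 ≤ b)
    (h1 : ∀ σ : Equiv.Perm (Fin b × Fin k), (univ.filter (fun i => blk x σ i < 0)).card = 1) :
    ∀ T1 ∈ negFam x, ∀ T2 ∈ negFam x, ¬ Disjoint T1 T2 := by
  intro T1 hT1 T2 hT2 hd
  have c1 : T1.card = k := by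
    unfold negFam at hT1
    rw [Finset.mem_filter, Finset.mem_powersetCard] at hT1
    exact hT1.1.2
  have c2 : T2.card = k := by
    unfold negFam at hT2
    rw [Finset.mem_filter, Finset.mem_powersetCard] at hT2
    exact hT2.1.2
  let i0 : Fin b := ⟨0, by omega⟩
  let i1 : Fin b := ⟨1, by omega⟩
  have h01 : i0 ≠ i1 := by simp [i0, i1]
  obtain ⟨σ, hσ1, hσ2⟩ := exists_two_rows i0 i1 h01 T1 T2 c1 c2 hd
  have n0 : blk x σ i0 < 0 := by
    rw [← mem_negFam_row, hσ1]
    exact hT1
  have n1 : blk x σ i1 < 0 := by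
    rw [← mem_negFam_row, hσ2]
    exact hT2
  have hsub : ({i0, i1} : Finset (Fin b)) ⊆ univ.filter (fun i => blk x σ i < 0) := by
    intro y hy
    simp only [Finset.mem_insert, Finset.mem_singleton] at hy
    simp only [Finset.mem_filter, Finset.mem_univ, true_and]
    rcases hy with rfl | rfl <;> assumption
  have h2 := Finset.card_le_card hsub
  rw [Finset.card_pair h01, h1 σ] at h2
  omega

theorem exch_of_one (x : Fin b × Fin k → ℝ) (hb : 3 ≤ b)
    (h1 : ∀ σ : Equiv.Perm (Fin b × Fin k), (univ.filter (fun i => blk x σ i < 0)).card = 1) :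
    ∀ (P Q : Finset (Fin b × Fin k)) (u v : Fin b × Fin k), P.card + 1 = k → Q.card + 1 = k →
      Disjoint P Q → u ≠ v → u ∉ P → v ∉ P → u ∉ Q → v ∉ Q →
      ind (negFam x) (insert u P) + ind (negFam x) (insert v Q) =
        ind (negFam x) (insert v P) + ind (negFam x) (insert u Q) := by
  intro P Q u v hP hQ hPQ huv huP hvP huQ hvQ
  let i0 : Fin b := ⟨0, by omega⟩
  let i1 : Fin b := ⟨1, by omega⟩
  have h01 : i0 ≠ i1 := by simp [i0, i1]
  have hd : Disjoint (insert u P) (insert v Q) := by
    rw [Finset.disjoint_insert_left, Finset.disjoint_insert_right, Finset.mem_insert]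
    push Not
    exact ⟨⟨huv, huQ⟩, hvP, hPQ⟩
  obtain ⟨σ, hσ1, hσ2⟩ := exists_two_rows i0 i1 h01 (insert u P) (insert v Q)
    (by rw [Finset.card_insert_of_notMem huP]; exact hP)
    (by rw [Finset.card_insert_of_notMem hvQ]; exact hQ) hd
  have hmm : ∀ i : Fin b, (row b k i).map (Equiv.swap u v * σ).toEmbedding =
      ((row b k i).map σ.toEmbedding).map (Equiv.swap u v).toEmbedding := by
    intro i
    rw [Finset.map_map]
    rfl
  have hs1 := sum_ind_one x h1 σ
  have hs2 := sum_ind_one x h1 (Equiv.swap u v * σ)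
  have hs3 : ∑ i : Fin b, (ind (negFam x) ((row b k i).map σ.toEmbedding) -
      ind (negFam x) ((row b k i).map (Equiv.swap u v * σ).toEmbedding)) = 0 := by
    rw [Finset.sum_sub_distrib, hs1, hs2]
    norm_num
  rw [Finset.sum_eq_add i0 i1 h01 ?_ (fun h => absurd (Finset.mem_univ _) h)
    (fun h => absurd (Finset.mem_univ _) h)] at hs3
  · rw [hmm, hmm, hσ1, hσ2, map_swap_insert u v P huP hvP] at hs3
    rw [Equiv.swap_comm u v, map_swap_insert v u Q hvQ huQ] at hs3
    linarith
  · intro i _ hi
    have hu : u ∉ (row b k i).map σ.toEmbedding := by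
      intro hh
      have h2 : u ∈ (row b k i0).map σ.toEmbedding := by
        rw [hσ1]
        exact Finset.mem_insert_self _ _
      have h3 := (Finset.disjoint_map σ.toEmbedding).2 (disj_rows (k := k) i i0 hi.1)
      exact (Finset.disjoint_left.1 h3) hh h2
    have hv : v ∉ (row b k i).map σ.toEmbedding := by
      intro hh
      have h2 : v ∈ (row b k i1).map σ.toEmbedding := by
        rw [hσ2]
        exact Finset.mem_insert_self _ _
      have h3 := (Finset.disjoint_map σ.toEmbedding).2 (disj_rows (k := k) i i1 hi.2)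
      exact (Finset.disjoint_left.1 h3) hh h2
    rw [hmm, map_swap_of_notMem u v _ hu hv, sub_self]

theorem star_of_card (x : Fin b × Fin k → ℝ) (hx : Function.Injective x) (hb : 3 ≤ b) (hk : 2 ≤ k)
    (hs : ∑ p, x p ≤ 0) (hle : b * (negFam x).card ≤ (b * k).choose k) :
    ∃ p0, (∀ p, x p0 ≤ x p) ∧
      ∀ T : Finset (Fin b × Fin k), T.card = k → p0 ∈ T → ∑ p ∈ T, x p < 0 := by
  classical
  have h1 := one_neg3 x hx hb hk hs hle
  have hne : (univ : Finset (Fin b × Fin k)).Nonempty := by
    exact ⟨(⟨0, by omega⟩, ⟨0, by omega⟩), Finset.mem_univ _⟩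
  obtain ⟨p0, _, hp0⟩ := Finset.exists_min_image univ x hne
  have hmin : ∀ p, x p0 ≤ x p := fun p => hp0 p (Finset.mem_univ p)
  have hcard : Fintype.card (Fin b × Fin k) = b * k := by simp
  have hstar := threshold k hk (by rw [hcard]; nlinarith) (negFam x) (by
      intro T hT
      unfold negFam at hT
      rw [Finset.mem_filter, Finset.mem_powersetCard] at hT
      exact hT.1.2) x p0 hmin (by
      intro P u v hP hu hv huv hT
      unfold negFam at hT ⊢
      rw [Finset.mem_filter, Finset.mem_powersetCard] at hT ⊢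
      refine ⟨⟨Finset.subset_univ _, ?_⟩, ?_⟩
      · rw [Finset.card_insert_of_notMem hu]
        exact hP
      · have h2 := hT.2
        rw [Finset.sum_insert hv] at h2
        rw [Finset.sum_insert hu]
        linarith) (inter_of_one x hb h1) (exch_of_one x hb h1)
  have hsub : negFam x ⊆ (powersetCard k (univ : Finset (Fin b × Fin k))).filter
      (fun T => p0 ∈ T) := by
    intro T hT
    have h2 := hstar T hT
    unfold negFam at hT
    rw [Finset.mem_filter] at hT ⊢
    exact ⟨hT.1, h2⟩
  have hc : ((powersetCard k (univ : Finset (Fin b × Fin k))).filter (fun T => p0 ∈ T)).card =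
      (b * k - 1).choose (k - 1) := by
    have h := Finset.card_filter_powersetCard_subset {p0} (univ : Finset (Fin b × Fin k)) k
      (Finset.singleton_subset_iff.2 (Finset.mem_univ p0)) (by rw [Finset.card_singleton]; omega)
    rw [Finset.card_singleton, Finset.card_univ, hcard] at h
    rw [← h]
    congr 1
    apply Finset.filter_congr
    intro T _
    rw [Finset.singleton_subset_iff]
  have hlow := choose_le_negFam3 x hx hb (by omega) hs
  rw [choose_eq_mul b k (by omega) (by omega)] at hlow
  have hlow' := Nat.le_of_mul_le_mul_left hlow (by omega)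
  have heq := Finset.eq_of_subset_of_card_le hsub (by rw [hc]; exact hlow')
  refine ⟨p0, hmin, ?_⟩
  intro T hT hpT
  have h2 : T ∈ negFam x := by
    rw [heq, Finset.mem_filter, Finset.mem_powersetCard]
    exact ⟨⟨Finset.subset_univ _, hT⟩, hpT⟩
  unfold negFam at h2
  rw [Finset.mem_filter] at h2
  exact h2.2

end

/-- The strict inequality for `n` a multiple of `k`, `n ≥ 3k`. -/
theorem strict_dvd3 (k n : ℕ) (hk : 1 ≤ k) (hd : k ∣ n) (hn : 3 * k ≤ n) : Strict k n := by
  classical
  obtain ⟨b, rfl⟩ := hd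
  have hb : 3 ≤ b := by
    by_contra hc
    have : b ≤ 2 := by omega
    nlinarith
  intro R hR hs
  have hR' : R.card = b * k := by rw [hR]; ring
  have hc : Fintype.card (Fin b × Fin k) = Fintype.card R := by
    simp [hR']
  let e : Fin b × Fin k ≃ R := Fintype.equivOfCardEq hc
  let f : Fin b × Fin k ↪ ℝ := e.toEmbedding.trans (Function.Embedding.subtype _)
  have hf : (univ : Finset (Fin b × Fin k)).map f = R := by
    ext y
    simp only [Finset.mem_map, Finset.mem_univ, true_and, f]
    constructor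
    · rintro ⟨p, rfl⟩
      exact (e p).2
    · intro hy
      refine ⟨e.symm ⟨y, hy⟩, ?_⟩
      simp
  have hsum : ∑ p, f p ≤ 0 := by
    rw [← hf, Finset.sum_map] at hs
    exact hs
  have h2 : (neg k R).card = (negFam (fun p => f p)).card := by
    unfold neg negFam
    rw [← hf, Finset.powersetCard_map, Finset.filter_map, Finset.card_map]
    congr 1
    apply Finset.filter_congr
    intro T _
    simp only [Function.comp]
    have : ((Finset.mapEmbedding f).toEmbedding T) = T.map f := rfl
    rw [this, Finset.sum_map]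
  have h1 := choose_le_negFam3 (fun p => f p) f.injective hb hk hsum
  rw [choose_eq_mul b k (by omega) hk, ← h2] at h1
  rw [mul_comm k b]
  exact Nat.le_of_mul_le_mul_left h1 (by omega)

/-- Uniqueness for `n` a multiple of `k`, `n ≥ 3k`. -/
theorem su_dvd (k n : ℕ) (hk : 1 ≤ k) (hd : k ∣ n) (hn : 3 * k ≤ n) : SU k n := by
  classical
  rcases Nat.lt_or_ge k 2 with hk2 | hk2
  · have : k = 1 := by omega
    subst this
    exact su_one n (by omega)
  obtain ⟨b, rfl⟩ := hd
  have hb : 3 ≤ b := by
    by_contra hc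
    have : b ≤ 2 := by omega
    nlinarith
  intro R hR hs hle
  have hR' : R.card = b * k := by rw [hR]; ring
  have hc : Fintype.card (Fin b × Fin k) = Fintype.card R := by
    simp [hR']
  let e : Fin b × Fin k ≃ R := Fintype.equivOfCardEq hc
  let f : Fin b × Fin k ↪ ℝ := e.toEmbedding.trans (Function.Embedding.subtype _)
  have hf : (univ : Finset (Fin b × Fin k)).map f = R := by
    ext y
    simp only [Finset.mem_map, Finset.mem_univ, true_and, f]
    constructor
    · rintro ⟨p, rfl⟩
      exact (e p).2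
    · intro hy
      refine ⟨e.symm ⟨y, hy⟩, ?_⟩
      simp
  have hsum : ∑ p, f p ≤ 0 := by
    rw [← hf, Finset.sum_map] at hs
    exact hs
  have h2 : (neg k R).card = (negFam (fun p => f p)).card := by
    unfold neg negFam
    rw [← hf, Finset.powersetCard_map, Finset.filter_map, Finset.card_map]
    congr 1
    apply Finset.filter_congr
    intro T _
    simp only [Function.comp]
    have : ((Finset.mapEmbedding f).toEmbedding T) = T.map f := rfl
    rw [this, Finset.sum_map]
  have hle' : b * (negFam (fun p => f p)).card ≤ (b * k).choose k := by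
    rw [choose_eq_mul b k (by omega) (by omega), ← h2]
    rw [mul_comm k b] at hle
    exact Nat.mul_le_mul_left b hle
  obtain ⟨p0, hmin, hall⟩ := star_of_card (fun p => f p) f.injective hb hk2 hsum hle'
  refine ⟨f p0, ?_, ?_, ?_⟩
  · rw [← hf, Finset.mem_map]
    exact ⟨p0, Finset.mem_univ _, rfl⟩
  · intro y hy
    rw [← hf, Finset.mem_map] at hy
    obtain ⟨p, _, rfl⟩ := hy
    exact hmin p
  · intro L hL hLc
    set S := (univ : Finset (Fin b × Fin k)).filter (fun p => f p ∈ L) with hS
    have hSL : S.map f = L := by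
      ext y
      rw [Finset.mem_map]
      constructor
      · rintro ⟨p, hp, rfl⟩
        rw [hS, Finset.mem_filter] at hp
        exact hp.2
      · intro hy
        have hyR : y ∈ R := Finset.mem_of_mem_erase (hL hy)
        rw [← hf, Finset.mem_map] at hyR
        obtain ⟨p, _, rfl⟩ := hyR
        exact ⟨p, by rw [hS, Finset.mem_filter]; exact ⟨Finset.mem_univ _, hy⟩, rfl⟩
    have hp0 : p0 ∉ S := by
      intro hh
      rw [hS, Finset.mem_filter] at hh
      exact (Finset.notMem_erase (f p0) R) (hL hh.2)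
    have hSc : S.card = k - 1 := by
      rw [← hLc, ← hSL, Finset.card_map]
    have h3 := hall (insert p0 S) (by rw [Finset.card_insert_of_notMem hp0, hSc]; omega)
      (Finset.mem_insert_self _ _)
    rw [Finset.sum_insert hp0] at h3
    rw [← hSL, Finset.sum_map]
    exact h3

end Pool.Agent.Helper594_MMS
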