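import Pool.Agent.Helper594_MMS.Count

/-!
The lower bound `C(n-1, k-1)` for the number of `k`-subsets with negative sum.
-/

namespace Pool.Agent.Helper594_MMS

open Finset

theorem real1 (i n B Q : ℝ) (hi : 0 ≤ i) (hn : 8 * (i * i) + 32 * i + 32 ≤ n) (hB : 0 < B)
    (h : (n - 2 * (i + 2) + 1 - (2 * i + 3) * (i + 1)) * B ≤ (n - 2 * (i + 2) + 1) * Q) :
    3 * B < 4 * Q := by
  have hii : 0 ≤ i * i := mul_self_nonneg i
  have hD : 4 * ((2 * i + 3) * (i + 1)) < n - 2 * (i + 2) + 1 := by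
    have : 4 * ((2 * i + 3) * (i + 1)) = 8 * (i * i) + 20 * i + 12 := by ring
    linarith
  have hDpos : 0 < n - 2 * (i + 2) + 1 := by linarith
  have h6 : 4 * ((2 * i + 3) * (i + 1)) * B < (n - 2 * (i + 2) + 1) * B :=
    mul_lt_mul_of_pos_right hD hB
  have h7 : (n - 2 * (i + 2) + 1) * (3 * B) < (n - 2 * (i + 2) + 1) * (4 * Q) := by
    have e1 : (n - 2 * (i + 2) + 1 - (2 * i + 3) * (i + 1)) * B =
        (n - 2 * (i + 2) + 1) * B - ((2 * i + 3) * (i + 1)) * B := by ring
    have e2 : (n - 2 * (i + 2) + 1) * (3 * B) = 3 * ((n - 2 * (i + 2) + 1) * B) := by ring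
    have e3 : (n - 2 * (i + 2) + 1) * (4 * Q) = 4 * ((n - 2 * (i + 2) + 1) * Q) := by ring
    have e4 : 4 * ((2 * i + 3) * (i + 1)) * B = 4 * (((2 * i + 3) * (i + 1)) * B) := by ring
    rw [e2, e3]
    rw [e1] at h
    rw [e4] at h6
    linarith
  exact lt_of_mul_lt_mul_left h7 hDpos.le

theorem real2 (i n B N : ℝ) (hi : 0 ≤ i) (hn : 8 * (i * i) + 32 * i + 32 ≤ n) (hB : 0 < B)
    (h : (n - (i + 2) + 1 - (i + 1) * (i + 1)) * B ≤ (n - (i + 2) + 1) * N) :
    7 * B ≤ 8 * N := by
  have hii : 0 ≤ i * i := mul_self_nonneg i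
  have hD : 8 * ((i + 1) * (i + 1)) ≤ n - (i + 2) + 1 := by
    have : 8 * ((i + 1) * (i + 1)) = 8 * (i * i) + 16 * i + 8 := by ring
    linarith
  have hDpos : 0 < n - (i + 2) + 1 := by linarith
  have h6 : 8 * ((i + 1) * (i + 1)) * B ≤ (n - (i + 2) + 1) * B :=
    mul_le_mul_of_nonneg_right hD hB.le
  have h7 : (n - (i + 2) + 1) * (7 * B) ≤ (n - (i + 2) + 1) * (8 * N) := by
    have e1 : (n - (i + 2) + 1 - (i + 1) * (i + 1)) * B =
        (n - (i + 2) + 1) * B - ((i + 1) * (i + 1)) * B := by ring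
    have e2 : (n - (i + 2) + 1) * (7 * B) = 7 * ((n - (i + 2) + 1) * B) := by ring
    have e3 : (n - (i + 2) + 1) * (8 * N) = 8 * ((n - (i + 2) + 1) * N) := by ring
    have e4 : 8 * ((i + 1) * (i + 1)) * B = 8 * (((i + 1) * (i + 1)) * B) := by ring
    rw [e2, e3]
    rw [e1] at h
    rw [e4] at h6
    linarith
  exact le_of_mul_le_mul_left h7 hDpos

theorem real3 (i n m B N Q g v u h : ℝ) (hi : 0 ≤ i) (hn : 8 * (i * i) + 32 * i + 32 ≤ n)
    (hm : m = n - (i + 2)) (hN : 0 < N) (hg : 0 ≤ g) (hv : 0 ≤ v)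
    (hQN : Q ≤ N) (hQu : Q ≤ u) (hQB : 3 * B < 4 * Q) (hNB : 7 * B ≤ 8 * N)
    (h1 : N ≤ 2 * g + i * v) (h2 : m ≤ 2 * h) (h3 : v * (h - (i + 1)) ≤ u * (i + 2)) :
    B < g + u := by
  have hii : 0 ≤ i * i := mul_self_nonneg i
  by_cases hc : N ≤ 3 * g
  · linarith
  · have hc' : 3 * g < N := not_le.1 hc
    have h5 : N < 3 * (i * v) := by linarith
    have h7 : v * (m - 2 * (i + 1)) ≤ 2 * (u * (i + 2)) := by
      have h71 : v * (m - 2 * (i + 1)) ≤ v * (2 * h - 2 * (i + 1)) :=
        mul_le_mul_of_nonneg_left (by linarith) hv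
      have h72 : v * (2 * h - 2 * (i + 1)) = 2 * (v * (h - (i + 1))) := by ring
      linarith
    have hmpos : 0 < m - 2 * (i + 1) := by
      rw [hm]
      linarith
    have h8 : N * (m - 2 * (i + 1)) < 3 * (i * v) * (m - 2 * (i + 1)) :=
      mul_lt_mul_of_pos_right h5 hmpos
    have h9 : i * (v * (m - 2 * (i + 1))) ≤ i * (2 * (u * (i + 2))) :=
      mul_le_mul_of_nonneg_left h7 hi
    have h10 : N * (m - 2 * (i + 1)) < 6 * (i * (i + 2)) * u := by
      have e1 : 3 * (i * v) * (m - 2 * (i + 1)) = 3 * (i * (v * (m - 2 * (i + 1)))) := by ring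
      have e2 : 6 * (i * (i + 2)) * u = 3 * (i * (2 * (u * (i + 2)))) := by ring
      rw [e1] at h8
      rw [e2]
      linarith
    by_contra hne
    have hu : u ≤ B := by
      linarith [not_lt.1 hne]
    have hu2 : 7 * u ≤ 8 * N := by linarith
    have hii2 : 0 ≤ 6 * (i * (i + 2)) := by positivity
    have h11 : 6 * (i * (i + 2)) * (7 * u) ≤ (6 * (i * (i + 2))) * (8 * N) :=
      mul_le_mul_of_nonneg_left hu2 hii2
    have h12 : N * (7 * (m - 2 * (i + 1))) < N * (48 * (i * (i + 2))) := by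
      have e1 : N * (7 * (m - 2 * (i + 1))) = 7 * (N * (m - 2 * (i + 1))) := by ring
      have e2 : N * (48 * (i * (i + 2))) = (6 * (i * (i + 2))) * (8 * N) := by ring
      have e3 : 6 * (i * (i + 2)) * (7 * u) = 7 * (6 * (i * (i + 2)) * u) := by ring
      rw [e1, e2]
      rw [e3] at h11
      linarith
    have h13 := lt_of_mul_lt_mul_left h12 hN.le
    rw [hm] at h13
    have e : 48 * (i * (i + 2)) = 48 * (i * i) + 96 * i := by ring
    rw [e] at h13
    linarith

/-- The arithmetic of the non-star case. -/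
theorem arith (n k j m : ℕ) (hk : 2 ≤ k) (hj : j = k - 1) (hn : 8 * k ^ 2 ≤ n) (hm : m = n - k)
    (g v u h : ℕ) (h1 : m.choose j ≤ 2 * g + (j - 1) * v) (h2 : m ≤ 2 * h)
    (h3 : v * (h - j) ≤ u * (j + 1)) (h4 : (m - k).choose j ≤ u) :
    (n - 1).choose j < g + u := by
  have hnk : 16 * k ≤ n := by nlinarith
  obtain ⟨i, rfl⟩ : ∃ i, k = i + 2 := ⟨k - 2, by omega⟩
  have hj' : j = i + 1 := by omega
  subst hj'
  have hnR : 8 * ((i : ℝ) * i) + 32 * i + 32 ≤ n := by
    have : 8 * (i * i) + 32 * i + 32 ≤ n := by nlinarith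
    exact_mod_cast this
  have hiR : (0 : ℝ) ≤ i := by positivity
  have hiiR : (0 : ℝ) ≤ (i : ℝ) * i := by positivity
  have hmR : (m : ℝ) = n - ((i : ℝ) + 2) := by
    have : n = m + (i + 2) := by omega
    have h' : (n : ℝ) = m + ((i : ℝ) + 2) := by exact_mod_cast this
    linarith
  have hpR : ((n - 1 : ℕ) : ℝ) = n - 1 := by
    have : n = (n - 1) + 1 := by omega
    have h' : (n : ℝ) = ((n - 1 : ℕ) : ℝ) + 1 := by exact_mod_cast this
    linarith
  have hBpos : (0 : ℝ) < (((n - 1).choose (i + 1) : ℕ) : ℝ) := by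
    exact_mod_cast Nat.choose_pos (by omega)
  have hNpos : (0 : ℝ) < ((m.choose (i + 1) : ℕ) : ℝ) := by
    exact_mod_cast Nat.choose_pos (by omega)
  have hQN : (((m - (i + 2)).choose (i + 1) : ℕ) : ℝ) ≤ ((m.choose (i + 1) : ℕ) : ℝ) := by
    exact_mod_cast Nat.choose_le_choose _ (by omega)
  have hQu : (((m - (i + 2)).choose (i + 1) : ℕ) : ℝ) ≤ u := by
    exact_mod_cast h4
  -- binomial comparison 1
  have hQB : (3 : ℝ) * (((n - 1).choose (i + 1) : ℕ) : ℝ) <
      4 * (((m - (i + 2)).choose (i + 1) : ℕ) : ℝ) := by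
    have e1 : ((2 * (i + 2) - 1 : ℕ) : ℝ) = 2 * (i : ℝ) + 3 := by
      have : (2 * (i + 2) - 1 : ℕ) = 2 * i + 3 := by omega
      rw [this]
      push_cast
      ring
    have hb := binom_bound (n - 1) (i + 1) (by omega) ((n : ℝ) - 2 * ((i : ℝ) + 2) + 1)
      (2 * (i + 2) - 1) (by omega) (by linarith)
      (by
        rw [e1, hpR]
        linarith)
    have e2 : n - 1 - (2 * (i + 2) - 1) = m - (i + 2) := by omega
    rw [e1, e2] at hb
    apply real1 i n _ _ hiR hnR hBpos
    push_cast at hb ⊢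
    exact hb
  -- binomial comparison 2
  have hNB : (7 : ℝ) * (((n - 1).choose (i + 1) : ℕ) : ℝ) ≤
      8 * ((m.choose (i + 1) : ℕ) : ℝ) := by
    have hb := binom_bound (n - 1) (i + 1) (by omega) ((n : ℝ) - ((i : ℝ) + 2) + 1)
      (i + 1) (by omega) (by linarith)
      (by
        rw [hpR]
        push_cast
        linarith)
    have e2 : n - 1 - (i + 1) = m := by omega
    rw [e2] at hb
    apply real2 i n _ _ hiR hnR hBpos
    push_cast at hb ⊢
    exact hb
  have h1R : ((m.choose (i + 1) : ℕ) : ℝ) ≤ 2 * (g : ℝ) + (i : ℝ) * v := by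
    have : m.choose (i + 1) ≤ 2 * g + i * v := by simpa using h1
    exact_mod_cast this
  have h2R : (m : ℝ) ≤ 2 * h := by exact_mod_cast h2
  have hhj : i + 1 ≤ h := by omega
  have h3R : (v : ℝ) * ((h : ℝ) - ((i : ℝ) + 1)) ≤ u * ((i : ℝ) + 2) := by
    have h6 : (((v * (h - (i + 1)) : ℕ)) : ℝ) ≤ ((u * (i + 1 + 1) : ℕ) : ℝ) := by
      exact_mod_cast h3
    rw [Nat.cast_mul, Nat.cast_sub hhj] at h6
    push_cast at h6
    linarith
  have hgoal := real3 i n m _ _ _ g v u h hiR hnR hmR hNpos (by positivity) (by positivity)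
    hQN hQu hQB hNB h1R h2R h3R
  have : (((n - 1).choose (i + 1) : ℕ) : ℝ) < ((g + u : ℕ) : ℝ) := by
    push_cast
    exact hgoal
  exact_mod_cast this

/-- The non-star case. -/
theorem caseB (A : Finset ℝ) (k : ℕ) (hk : 2 ≤ k) (hn : 8 * k ^ 2 ≤ A.card)
    (hs : ∑ y ∈ A, y = 0) (x : ℝ) (hx : x ∈ A) (hmin : ∀ y ∈ A, x ≤ y) (L : Finset ℝ)
    (hL : L ⊆ A.erase x) (hLc : L.card = k - 1) (hxL : 0 ≤ x + ∑ y ∈ L, y) :
    (A.card - 1).choose (k - 1) < (neg k A).card := by
  classical
  have hnk : 16 * k ≤ A.card := by nlinarith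
  -- the minimum is negative
  have hx0 : x < 0 := by
    by_contra hc
    have hnn : ∀ y ∈ A, 0 ≤ y := fun y hy => le_trans (not_lt.1 hc) (hmin y hy)
    have hz := (Finset.sum_eq_zero_iff_of_nonneg hnn).1 hs
    have hsub : A ⊆ {0} := by
      intro y hy
      rw [Finset.mem_singleton]
      exact hz y hy
    have := Finset.card_le_card hsub
    rw [Finset.card_singleton] at this
    omega
  set R : Finset ℝ := A.erase x \ L with hR
  have hRA : R ⊆ A := Finset.sdiff_subset.trans (Finset.erase_subset _ _)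
  have hxR : x ∉ R := by
    intro h
    rw [hR, Finset.mem_sdiff] at h
    exact Finset.notMem_erase x A h.1
  have hel : ∀ y ∈ R, -(-x) < y := by
    intro y hy
    rw [neg_neg]
    refine lt_of_le_of_ne (hmin y (hRA hy)) ?_
    rintro rfl
    exact hxR hy
  have hRc : R.card = A.card - k := by
    rw [hR, Finset.card_sdiff_of_subset hL, Finset.card_erase_of_mem hx, hLc]
    omega
  have hRs : ∑ y ∈ R, y ≤ 0 := by
    have h1 : ∑ y ∈ A.erase x \ L, y + ∑ y ∈ L, y = ∑ y ∈ A.erase x, y :=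
      Finset.sum_sdiff hL
    have h2 : ∑ y ∈ A.erase x, y + x = ∑ y ∈ A, y := Finset.sum_erase_add A (fun y => y) hx
    rw [← hR] at h1
    linarith
  have hM : 0 < -x := by linarith
  have h1 := lemM1 R (k - 1) (by omega) (-x) hM hel hRs
  have h2 := lemM2 R (-x) hM hel hRs
  have h3 := lemM3 R (k - 1) (-x)
  have h4 := neg_card_ge R k (by omega) (by omega) hRs
  rw [show k - 1 + 1 = k by omega] at h3
  have h5 : ((R.powersetCard (k - 1)).filter (fun T => ∑ y ∈ T, y < -x)).card + (neg k R).card ≤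
      (neg k A).card := by
    set G := (R.powersetCard (k - 1)).filter (fun T => ∑ y ∈ T, y < -x) with hG
    have hmem : ∀ T ∈ G, T ⊆ R ∧ T.card = k - 1 ∧ ∑ y ∈ T, y < -x := by
      intro T hT
      rw [hG, Finset.mem_filter, Finset.mem_powersetCard] at hT
      exact ⟨hT.1.1, hT.1.2, hT.2⟩
    have hinj : Set.InjOn (fun T : Finset ℝ => insert x T) (G : Set (Finset ℝ)) := by
      intro T hT T' hT' hh
      have hT1 : x ∉ T := fun h => hxR ((hmem T hT).1 h)
      have hT2 : x ∉ T' := fun h => hxR ((hmem T' hT').1 h)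
      have hh' : insert x T = insert x T' := hh
      calc T = (insert x T).erase x := (Finset.erase_insert hT1).symm
        _ = (insert x T').erase x := by rw [hh']
        _ = T' := Finset.erase_insert hT2
    rw [← Finset.card_image_of_injOn hinj, ← Finset.card_union_of_disjoint]
    · apply Finset.card_le_card
      intro U hU
      rw [Finset.mem_union] at hU
      rcases hU with hU | hU
      · rw [Finset.mem_image] at hU
        obtain ⟨T, hT, rfl⟩ := hU
        obtain ⟨hT1, hT2, hT3⟩ := hmem T hT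
        have hxT : x ∉ T := fun h => hxR (hT1 h)
        unfold neg
        rw [Finset.mem_filter, Finset.mem_powersetCard]
        refine ⟨⟨?_, ?_⟩, ?_⟩
        · exact Finset.insert_subset hx (hT1.trans hRA)
        · rw [Finset.card_insert_of_notMem hxT, hT2]
          omega
        · rw [Finset.sum_insert hxT]
          linarith
      · exact neg_mono hRA hU
    · rw [Finset.disjoint_left]
      intro U hU hU'
      rw [Finset.mem_image] at hU
      obtain ⟨T, hT, rfl⟩ := hU
      unfold neg at hU'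
      rw [Finset.mem_filter, Finset.mem_powersetCard] at hU'
      exact hxR (hU'.1.1 (Finset.mem_insert_self x T))
  have h6 := arith A.card k (k - 1) R.card hk rfl hn hRc _ _ _ _ h1 h2
    (by rw [show k - 1 + 1 = k by omega]; exact h3) h4
  omega

/-- The star case: all `k`-sets through `x` are negative. -/
theorem caseA (A : Finset ℝ) (k : ℕ) (hk : 1 ≤ k) (x : ℝ) (hx : x ∈ A)
    (hall : ∀ L ⊆ A.erase x, L.card = k - 1 → x + ∑ y ∈ L, y < 0) :
    (A.card - 1).choose (k - 1) ≤ (neg k A).card := by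
  classical
  have hinj : Set.InjOn (fun T : Finset ℝ => insert x T)
      (((A.erase x).powersetCard (k - 1) : Finset (Finset ℝ)) : Set (Finset ℝ)) := by
    intro T hT T' hT' hh
    rw [Finset.mem_coe, Finset.mem_powersetCard] at hT hT'
    have hT1 : x ∉ T := fun h => Finset.notMem_erase x A (hT.1 h)
    have hT2 : x ∉ T' := fun h => Finset.notMem_erase x A (hT'.1 h)
    have hh' : insert x T = insert x T' := hh
    calc T = (insert x T).erase x := (Finset.erase_insert hT1).symm
      _ = (insert x T').erase x := by rw [hh']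
      _ = T' := Finset.erase_insert hT2
  have hc : (A.card - 1).choose (k - 1) =
      (((A.erase x).powersetCard (k - 1)).image (fun T : Finset ℝ => insert x T)).card := by
    rw [Finset.card_image_of_injOn hinj, Finset.card_powersetCard, Finset.card_erase_of_mem hx]
  rw [hc]
  apply Finset.card_le_card
  intro U hU
  rw [Finset.mem_image] at hU
  obtain ⟨T, hT, rfl⟩ := hU
  rw [Finset.mem_powersetCard] at hT
  have hxT : x ∉ T := fun h => Finset.notMem_erase x A (hT.1 h)
  unfold neg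
  rw [Finset.mem_filter, Finset.mem_powersetCard]
  refine ⟨⟨?_, ?_⟩, ?_⟩
  · exact Finset.insert_subset hx (hT.1.trans (Finset.erase_subset _ _))
  · rw [Finset.card_insert_of_notMem hxT, hT.2]
    omega
  · rw [Finset.sum_insert hxT]
    exact hall T hT.1 hT.2

/-- The main inequality. -/
theorem neg_ge (A : Finset ℝ) (k : ℕ) (hk : 1 ≤ k)
    (hn : 8 * k ^ 2 ≤ A.card ∨ (k ∣ A.card ∧ 4 * k ≤ A.card)) (hs : ∑ y ∈ A, y = 0) :
    (A.card - 1).choose (k - 1) ≤ (neg k A).card := by
  have hdiv : k ∣ A.card → 4 * k ≤ A.card → (A.card - 1).choose (k - 1) ≤ (neg k A).card := by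
    rintro ⟨b, hb⟩ h4
    have hb4 : 4 ≤ b := by
      by_contra hc
      have : b ≤ 3 := by omega
      have h5 : k * b ≤ k * 3 := Nat.mul_le_mul_left k this
      omega
    have h1 := choose_le_neg A b k (by rw [hb]; ring) hb4 hk hs.le
    rw [hb, mul_comm k b]
    exact h1
  rcases hn with hn | ⟨hd, h4⟩
  · rcases Nat.lt_or_ge k 2 with hk2 | hk2
    · have : k = 1 := by omega
      subst this
      exact hdiv (one_dvd _) (by omega)
    · have hne : A.Nonempty := by
        rw [← Finset.card_pos]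
        nlinarith
      by_cases hall : ∀ L ⊆ A.erase (A.min' hne), L.card = k - 1 → A.min' hne + ∑ y ∈ L, y < 0
      · exact caseA A k hk _ (Finset.min'_mem A hne) hall
      · push Not at hall
        obtain ⟨L, hL, hLc, hxL⟩ := hall
        exact (caseB A k hk2 hn hs (A.min' hne) (Finset.min'_mem A hne)
          (fun y hy => Finset.min'_le A y hy) L hL hLc hxL).le
  · exact hdiv hd h4

end Pool.Agent.Helper594_MMS
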