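import Mathlib

/-!
Equidistribution of the image of a fixed finite set under a uniformly random permutation, and the
resulting strict form of the partition argument for zero-sum families (`k` divides the number of
elements).
-/

namespace Pool.Agent.Helper594_MMS

open Finset

section Perm

variable {α : Type*} [Fintype α] [DecidableEq α]

theorem exists_perm_map (B B' : Finset α) (h : B.card = B'.card) :
    ∃ τ : Equiv.Perm α, B.map τ.toEmbedding = B' := by
  classical
  let e : {x // x ∈ B} ≃ {x // x ∈ B'} := Finset.equivOfCardEq h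
  refine ⟨e.extendSubtype, ?_⟩
  apply Finset.eq_of_subset_of_card_le
  · intro y hy
    rw [Finset.mem_map] at hy
    obtain ⟨x, hx, rfl⟩ := hy
    exact e.extendSubtype_mem x hx
  · rw [Finset.card_map, h]

theorem fibre_card_le (S0 B B' : Finset α) (h : B.card = B'.card) :
    (univ.filter (fun σ : Equiv.Perm α => S0.map σ.toEmbedding = B)).card ≤
    (univ.filter (fun σ : Equiv.Perm α => S0.map σ.toEmbedding = B')).card := by
  obtain ⟨τ, hτ⟩ := exists_perm_map B B' h
  apply Finset.card_le_card_of_injOn (fun σ => τ * σ)
  · intro σ hσ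
    simp only [Finset.coe_filter, Finset.mem_univ, true_and, Set.mem_ofPred_eq] at hσ ⊢
    rw [← hτ, ← hσ, Finset.map_map]
    rfl
  · intro σ _ σ' _ hh
    exact mul_left_cancel hh

theorem fibre_card_eq (S0 B B' : Finset α) (h : B.card = B'.card) :
    (univ.filter (fun σ : Equiv.Perm α => S0.map σ.toEmbedding = B)).card =
    (univ.filter (fun σ : Equiv.Perm α => S0.map σ.toEmbedding = B')).card :=
  le_antisymm (fibre_card_le S0 B B' h) (fibre_card_le S0 B' B h.symm)

theorem perm_count_aux (S0 : Finset α) (F : Finset (Finset α)) (hF : ∀ B ∈ F, B.card = S0.card) :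
    (univ.filter (fun σ : Equiv.Perm α => S0.map σ.toEmbedding ∈ F)).card =
      F.card * (univ.filter (fun σ : Equiv.Perm α => S0.map σ.toEmbedding = S0)).card := by
  have h1 := Finset.card_eq_sum_card_fiberwise
    (s := univ.filter (fun σ : Equiv.Perm α => S0.map σ.toEmbedding ∈ F))
    (t := F) (f := fun σ : Equiv.Perm α => S0.map σ.toEmbedding)
    (by
      intro σ hσ
      simpa using hσ)
  rw [h1, Finset.card_eq_sum_ones, Finset.sum_mul]
  apply Finset.sum_congr rfl
  intro B hB
  rw [one_mul, ← fibre_card_eq S0 B S0 (hF B hB), Finset.filter_filter]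
  congr 1
  ext σ
  simp only [Finset.mem_filter, Finset.mem_univ, true_and]
  constructor
  · rintro ⟨_, h⟩
    exact h
  · intro h
    exact ⟨h ▸ hB, h⟩

theorem perm_count (S0 : Finset α) (F : Finset (Finset α)) (hF : ∀ B ∈ F, B.card = S0.card) :
    (univ.filter (fun σ : Equiv.Perm α => S0.map σ.toEmbedding ∈ F)).card *
      (Fintype.card α).choose S0.card = F.card * (Fintype.card α).factorial := by
  have h1 := perm_count_aux S0 F hF
  have h2 := perm_count_aux S0 (powersetCard S0.card univ)
    (fun B hB => (Finset.mem_powersetCard.1 hB).2)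
  have h3 : (univ.filter (fun σ : Equiv.Perm α =>
      S0.map σ.toEmbedding ∈ powersetCard S0.card univ)) = univ := by
    apply Finset.filter_true_of_mem
    intro σ _
    rw [Finset.mem_powersetCard]
    exact ⟨Finset.subset_univ _, Finset.card_map _⟩
  rw [h3, Finset.card_univ, Fintype.card_perm, Finset.card_powersetCard, Finset.card_univ] at h2
  rw [h1, h2]
  ring

end Perm

section Block

variable {b k : ℕ}

/-- The `i`-th block sum of the arrangement `σ` of the numbers `x`. -/
noncomputable def blk (x : Fin b × Fin k → ℝ) (σ : Equiv.Perm (Fin b × Fin k)) (i : Fin b) : ℝ :=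
  ∑ j : Fin k, x (σ (i, j))

theorem sum_blk (x : Fin b × Fin k → ℝ) (σ : Equiv.Perm (Fin b × Fin k)) :
    ∑ i, blk x σ i = ∑ p, x p := by
  unfold blk
  rw [← Fintype.sum_prod_type' (f := fun i j => x (σ (i, j)))]
  exact Equiv.sum_comp σ x

/-- The block of indices `(i, ·)`. -/
def row (b k : ℕ) (i : Fin b) : Finset (Fin b × Fin k) :=
  (univ : Finset (Fin k)).map ⟨fun j => (i, j), fun _ _ h => (Prod.mk.inj h).2⟩

theorem card_row (i : Fin b) : (row b k i).card = k := by
  simp [row]

theorem sum_row (x : Fin b × Fin k → ℝ) (σ : Equiv.Perm (Fin b × Fin k)) (i : Fin b) :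
    ∑ p ∈ (row b k i).map σ.toEmbedding, x p = blk x σ i := by
  unfold row blk
  rw [Finset.sum_map, Finset.sum_map]
  rfl

/-- The family of the `k`-sets of indices with negative sum. -/
noncomputable def negFam (x : Fin b × Fin k → ℝ) : Finset (Finset (Fin b × Fin k)) :=
  (powersetCard k univ).filter (fun T => ∑ p ∈ T, x p < 0)

theorem mem_negFam_row (x : Fin b × Fin k → ℝ) (σ : Equiv.Perm (Fin b × Fin k)) (i : Fin b) :
    (row b k i).map σ.toEmbedding ∈ negFam x ↔ blk x σ i < 0 := by
  unfold negFam
  rw [Finset.mem_filter, Finset.mem_powersetCard, sum_row, Finset.card_map, card_row]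
  simp

theorem sum_neg_count (x : Fin b × Fin k → ℝ) :
    (∑ σ : Equiv.Perm (Fin b × Fin k), (univ.filter (fun i => blk x σ i < 0)).card) *
      (b * k).choose k = b * (negFam x).card * (b * k).factorial := by
  have h1 : (∑ σ : Equiv.Perm (Fin b × Fin k), (univ.filter (fun i => blk x σ i < 0)).card)
      = ∑ i : Fin b, (univ.filter (fun σ : Equiv.Perm (Fin b × Fin k) => blk x σ i < 0)).card := by
    simp only [Finset.card_filter]
    rw [Finset.sum_comm]
  rw [h1, Finset.sum_mul]
  have h2 : ∀ i : Fin b,
      (univ.filter (fun σ : Equiv.Perm (Fin b × Fin k) => blk x σ i < 0)).card *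
        (b * k).choose k = (negFam x).card * (b * k).factorial := by
    intro i
    have h3 := perm_count (row b k i) (negFam x) (by
      intro B hB
      unfold negFam at hB
      rw [Finset.mem_filter, Finset.mem_powersetCard] at hB
      rw [hB.1.2, card_row])
    have h4 : Fintype.card (Fin b × Fin k) = b * k := by simp
    rw [h4, card_row] at h3
    rw [← h3]
    congr 2
    ext σ
    simp only [Finset.mem_filter, Finset.mem_univ, true_and]
    rw [mem_negFam_row]
  rw [Finset.sum_congr rfl (fun i _ => h2 i)]
  simp
  ring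

end Block

end Pool.Agent.Helper594_MMS
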