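import Pool.Agent.Helper594_MMS.Base_2_9
import Pool.Agent.Helper594_MMS.Base_3_13
import Pool.Agent.Helper594_MMS.Base_3_14
import Pool.Agent.Helper594_MMS.Base_4_17
import Pool.Agent.Helper594_MMS.Base_4_18
import Pool.Agent.Helper594_MMS.Base_4_19

/-!
All `n ≥ 4k` for `k ≤ 4`.
-/

namespace Pool.Agent.Helper594_MMS

open Finset

theorem strict_of_dvd (k n : ℕ) (hk : 1 ≤ k) (hd : k ∣ n) (hn : 4 * k ≤ n) : Strict k n := by
  intro A hA hs
  obtain ⟨b, rfl⟩ := hd
  have hb4 : 4 ≤ b := by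
    by_contra hc
    have : b ≤ 3 := by omega
    have h5 : k * b ≤ k * 3 := Nat.mul_le_mul_left k this
    omega
  have h1 := choose_le_neg A b k (by rw [hA]; ring) hb4 hk hs
  rw [mul_comm k b]
  exact h1

theorem strict_iter (k n : ℕ) (hk : 1 ≤ k) (hkn : k ≤ n) (h : Strict k n) :
    ∀ q : ℕ, Strict k (n + q * k) := by
  intro q
  induction q with
  | zero => simpa using h
  | succ q ih =>
    have e : n + (q + 1) * k = n + q * k + k := by ring
    rw [e]
    exact strict_add k _ hk (by omega) ih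

theorem strict_small (k n : ℕ) (hk : 1 ≤ k) (hk4 : k ≤ 4) (hn : 4 * k ≤ n) : Strict k n := by
  by_cases hd : k ∣ n
  · exact strict_of_dvd k n hk hd hn
  · have hcase : k = 1 ∨ k = 2 ∨ k = 3 ∨ k = 4 := by omega
    rcases hcase with rfl | rfl | rfl | rfl
    · exact absurd (one_dvd n) hd
    · have h1 : ∃ q, n = 9 + q * 2 := ⟨(n - 9) / 2, by omega⟩
      obtain ⟨q, rfl⟩ := h1
      exact strict_iter 2 9 (by omega) (by omega) (strict_of_baseI 2 8 base_2_9) q
    · have h1 : (∃ q, n = 13 + q * 3) ∨ (∃ q, n = 14 + q * 3) := by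
        have h2 : n % 3 = 1 ∨ n % 3 = 2 := by omega
        rcases h2 with h2 | h2
        · exact Or.inl ⟨(n - 13) / 3, by omega⟩
        · exact Or.inr ⟨(n - 14) / 3, by omega⟩
      rcases h1 with ⟨q, rfl⟩ | ⟨q, rfl⟩
      · exact strict_iter 3 13 (by omega) (by omega) (strict_of_baseI 3 12 base_3_13) q
      · exact strict_iter 3 14 (by omega) (by omega) (strict_of_baseI 3 13 base_3_14) q
    · have h1 : (∃ q, n = 17 + q * 4) ∨ (∃ q, n = 18 + q * 4) ∨ (∃ q, n = 19 + q * 4) := by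
        have h2 : n % 4 = 1 ∨ n % 4 = 2 ∨ n % 4 = 3 := by omega
        rcases h2 with h2 | h2 | h2
        · exact Or.inl ⟨(n - 17) / 4, by omega⟩
        · exact Or.inr (Or.inl ⟨(n - 18) / 4, by omega⟩)
        · exact Or.inr (Or.inr ⟨(n - 19) / 4, by omega⟩)
      rcases h1 with ⟨q, rfl⟩ | ⟨q, rfl⟩ | ⟨q, rfl⟩
      · exact strict_iter 4 17 (by omega) (by omega) (strict_of_baseI 4 16 base_4_17) q
      · exact strict_iter 4 18 (by omega) (by omega) (strict_of_baseI 4 17 base_4_18) q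
      · exact strict_iter 4 19 (by omega) (by omega) (strict_of_baseI 4 18 base_4_19) q

end Pool.Agent.Helper594_MMS
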