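import Pool.Agent.Helper594_MMS.Chain

/-!
The inference rules used in the generated base cases, the transfer from index sets to sets of reals,
and the passage from `n` to `n + k`.
-/

namespace Pool.Agent.Helper594_MMS

open Finset

/-- `T` is a list of `k` indices below `n` with negative `f`-sum. -/
def NF (f : ℕ → ℝ) (k n : ℕ) (T : List ℕ) : Prop :=
  T.length = k ∧ (∀ t ∈ T, t < n) ∧ ls f T < 0

/-- well-formedness check. -/
def wf (k n : ℕ) (T : List ℕ) : Bool := Nat.beq T.length k && T.all (fun t => Nat.blt t n)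

theorem wf_spec {k n : ℕ} {T : List ℕ} (h : wf k n T = true) : T.length = k ∧ ∀ t ∈ T, t < n := by
  unfold wf at h
  rw [Bool.and_eq_true] at h
  refine ⟨Nat.eq_of_beq_eq_true h.1, ?_⟩
  intro t ht
  exact Nat.le_of_ble_eq_true (List.all_eq_true.1 h.2 t ht)

theorem nQ {f : ℕ → ℝ} {k n : ℕ} : ∀ T ∈ ([] : List (List ℕ)), NF f k n T := by
  intro T hT
  exact absurd hT (List.not_mem_nil)

theorem cQ {f : ℕ → ℝ} {k n : ℕ} {T : List ℕ} {Q : List (List ℕ)} (h : NF f k n T)
    (hQ : ∀ T ∈ Q, NF f k n T) : ∀ T' ∈ T :: Q, NF f k n T' := by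
  intro T' hT'
  rw [List.mem_cons] at hT'
  rcases hT' with rfl | hT'
  · exact h
  · exact hQ T' hT'

theorem nP {f : ℕ → ℝ} : ∀ q ∈ ([] : List (ℕ × List ℕ)), 0 ≤ ls f q.2 := by
  intro T hT
  exact absurd hT (List.not_mem_nil)

theorem cP {f : ℕ → ℝ} {m : ℕ} {T : List ℕ} {L : List (ℕ × List ℕ)} (h : 0 ≤ ls f T)
    (hL : ∀ q ∈ L, 0 ≤ ls f q.2) : ∀ q ∈ (m, T) :: L, 0 ≤ ls f q.2 := by
  intro q hq
  rw [List.mem_cons] at hq
  rcases hq with rfl | hq
  · exact h
  · exact hL q hq

theorem cstep (f : ℕ → ℝ) (k n target : ℕ) (hf : ∀ i j, i ≤ j → j < n → f i ≤ f j)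
    (hbad : (negI f 0 k n).card < target) (Q : List (List ℕ)) (hQ : ∀ T ∈ Q, NF f k n T)
    (hc : Nat.ble target (cnt k n Q) = true) : False := by
  have h1 := cnt_le f n hf n k Q 0 (le_refl n) (by
    intro T hT
    obtain ⟨a, b, c⟩ := hQ T hT
    exact ⟨a, b, by rw [zero_add]; exact c⟩)
  have h2 := Nat.le_of_ble_eq_true hc
  omega

theorem pstep (f : ℕ → ℝ) (k n target : ℕ) (hf : ∀ i j, i ≤ j → j < n → f i ≤ f j)
    (hbad : (negI f 0 k n).card < target) (T : List ℕ) (Q : List (List ℕ))
    (hQ : ∀ T ∈ Q, NF f k n T) (hw : wf k n T = true)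
    (hc : Nat.ble target (cnt k n (T :: Q)) = true) : 0 ≤ ls f T := by
  by_contra hne
  obtain ⟨h1, h2⟩ := wf_spec hw
  exact cstep f k n target hf hbad (T :: Q) (cQ ⟨h1, h2, not_le.1 hne⟩ hQ) hc

theorem wls_nonneg (f : ℕ → ℝ) (L : List (ℕ × List ℕ)) (hL : ∀ q ∈ L, 0 ≤ ls f q.2) :
    0 ≤ wls f L := by
  induction L with
  | nil => simp [wls]
  | cons q L ih =>
    rw [wls]
    have h1 := ih (fun q hq => hL q (List.mem_cons_of_mem _ hq))
    have h2 := hL q List.mem_cons_self
    positivity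

theorem qstep (f : ℕ → ℝ) (k p : ℕ) (hf : ∀ j < p, f j < f (j + 1))
    (hs : ∑ i ∈ range (p + 1), f i ≤ 0) (T : List ℕ) (m : ℕ) (L : List (ℕ × List ℕ))
    (hL : ∀ q ∈ L, 0 ≤ ls f q.2) (hw : wf k (p + 1) T = true)
    (hc : chk p ((m, T) :: L) = true) : NF f k (p + 1) T := by
  obtain ⟨h1, h2⟩ := wf_spec hw
  refine ⟨h1, h2, ?_⟩
  have h3 := farkas f p hf hs _ hc
  have h4 := wls_nonneg f L hL
  simp only [wls] at h3
  by_contra hne
  have : 0 ≤ (m : ℝ) * ls f T := mul_nonneg (by positivity) (not_lt.1 hne)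
  linarith

theorem fstep (f : ℕ → ℝ) (p : ℕ) (hf : ∀ j < p, f j < f (j + 1))
    (hs : ∑ i ∈ range (p + 1), f i ≤ 0) (L : List (ℕ × List ℕ))
    (hL : ∀ q ∈ L, 0 ≤ ls f q.2) (hc : chk p L = true) : False := by
  have h3 := farkas f p hf hs _ hc
  have h4 := wls_nonneg f L hL
  linarith

/-- The statement for index sets. -/
def BaseI (k p : ℕ) : Prop :=
  ∀ f : ℕ → ℝ, (∀ j < p, f j < f (j + 1)) → ∑ i ∈ range (p + 1), f i ≤ 0 →
    p.choose (k - 1) ≤ (negI f 0 k (p + 1)).card

theorem mono_of_step (f : ℕ → ℝ) (p : ℕ) (hf : ∀ j < p, f j < f (j + 1)) :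
    ∀ i j, i ≤ j → j < p + 1 → f i ≤ f j := by
  intro i j hij
  induction j, hij using Nat.le_induction with
  | base => intro _; exact le_refl _
  | succ j hij ih =>
    intro hj
    exact le_trans (ih (by omega)) (hf j (by omega)).le

/-- The statement for sets of reals. -/
def Strict (k n : ℕ) : Prop :=
  ∀ A : Finset ℝ, A.card = n → ∑ y ∈ A, y ≤ 0 → (n - 1).choose (k - 1) ≤ (neg k A).card

theorem strict_of_baseI (k p : ℕ) (h : BaseI k p) : Strict k (p + 1) := by
  classical
  intro A hA hs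
  let e := A.orderEmbOfFin hA
  let f : ℕ → ℝ := fun i => if h : i < p + 1 then e ⟨i, h⟩ else 0
  have fe : ∀ (i : ℕ) (hi : i < p + 1), f i = e ⟨i, hi⟩ := by
    intro i hi
    simp only [f]
    rw [dif_pos hi]
  have hmono : ∀ j < p, f j < f (j + 1) := by
    intro j hj
    rw [fe j (by omega), fe (j + 1) (by omega)]
    apply e.strictMono
    rw [Fin.mk_lt_mk]
    omega
  have hinj : Set.InjOn f (range (p + 1) : Set ℕ) := by
    intro i hi j hj hij
    rw [Finset.mem_coe, Finset.mem_range] at hi hj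
    rw [fe i hi, fe j hj] at hij
    have := e.injective hij
    exact (Fin.mk.inj_iff.1 this)
  have himg : (range (p + 1)).image f = A := by
    ext y
    rw [Finset.mem_image]
    constructor
    · rintro ⟨i, hi, rfl⟩
      rw [Finset.mem_range] at hi
      rw [fe i hi]
      exact Finset.orderEmbOfFin_mem A hA _
    · intro hy
      have h1 : y ∈ Set.range e := by
        rw [Finset.range_orderEmbOfFin]
        exact hy
      obtain ⟨i, rfl⟩ := h1
      exact ⟨i.1, Finset.mem_range.2 i.2, fe i.1 i.2⟩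
  have hsum : ∑ i ∈ range (p + 1), f i ≤ 0 := by
    rw [← himg, Finset.sum_image hinj] at hs
    exact hs
  have h1 := h f hmono hsum
  rw [Nat.add_sub_cancel]
  refine le_trans h1 ?_
  apply Finset.card_le_card_of_injOn (fun S => S.image f)
  · intro S hS
    unfold negI at hS
    rw [Finset.mem_coe, Finset.mem_filter, Finset.mem_powersetCard, zero_add] at hS
    obtain ⟨⟨h2, h3⟩, h4⟩ := hS
    have hinjS : Set.InjOn f (S : Set ℕ) := hinj.mono (by exact_mod_cast h2)
    unfold neg
    rw [Finset.mem_coe, Finset.mem_filter, Finset.mem_powersetCard]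
    refine ⟨⟨?_, ?_⟩, ?_⟩
    · rw [← himg]
      exact Finset.image_subset_image h2
    · rw [Finset.card_image_of_injOn hinjS, h3]
    · rw [Finset.sum_image hinjS]
      exact h4
  · intro S hS S' hS' hh
    unfold negI at hS hS'
    rw [Finset.mem_coe, Finset.mem_filter, Finset.mem_powersetCard] at hS hS'
    have hh' : S.image f = S'.image f := hh
    have hS2 : (S : Set ℕ) ⊆ (range (p + 1) : Set ℕ) := by exact_mod_cast hS.1.1
    have hS2' : (S' : Set ℕ) ⊆ (range (p + 1) : Set ℕ) := by exact_mod_cast hS'.1.1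
    have h5 : f '' (S : Set ℕ) = f '' (S' : Set ℕ) := by
      rw [← Finset.coe_image, ← Finset.coe_image, hh']
    have h6 := (hinj.image_eq_image_iff hS2 hS2').1 h5
    exact_mod_cast h6

/-- From `n` to `n + k`. -/
theorem strict_add (k n : ℕ) (hk : 1 ≤ k) (hkn : k ≤ n) (h : Strict k n) : Strict k (n + k) := by
  classical
  intro A hA hs
  set P := (A.powersetCard k).filter (fun B => 0 ≤ ∑ b ∈ B, b) with hP
  have htot : P.card + (neg k A).card = (n + k).choose k := by
    unfold neg
    rw [← hA, ← Finset.card_powersetCard k A, hP,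
      ← Finset.card_filter_add_card_filter_not (s := A.powersetCard k)
        (fun B => 0 ≤ ∑ b ∈ B, b)]
    congr 2
    apply Finset.filter_congr
    intro B _
    exact not_le.symm
  -- double counting of disjoint pairs
  have hdc : P.card * (n - 1).choose (k - 1) ≤ (neg k A).card * n.choose k := by
    apply Finset.card_mul_le_card_mul (fun S T : Finset ℝ => Disjoint S T)
    · intro S hS
      rw [hP, Finset.mem_filter, Finset.mem_powersetCard] at hS
      obtain ⟨⟨h1, h2⟩, h3⟩ := hS
      have hc : (A \ S).card = n := by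
        rw [Finset.card_sdiff_of_subset h1, hA, h2]
        omega
      have hsum : ∑ y ∈ A \ S, y ≤ 0 := by
        have := Finset.sum_sdiff h1 (f := fun y : ℝ => y)
        linarith
      refine le_trans (h (A \ S) hc hsum) ?_
      apply Finset.card_le_card
      intro T hT
      rw [Finset.mem_bipartiteAbove]
      refine ⟨neg_mono Finset.sdiff_subset hT, ?_⟩
      unfold neg at hT
      rw [Finset.mem_filter, Finset.mem_powersetCard] at hT
      exact Finset.disjoint_of_subset_right hT.1.1 Finset.disjoint_sdiff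
    · intro T hT
      unfold neg at hT
      rw [Finset.mem_filter, Finset.mem_powersetCard] at hT
      obtain ⟨⟨h1, h2⟩, _⟩ := hT
      have hc : (A \ T).card = n := by
        rw [Finset.card_sdiff_of_subset h1, hA, h2]
        omega
      have h4 : (P.bipartiteBelow (fun S T : Finset ℝ => Disjoint S T) T) ⊆
          (A \ T).powersetCard k := by
        intro S hS
        rw [Finset.mem_bipartiteBelow, hP, Finset.mem_filter, Finset.mem_powersetCard] at hS
        rw [Finset.mem_powersetCard]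
        refine ⟨?_, hS.1.1.2⟩
        intro y hy
        rw [Finset.mem_sdiff]
        exact ⟨hS.1.1.1 hy, fun hyT => (Finset.disjoint_left.1 hS.2 hy) hyT⟩
      refine le_trans (Finset.card_le_card h4) ?_
      rw [Finset.card_powersetCard, hc]
  obtain ⟨j, rfl⟩ : ∃ j, k = j + 1 := ⟨k - 1, by omega⟩
  obtain ⟨p, rfl⟩ : ∃ p, n = p + 1 := ⟨n - 1, by omega⟩
  have e1 := Nat.add_one_mul_choose_eq p j
  have e2 := Nat.add_one_mul_choose_eq (p + 1 + j) j
  have r1 : (p + 1 + (j + 1) - 1) = p + 1 + j := by omega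
  rw [r1]
  simp only [Nat.add_sub_cancel] at hdc ⊢
  have r2 : p + 1 + (j + 1) = p + 1 + j + 1 := by omega
  rw [r2] at htot
  set N := (neg (j + 1) A).card with hN
  set a := p.choose j with ha
  set b := (p + 1).choose (j + 1) with hb
  set c := (p + 1 + j).choose j with hc
  set d := (p + 1 + j + 1).choose (j + 1) with hd
  -- e1 : (p+1) * a = b * (j+1);  e2 : (p+1+j+1) * c = d * (j+1)
  have hbpos : 0 < b := Nat.choose_pos (by omega)
  -- (p+1) * N * b ≥ (p+1) * P * a = P * b * (j+1)
  have h5 : P.card * (j + 1) ≤ N * (p + 1) := by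
    have h6 : b * (P.card * (j + 1)) ≤ b * (N * (p + 1)) := by
      calc b * (P.card * (j + 1)) = P.card * (b * (j + 1)) := by ring
        _ = P.card * ((p + 1) * a) := by rw [e1]
        _ = (p + 1) * (P.card * a) := by ring
        _ ≤ (p + 1) * (N * b) := Nat.mul_le_mul_left _ hdc
        _ = b * (N * (p + 1)) := by ring
    exact Nat.le_of_mul_le_mul_left h6 hbpos
  have h7 : (p + 1 + j + 1) * c ≤ (p + 1 + j + 1) * N := by
    rw [e2, ← htot]
    nlinarith
  exact Nat.le_of_mul_le_mul_left h7 (by omega)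

end Pool.Agent.Helper594_MMS
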