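import Pool.Agent.Helper594_MMS.Div

/-!
The threshold argument: an intersecting down-closed family of `k`-sets with the exchange property is
contained in the star of the least point.
-/

namespace Pool.Agent.Helper594_MMS

open Finset

set_option linter.unusedSectionVars false

section

variable {α : Type} [Fintype α] [DecidableEq α]

/-- indicator -/
def ind (N : Finset (Finset α)) (T : Finset α) : ℤ := if T ∈ N then 1 else 0

theorem ind_nonneg (N : Finset (Finset α)) (T : Finset α) : 0 ≤ ind N T := by
  unfold ind
  split_ifs <;> norm_num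

theorem ind_le_one (N : Finset (Finset α)) (T : Finset α) : ind N T ≤ 1 := by
  unfold ind
  split_ifs <;> norm_num

theorem ind_eq_one {N : Finset (Finset α)} {T : Finset α} : ind N T = 1 ↔ T ∈ N := by
  unfold ind
  split_ifs with h <;> simp [h]

theorem exists_avoid (V : Finset α) (m : ℕ) (h : V.card + m ≤ Fintype.card α) :
    ∃ R : Finset α, R.card = m ∧ Disjoint R V := by
  have h1 : m ≤ (univ \ V).card := by
    have := Finset.le_card_sdiff V univ
    rw [Finset.card_univ] at this
    omega
  obtain ⟨R, hR, hRc⟩ := Finset.exists_subset_card_eq h1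
  refine ⟨R, hRc, ?_⟩
  exact Finset.disjoint_of_subset_left hR Finset.sdiff_disjoint

theorem connect (N : Finset (Finset α)) (k : ℕ) (q : α)
    (h : ∀ a b, a ≠ q → b ≠ q → ∀ P : Finset α, P.card + 1 = k → a ∉ P → b ∉ P →
      ind N (insert a P) = ind N (insert b P)) :
    ∀ (d : ℕ) (T T' : Finset α), (T \ T').card = d → T.card = k → T'.card = k → q ∉ T → q ∉ T' →
      ind N T = ind N T' := by
  intro d
  induction d with
  | zero =>
    intro T T' hd hT hT' _ _
    have h1 : T ⊆ T' := by
      rw [← Finset.sdiff_eq_empty_iff_subset]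
      exact Finset.card_eq_zero.1 hd
    have h2 : T = T' := Finset.eq_of_subset_of_card_le h1 (by omega)
    rw [h2]
  | succ d ih =>
    intro T T' hd hT hT' hq hq'
    have hne : (T \ T').Nonempty := by
      rw [← Finset.card_pos]
      omega
    obtain ⟨a, ha⟩ := hne
    have hne' : (T' \ T).Nonempty := by
      rw [← Finset.card_pos]
      have := Finset.card_sdiff_add_card_inter T T'
      have h2 := Finset.card_sdiff_add_card_inter T' T
      rw [Finset.inter_comm] at h2
      omega
    obtain ⟨c, hc⟩ := hne'
    rw [Finset.mem_sdiff] at ha hc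
    have haq : a ≠ q := by
      rintro rfl
      exact hq ha.1
    have hcq : c ≠ q := by
      rintro rfl
      exact hq' hc.1
    have hcT : c ∉ T.erase a := fun h' => hc.2 (Finset.mem_of_mem_erase h')
    have h1 := h a c haq hcq (T.erase a)
      (by rw [Finset.card_erase_of_mem ha.1]; have := Finset.card_pos.2 ⟨a, ha.1⟩; omega)
      (Finset.notMem_erase a T) hcT
    rw [Finset.insert_erase ha.1] at h1
    rw [h1]
    apply ih
    · have e : insert c (T.erase a) \ T' = (T \ T').erase a := by
        ext y
        simp only [Finset.mem_sdiff, Finset.mem_insert, Finset.mem_erase]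
        constructor
        · rintro ⟨h2 | h2, h3⟩
          · exact absurd (h2 ▸ hc.1) h3
          · exact ⟨h2.1, h2.2, h3⟩
        · rintro ⟨h2, h3, h4⟩
          exact ⟨Or.inr ⟨h2, h3⟩, h4⟩
      rw [e, Finset.card_erase_of_mem (Finset.mem_sdiff.2 ha), hd]
      omega
    · rw [Finset.card_insert_of_notMem hcT, Finset.card_erase_of_mem ha.1]
      have := Finset.card_pos.2 ⟨a, ha.1⟩
      omega
    · exact hT'
    · rw [Finset.mem_insert]
      push Not
      exact ⟨fun h' => hcq h'.symm, fun h' => hq (Finset.mem_of_mem_erase h')⟩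
    · exact hq'

theorem threshold (k : ℕ) (hk : 2 ≤ k) (hα : 3 * k ≤ Fintype.card α)
    (N : Finset (Finset α)) (hN : ∀ T ∈ N, T.card = k) (x : α → ℝ) (p0 : α)
    (hmin : ∀ p, x p0 ≤ x p)
    (down : ∀ (P : Finset α) (a b : α), P.card + 1 = k → a ∉ P → b ∉ P → x a ≤ x b →
      insert b P ∈ N → insert a P ∈ N)
    (inter : ∀ T1 ∈ N, ∀ T2 ∈ N, ¬ Disjoint T1 T2)
    (exch : ∀ (P Q : Finset α) (a b : α), P.card + 1 = k → Q.card + 1 = k → Disjoint P Q → a ≠ b →
      a ∉ P → b ∉ P → a ∉ Q → b ∉ Q →
      ind N (insert a P) + ind N (insert b Q) = ind N (insert b P) + ind N (insert a Q)) :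
    ∀ T ∈ N, p0 ∈ T := by
  -- constancy of differences
  have cst : ∀ (P Q : Finset α) (a b : α), P.card + 1 = k → Q.card + 1 = k → a ≠ b →
      a ∉ P → b ∉ P → a ∉ Q → b ∉ Q →
      ind N (insert a P) - ind N (insert b P) = ind N (insert a Q) - ind N (insert b Q) := by
    intro P Q a b hP hQ hab h1 h2 h3 h4
    have hc : (insert a (insert b (P ∪ Q))).card + (k - 1) ≤ Fintype.card α := by
      have e1 := Finset.card_insert_le a (insert b (P ∪ Q))
      have e2 := Finset.card_insert_le b (P ∪ Q)
      have e3 := Finset.card_union_le P Q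
      omega
    obtain ⟨R, hRc, hR⟩ := exists_avoid _ _ hc
    have ha : a ∉ R := fun h' => (Finset.disjoint_left.1 hR h') (Finset.mem_insert_self _ _)
    have hb : b ∉ R := fun h' => (Finset.disjoint_left.1 hR h')
      (Finset.mem_insert_of_mem (Finset.mem_insert_self _ _))
    have hPR : Disjoint P R := by
      rw [Finset.disjoint_left]
      intro y hy hy'
      exact (Finset.disjoint_left.1 hR hy')
        (Finset.mem_insert_of_mem (Finset.mem_insert_of_mem (Finset.mem_union_left _ hy)))
    have hQR : Disjoint Q R := by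
      rw [Finset.disjoint_left]
      intro y hy hy'
      exact (Finset.disjoint_left.1 hR hy')
        (Finset.mem_insert_of_mem (Finset.mem_insert_of_mem (Finset.mem_union_right _ hy)))
    have g1 := exch P R a b hP (by omega) hPR hab h1 h2 ha hb
    have g2 := exch Q R a b hQ (by omega) hQR hab h3 h4 ha hb
    linarith
  -- two disjoint k-sets avoiding a point
  have two : ∀ q : α, ∃ T1 T2 : Finset α, T1.card = k ∧ T2.card = k ∧ Disjoint T1 T2 ∧
      q ∉ T1 ∧ q ∉ T2 := by
    intro q
    obtain ⟨T1, h1, h1'⟩ := exists_avoid ({q} : Finset α) k (by rw [Finset.card_singleton]; omega)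
    obtain ⟨T2, h2, h2'⟩ := exists_avoid (insert q T1) k (by
      have := Finset.card_insert_le q T1
      omega)
    refine ⟨T1, T2, h1, h2, ?_, ?_, ?_⟩
    · rw [Finset.disjoint_left]
      intro y hy hy'
      exact (Finset.disjoint_left.1 h2' hy') (Finset.mem_insert_of_mem hy)
    · intro h
      exact (Finset.disjoint_left.1 h1' h) (Finset.mem_singleton_self q)
    · intro h
      exact (Finset.disjoint_left.1 h2' h) (Finset.mem_insert_self _ _)
  -- if all differences away from `q` vanish, no set avoiding `q` is in `N`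
  have fin : ∀ q : α, (∀ a b, a ≠ q → b ≠ q → ∀ P : Finset α, P.card + 1 = k → a ∉ P → b ∉ P →
      ind N (insert a P) = ind N (insert b P)) → ∀ T : Finset α, T.card = k → q ∉ T → T ∉ N := by
    intro q hq T hT hqT hTN
    obtain ⟨T1, T2, h1, h2, h3, h4, h5⟩ := two q
    have e1 := connect N k q hq _ T T1 rfl hT h1 hqT h4
    have e2 := connect N k q hq _ T T2 rfl hT h2 hqT h5
    have e0 : ind N T = 1 := ind_eq_one.2 hTN
    rw [e0] at e1 e2
    exact inter T1 (ind_eq_one.1 e1.symm) T2 (ind_eq_one.1 e2.symm) h3
  -- Claim A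
  have claimA : ∀ a b, a ≠ p0 → b ≠ p0 → x a ≤ x b → ∀ P : Finset α, P.card + 1 = k →
      a ∉ P → b ∉ P → ind N (insert a P) = ind N (insert b P) := by
    intro a b ha hb hab P hP haP hbP
    by_contra hne
    have hab' : a ≠ b := by
      rintro rfl
      exact hne rfl
    -- the difference is one
    have hd1 : ind N (insert a P) - ind N (insert b P) = 1 := by
      have h1 := ind_nonneg N (insert a P)
      have h2 := ind_le_one N (insert a P)
      have h3 := ind_nonneg N (insert b P)
      have h4 := ind_le_one N (insert b P)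
      by_cases hbN : insert b P ∈ N
      · have := down P a b hP haP hbP hab hbN
        exact absurd (by rw [ind_eq_one.2 this, ind_eq_one.2 hbN]) hne
      · have h5 : ind N (insert b P) = 0 := by
          unfold ind
          rw [if_neg hbN]
        rw [h5] at hne ⊢
        omega
    -- Q avoids p0, a, b
    have D : ∀ Q : Finset α, Q.card + 1 = k → a ∉ Q → b ∉ Q →
        ind N (insert a Q) - ind N (insert b Q) = 1 := by
      intro Q hQ h1 h2
      rw [← hd1]
      exact cst Q P a b hQ hP hab' h1 h2 haP hbP
    obtain ⟨Q0, hQ0c, hQ0⟩ := exists_avoid ({p0, a, b} : Finset α) (k - 1) (by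
      have := Finset.card_le_three (a := p0) (b := a) (c := b)
      omega)
    have hp0Q : p0 ∉ Q0 := fun h' => (Finset.disjoint_left.1 hQ0 h') (by simp)
    have haQ : a ∉ Q0 := fun h' => (Finset.disjoint_left.1 hQ0 h') (by simp)
    have hbQ : b ∉ Q0 := fun h' => (Finset.disjoint_left.1 hQ0 h') (by simp)
    have hpa : ∀ c, ∀ Q : Finset α, Q.card + 1 = k → p0 ∉ Q → c ∉ Q →
        ind N (insert c Q) ≤ ind N (insert p0 Q) := by
      intro c Q hQ h1 h2
      by_cases hcN : insert c Q ∈ N
      · have := down Q p0 c hQ h1 h2 (hmin c) hcN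
        rw [ind_eq_one.2 this, ind_eq_one.2 hcN]
      · have h5 : ind N (insert c Q) = 0 := by
          unfold ind
          rw [if_neg hcN]
        rw [h5]
        exact ind_nonneg _ _
    have hval : ind N (insert p0 Q0) = 1 ∧ ind N (insert a Q0) = 1 ∧ ind N (insert b Q0) = 0 := by
      have h1 := D Q0 (by omega) haQ hbQ
      have h2 := hpa a Q0 (by omega) hp0Q haQ
      have h3 := ind_le_one N (insert p0 Q0)
      have h4 := ind_le_one N (insert a Q0)
      have h5 := ind_nonneg N (insert b Q0)
      refine ⟨?_, ?_, ?_⟩ <;> linarith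
    have Dp0a : ∀ Q : Finset α, Q.card + 1 = k → p0 ∉ Q → a ∉ Q →
        ind N (insert p0 Q) = ind N (insert a Q) := by
      intro Q hQ h1 h2
      have := cst Q Q0 p0 a hQ (by omega) ha.symm h1 h2 hp0Q haQ
      rw [hval.1, hval.2.1] at this
      linarith
    have Dp0b : ∀ Q : Finset α, Q.card + 1 = k → p0 ∉ Q → b ∉ Q →
        ind N (insert p0 Q) - ind N (insert b Q) = 1 := by
      intro Q hQ h1 h2
      have := cst Q Q0 p0 b hQ (by omega) hb.symm h1 h2 hp0Q hbQ
      rw [hval.1, hval.2.2] at this
      linarith
    -- all other points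
    have Dp0c : ∀ c, c ≠ b → ∀ Q : Finset α, Q.card + 1 = k → p0 ∉ Q → c ∉ Q →
        ind N (insert p0 Q) = ind N (insert c Q) := by
      intro c hcb Q hQ h1 h2
      by_cases hcp : c = p0
      · rw [hcp]
      by_cases hca : c = a
      · rw [hca]
        rw [hca] at h2
        exact Dp0a Q hQ h1 h2
      by_contra hne2
      have hge := hpa c Q hQ h1 h2
      have hd2 : ind N (insert p0 Q) - ind N (insert c Q) = 1 := by
        have g1 := ind_le_one N (insert p0 Q)
        have g2 := ind_nonneg N (insert c Q)
        have g3 : ind N (insert c Q) < ind N (insert p0 Q) := lt_of_le_of_ne hge (Ne.symm hne2)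
        omega
      obtain ⟨R, hRc, hR⟩ := exists_avoid ({p0, a, b, c} : Finset α) (k - 2) (by
        have := Finset.card_le_four (a := p0) (b := a) (c := b) (d := c)
        omega)
      have hp0R : p0 ∉ R := fun h' => (Finset.disjoint_left.1 hR h') (by simp)
      have haR : a ∉ R := fun h' => (Finset.disjoint_left.1 hR h') (by simp)
      have hbR : b ∉ R := fun h' => (Finset.disjoint_left.1 hR h') (by simp)
      have hcR : c ∉ R := fun h' => (Finset.disjoint_left.1 hR h') (by simp)
      have hca' : c ≠ a := hca
      have hcp' : c ≠ p0 := hcp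
      -- sets
      have caR : (insert a R).card + 1 = k := by
        rw [Finset.card_insert_of_notMem haR]
        omega
      have cbR : (insert b R).card + 1 = k := by
        rw [Finset.card_insert_of_notMem hbR]
        omega
      have n1 : p0 ∉ insert a R := by
        rw [Finset.mem_insert]
        push Not
        exact ⟨ha.symm, hp0R⟩
      have n2 : b ∉ insert a R := by
        rw [Finset.mem_insert]
        push Not
        exact ⟨hab'.symm, hbR⟩
      have n3 : a ∉ insert b R := by
        rw [Finset.mem_insert]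
        push Not
        exact ⟨hab', haR⟩
      have n4 : c ∉ insert b R := by
        rw [Finset.mem_insert]
        push Not
        exact ⟨hcb, hcR⟩
      have n5 : p0 ∉ insert b R := by
        rw [Finset.mem_insert]
        push Not
        exact ⟨hb.symm, hp0R⟩
      have s1 := Dp0b (insert a R) caR n1 n2
      have s2 := Dp0a (insert b R) cbR n5 n3
      have s3 := cst (insert b R) Q p0 c cbR hQ hcp'.symm n5 n4 h1 h2
      rw [hd2] at s3
      -- ind(p0, a, R) - ind(b, a, R) = 1; ind(p0,b,R) = ind(a,b,R); ind(p0,b,R) - ind(c,b,R) = 1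
      have e : insert b (insert a R) = insert a (insert b R) := Finset.insert_comm b a R
      rw [e] at s1
      have g1 := ind_le_one N (insert p0 (insert a R))
      have g2 := ind_nonneg N (insert c (insert b R))
      linarith
    -- all differences away from `b` vanish
    have hall : ∀ c c', c ≠ b → c' ≠ b → ∀ Q : Finset α, Q.card + 1 = k → c ∉ Q → c' ∉ Q →
        ind N (insert c Q) = ind N (insert c' Q) := by
      intro c c' hc hc' Q hQ h1 h2
      by_cases hcc : c = c'
      · rw [hcc]
      obtain ⟨R, hRc, hR⟩ := exists_avoid ({p0, c, c'} : Finset α) (k - 1) (by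
        have := Finset.card_le_three (a := p0) (b := c) (c := c')
        omega)
      have hp0R : p0 ∉ R := fun h' => (Finset.disjoint_left.1 hR h') (by simp)
      have hcR : c ∉ R := fun h' => (Finset.disjoint_left.1 hR h') (by simp)
      have hcR' : c' ∉ R := fun h' => (Finset.disjoint_left.1 hR h') (by simp)
      have s := cst Q R c c' hQ (by omega) hcc h1 h2 hcR hcR'
      have s1 := Dp0c c hc R (by omega) hp0R hcR
      have s2 := Dp0c c' hc' R (by omega) hp0R hcR'
      linarith
    refine fin b hall (insert p0 Q0) ?_ ?_ (ind_eq_one.1 hval.1)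
    · rw [Finset.card_insert_of_notMem hp0Q]
      omega
    · rw [Finset.mem_insert]
      push Not
      exact ⟨hb, hbQ⟩
  have claimA' : ∀ a b, a ≠ p0 → b ≠ p0 → ∀ P : Finset α, P.card + 1 = k →
      a ∉ P → b ∉ P → ind N (insert a P) = ind N (insert b P) := by
    intro a b ha hb P hP haP hbP
    rcases le_total (x a) (x b) with h | h
    · exact claimA a b ha hb h P hP haP hbP
    · exact (claimA b a hb ha h P hP hbP haP).symm
  intro T hT
  by_contra hp
  exact fin p0 claimA' T (hN T hT) hp hT

end

end Pool.Agent.Helper594_MMS
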