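import Pool.Agent.Helper594_MMS.UniqBase

/-!
Base case `k = 2`, `n = 9` (machine-generated chain of inferences).
-/

namespace Pool.Agent.Helper594_MMS

open Finset

theorem ubase_2_9 : BaseU 2 8 := by
  intro f hf hs hst
  have hm := mono_of_step f 8 hf
  by_contra hne
  have hb : (negI f 0 2 9).card < 9 := by
    have h1 := not_le.1 hne
    have h2 : Nat.choose 8 (2 - 1) + 1 = 9 := by decide +kernel
    rwa [h2] at h1
  have p0 : 0 ≤ ls f [8, 0] := by
    have e : Finset.Ico (8 + 1 - (2 - 1)) (8 + 1) = {8} := by decide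
    rw [e] at hst
    simp [ls] at hst ⊢
    linarith
  have p1 : 0 ≤ ls f [5, 1] :=
    pstep f 2 9 9 hm hb [5, 1] [] nQ (by decide +kernel) (by decide +kernel)
  have p2 : 0 ≤ ls f [4, 2] :=
    pstep f 2 9 9 hm hb [4, 2] [] nQ (by decide +kernel) (by decide +kernel)
  exact fstep f 8 hf hs [(5, [4, 2]), (2, [5, 1]), (2, [8, 0])] (cP p2 (cP p1 (cP p0 nP))) (by decide +kernel)

end Pool.Agent.Helper594_MMS
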