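import Pool.Agent.Helper594_MMS.UniqBase

/-!
Base case `k = 3`, `n = 12` (machine-generated chain of inferences).
-/

namespace Pool.Agent.Helper594_MMS

open Finset

theorem ubase_3_12 : BaseU 3 11 := by
  intro f hf hs hst
  have hm := mono_of_step f 11 hf
  by_contra hne
  have hb : (negI f 0 3 12).card < 56 := by
    have h1 := not_le.1 hne
    have h2 : Nat.choose 11 (3 - 1) + 1 = 56 := by decide +kernel
    rwa [h2] at h1
  have p0 : 0 ≤ ls f [11, 10, 0] := by
    have e : Finset.Ico (11 + 1 - (3 - 1)) (11 + 1) = {10, 11} := by decide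
    rw [e] at hst
    simp [ls] at hst ⊢
    linarith
  have p2 : 0 ≤ ls f [10, 5, 1] :=
    pstep f 3 12 56 hm hb [10, 5, 1] [] nQ (by decide +kernel) (by decide +kernel)
  have p6 : 0 ≤ ls f [8, 6, 2] :=
    pstep f 3 12 56 hm hb [8, 6, 2] [] nQ (by decide +kernel) (by decide +kernel)
  have p7 : 0 ≤ ls f [9, 4, 3] :=
    pstep f 3 12 56 hm hb [9, 4, 3] [] nQ (by decide +kernel) (by decide +kernel)
  have q10 : NF f 3 12 [11, 6, 0] :=
    qstep f 3 11 hf hs [11, 6, 0] 1 [(1, [9, 4, 3]), (1, [8, 6, 2]), (1, [10, 5, 1])] (cP p7 (cP p6 (cP p2 nP))) (by decide +kernel) (by decide +kernel)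
  have p12 : 0 ≤ ls f [7, 4, 1] :=
    pstep f 3 12 56 hm hb [7, 4, 1] [[11, 6, 0]] (cQ q10 nQ) (by decide +kernel) (by decide +kernel)
  exact fstep f 11 hf hs [(3, [7, 4, 1]), (1, [11, 10, 0])] (cP p12 (cP p0 nP)) (by decide +kernel)

end Pool.Agent.Helper594_MMS
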