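import Pool.Agent.Helper594_MMS.UniqBase

/-!
Base case `k = 3`, `n = 13` (machine-generated chain of inferences).
-/

namespace Pool.Agent.Helper594_MMS

open Finset

theorem ubase_3_13 : BaseU 3 12 := by
  intro f hf hs hst
  have hm := mono_of_step f 12 hf
  by_contra hne
  have hb : (negI f 0 3 13).card < 67 := by
    have h1 := not_le.1 hne
    have h2 : Nat.choose 12 (3 - 1) + 1 = 67 := by decide +kernel
    rwa [h2] at h1
  have p0 : 0 ≤ ls f [12, 11, 0] := by
    have e : Finset.Ico (12 + 1 - (3 - 1)) (12 + 1) = {11, 12} := by decide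
    rw [e] at hst
    simp [ls] at hst ⊢
    linarith
  have p1 : 0 ≤ ls f [11, 5, 1] :=
    pstep f 3 13 67 hm hb [11, 5, 1] [] nQ (by decide +kernel) (by decide +kernel)
  have p4 : 0 ≤ ls f [9, 5, 2] :=
    pstep f 3 13 67 hm hb [9, 5, 2] [] nQ (by decide +kernel) (by decide +kernel)
  have p5 : 0 ≤ ls f [10, 4, 3] :=
    pstep f 3 13 67 hm hb [10, 4, 3] [] nQ (by decide +kernel) (by decide +kernel)
  have p6 : 0 ≤ ls f [8, 6, 3] :=
    pstep f 3 13 67 hm hb [8, 6, 3] [] nQ (by decide +kernel) (by decide +kernel)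
  have q7 : NF f 3 13 [12, 7, 0] :=
    qstep f 3 12 hf hs [12, 7, 0] 3 [(1, [8, 6, 3]), (2, [10, 4, 3]), (4, [9, 5, 2]), (3, [11, 5, 1])] (cP p6 (cP p5 (cP p4 (cP p1 nP)))) (by decide +kernel) (by decide +kernel)
  have p9 : 0 ≤ ls f [7, 4, 1] :=
    pstep f 3 13 67 hm hb [7, 4, 1] [[12, 7, 0]] (cQ q7 nQ) (by decide +kernel) (by decide +kernel)
  exact fstep f 12 hf hs [(10, [7, 4, 1]), (3, [12, 11, 0])] (cP p9 (cP p0 nP)) (by decide +kernel)

end Pool.Agent.Helper594_MMS
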