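import Pool.Agent.Helper594_MMS.UniqBase

/-!
Base case `k = 4`, `n = 16` (machine-generated chain of inferences).
-/

namespace Pool.Agent.Helper594_MMS

open Finset

theorem ubase_4_16 : BaseU 4 15 := by
  intro f hf hs hst
  have hm := mono_of_step f 15 hf
  by_contra hne
  have hb : (negI f 0 4 16).card < 456 := by
    have h1 := not_le.1 hne
    have h2 : Nat.choose 15 (4 - 1) + 1 = 456 := by decide +kernel
    rwa [h2] at h1
  have p0 : 0 ≤ ls f [15, 14, 13, 0] := by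
    have e : Finset.Ico (15 + 1 - (4 - 1)) (15 + 1) = {13, 14, 15} := by decide
    rw [e] at hst
    simp [ls] at hst ⊢
    linarith
  have p5 : 0 ≤ ls f [14, 10, 6, 1] :=
    pstep f 4 16 456 hm hb [14, 10, 6, 1] [] nQ (by decide +kernel) (by decide +kernel)
  have p9 : 0 ≤ ls f [15, 9, 4, 2] :=
    pstep f 4 16 456 hm hb [15, 9, 4, 2] [] nQ (by decide +kernel) (by decide +kernel)
  have p16 : 0 ≤ ls f [12, 10, 7, 2] :=
    pstep f 4 16 456 hm hb [12, 10, 7, 2] [] nQ (by decide +kernel) (by decide +kernel)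
  have p18 : 0 ≤ ls f [13, 9, 5, 3] :=
    pstep f 4 16 456 hm hb [13, 9, 5, 3] [] nQ (by decide +kernel) (by decide +kernel)
  have q30 : NF f 4 16 [15, 8, 4, 0] :=
    qstep f 4 15 hf hs [15, 8, 4, 0] 1 [(1, [13, 9, 5, 3]), (1, [12, 10, 7, 2]), (1, [14, 10, 6, 1])] (cP p18 (cP p16 (cP p5 nP))) (by decide +kernel) (by decide +kernel)
  have p37 : 0 ≤ ls f [14, 8, 5, 2] :=
    pstep f 4 16 456 hm hb [14, 8, 5, 2] [[15, 8, 4, 0]] (cQ q30 nQ) (by decide +kernel) (by decide +kernel)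
  have q57 : NF f 4 16 [10, 7, 4, 1] :=
    qstep f 4 15 hf hs [10, 7, 4, 1] 3 [(1, [15, 14, 13, 0])] (cP p0 nP) (by decide +kernel) (by decide +kernel)
  have p59 : 0 ≤ ls f [15, 12, 9, 0] :=
    pstep f 4 16 456 hm hb [15, 12, 9, 0] [[10, 7, 4, 1]] (cQ q57 nQ) (by decide +kernel) (by decide +kernel)
  have q60 : NF f 4 16 [12, 10, 6, 0] :=
    qstep f 4 15 hf hs [12, 10, 6, 0] 2 [(1, [14, 8, 5, 2]), (1, [15, 9, 4, 2])] (cP p37 (cP p9 nP)) (by decide +kernel) (by decide +kernel)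
  have p84 : 0 ≤ ls f [15, 6, 5, 3] :=
    pstep f 4 16 456 hm hb [15, 6, 5, 3] [[12, 10, 6, 0], [10, 7, 4, 1], [15, 8, 4, 0]] (cQ q60 (cQ q57 (cQ q30 nQ))) (by decide +kernel) (by decide +kernel)
  have p85 : 0 ≤ ls f [13, 7, 5, 3] :=
    pstep f 4 16 456 hm hb [13, 7, 5, 3] [[12, 10, 6, 0], [15, 8, 4, 0]] (cQ q60 (cQ q30 nQ)) (by decide +kernel) (by decide +kernel)
  have p86 : 0 ≤ ls f [12, 8, 5, 3] :=
    pstep f 4 16 456 hm hb [12, 8, 5, 3] [[12, 10, 6, 0], [15, 8, 4, 0]] (cQ q60 (cQ q30 nQ)) (by decide +kernel) (by decide +kernel)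
  have p93 : 0 ≤ ls f [10, 9, 8, 4] :=
    pstep f 4 16 456 hm hb [10, 9, 8, 4] [[12, 10, 6, 0], [15, 8, 4, 0]] (cQ q60 (cQ q30 nQ)) (by decide +kernel) (by decide +kernel)
  have q95 : NF f 4 16 [14, 11, 2, 0] :=
    qstep f 4 15 hf hs [14, 11, 2, 0] 2 [(1, [10, 9, 8, 4]), (1, [13, 7, 5, 3])] (cP p93 (cP p85 nP)) (by decide +kernel) (by decide +kernel)
  have p103 : 0 ≤ ls f [14, 8, 4, 2] :=
    pstep f 4 16 456 hm hb [14, 8, 4, 2] [[14, 11, 2, 0], [12, 10, 6, 0], [15, 8, 4, 0]] (cQ q95 (cQ q60 (cQ q30 nQ))) (by decide +kernel) (by decide +kernel)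
  have q123 : NF f 4 16 [12, 9, 7, 0] :=
    qstep f 4 15 hf hs [12, 9, 7, 0] 2 [(1, [14, 8, 4, 2]), (1, [15, 6, 5, 3])] (cP p103 (cP p84 nP)) (by decide +kernel) (by decide +kernel)
  have q133 : NF f 4 16 [13, 8, 6, 0] :=
    qstep f 4 15 hf hs [13, 8, 6, 0] 2 [(1, [14, 8, 4, 2]), (1, [12, 8, 5, 3])] (cP p103 (cP p86 nP)) (by decide +kernel) (by decide +kernel)
  have p135 : 0 ≤ ls f [14, 9, 5, 1] :=
    pstep f 4 16 456 hm hb [14, 9, 5, 1] [[13, 8, 6, 0], [12, 9, 7, 0], [14, 11, 2, 0], [12, 10, 6, 0], [15, 8, 4, 0]] (cQ q133 (cQ q123 (cQ q95 (cQ q60 (cQ q30 nQ))))) (by decide +kernel) (by decide +kernel)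
  have p138 : 0 ≤ ls f [12, 8, 5, 2] :=
    pstep f 4 16 456 hm hb [12, 8, 5, 2] [[13, 8, 6, 0], [12, 9, 7, 0], [14, 11, 2, 0], [12, 10, 6, 0], [15, 8, 4, 0]] (cQ q133 (cQ q123 (cQ q95 (cQ q60 (cQ q30 nQ))))) (by decide +kernel) (by decide +kernel)
  have q145 : NF f 4 16 [14, 10, 3, 0] :=
    qstep f 4 15 hf hs [14, 10, 3, 0] 1 [(1, [12, 8, 5, 2])] (cP p138 nP) (by decide +kernel) (by decide +kernel)
  have p148 : 0 ≤ ls f [13, 8, 4, 2] :=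
    pstep f 4 16 456 hm hb [13, 8, 4, 2] [[14, 10, 3, 0], [13, 8, 6, 0], [12, 9, 7, 0], [14, 11, 2, 0], [12, 10, 6, 0], [15, 8, 4, 0]] (cQ q145 (cQ q133 (cQ q123 (cQ q95 (cQ q60 (cQ q30 nQ)))))) (by decide +kernel) (by decide +kernel)
  have q153 : NF f 4 16 [15, 11, 1, 0] :=
    qstep f 4 15 hf hs [15, 11, 1, 0] 1 [(3, [12, 8, 5, 2])] (cP p138 nP) (by decide +kernel) (by decide +kernel)
  have q162 : NF f 4 16 [12, 11, 5, 0] :=
    qstep f 4 15 hf hs [12, 11, 5, 0] 1 [(2, [13, 8, 4, 2]), (1, [14, 9, 5, 1])] (cP p148 (cP p135 nP)) (by decide +kernel) (by decide +kernel)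
  have q167 : NF f 4 16 [14, 9, 4, 0] :=
    qstep f 4 15 hf hs [14, 9, 4, 0] 1 [(1, [12, 8, 5, 2])] (cP p138 nP) (by decide +kernel) (by decide +kernel)
  have p172 : 0 ≤ ls f [11, 7, 6, 3] :=
    pstep f 4 16 456 hm hb [11, 7, 6, 3] [[14, 9, 4, 0], [12, 11, 5, 0], [15, 11, 1, 0], [14, 10, 3, 0], [13, 8, 6, 0], [12, 9, 7, 0], [14, 11, 2, 0], [12, 10, 6, 0], [15, 8, 4, 0]] (cQ q167 (cQ q162 (cQ q153 (cQ q145 (cQ q133 (cQ q123 (cQ q95 (cQ q60 (cQ q30 nQ))))))))) (by decide +kernel) (by decide +kernel)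
  exact fstep f 15 hf hs [(1, [11, 7, 6, 3]), (1, [13, 8, 4, 2]), (1, [14, 9, 5, 1]), (1, [15, 12, 9, 0])] (cP p172 (cP p148 (cP p135 (cP p59 nP)))) (by decide +kernel)

end Pool.Agent.Helper594_MMS
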