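import Pool.Agent.Helper594_MMS.UniqBase

/-!
Base case `k = 4`, `n = 17` (machine-generated chain of inferences).
-/

namespace Pool.Agent.Helper594_MMS

open Finset

theorem ubase_4_17 : BaseU 4 16 := by
  intro f hf hs hst
  have hm := mono_of_step f 16 hf
  by_contra hne
  have hb : (negI f 0 4 17).card < 561 := by
    have h1 := not_le.1 hne
    have h2 : Nat.choose 16 (4 - 1) + 1 = 561 := by decide +kernel
    rwa [h2] at h1
  have p0 : 0 ≤ ls f [16, 15, 14, 0] := by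
    have e : Finset.Ico (16 + 1 - (4 - 1)) (16 + 1) = {14, 15, 16} := by decide
    rw [e] at hst
    simp [ls] at hst ⊢
    linarith
  have p5 : 0 ≤ ls f [15, 11, 6, 1] :=
    pstep f 4 17 561 hm hb [15, 11, 6, 1] [] nQ (by decide +kernel) (by decide +kernel)
  have p7 : 0 ≤ ls f [15, 10, 7, 1] :=
    pstep f 4 17 561 hm hb [15, 10, 7, 1] [] nQ (by decide +kernel) (by decide +kernel)
  have p12 : 0 ≤ ls f [15, 9, 5, 2] :=
    pstep f 4 17 561 hm hb [15, 9, 5, 2] [] nQ (by decide +kernel) (by decide +kernel)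
  have p13 : 0 ≤ ls f [14, 11, 5, 2] :=
    pstep f 4 17 561 hm hb [14, 11, 5, 2] [] nQ (by decide +kernel) (by decide +kernel)
  have p16 : 0 ≤ ls f [13, 12, 6, 2] :=
    pstep f 4 17 561 hm hb [13, 12, 6, 2] [] nQ (by decide +kernel) (by decide +kernel)
  have p20 : 0 ≤ ls f [16, 9, 4, 3] :=
    pstep f 4 17 561 hm hb [16, 9, 4, 3] [] nQ (by decide +kernel) (by decide +kernel)
  have p24 : 0 ≤ ls f [13, 12, 5, 3] :=
    pstep f 4 17 561 hm hb [13, 12, 5, 3] [] nQ (by decide +kernel) (by decide +kernel)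
  have p27 : 0 ≤ ls f [13, 10, 6, 3] :=
    pstep f 4 17 561 hm hb [13, 10, 6, 3] [] nQ (by decide +kernel) (by decide +kernel)
  have p28 : 0 ≤ ls f [14, 8, 7, 3] :=
    pstep f 4 17 561 hm hb [14, 8, 7, 3] [] nQ (by decide +kernel) (by decide +kernel)
  have p37 : 0 ≤ ls f [12, 10, 7, 4] :=
    pstep f 4 17 561 hm hb [12, 10, 7, 4] [] nQ (by decide +kernel) (by decide +kernel)
  have q39 : NF f 4 17 [16, 9, 4, 0] :=
    qstep f 4 16 hf hs [16, 9, 4, 0] 4 [(1, [12, 10, 7, 4]), (2, [14, 8, 7, 3]), (1, [13, 10, 6, 3]), (1, [13, 12, 5, 3]), (2, [13, 12, 6, 2]), (2, [14, 11, 5, 2]), (3, [15, 10, 7, 1]), (1, [15, 11, 6, 1])] (cP p37 (cP p28 (cP p27 (cP p24 (cP p16 (cP p13 (cP p7 (cP p5 nP)))))))) (by decide +kernel) (by decide +kernel)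
  have p41 : 0 ≤ ls f [15, 10, 6, 1] :=
    pstep f 4 17 561 hm hb [15, 10, 6, 1] [[16, 9, 4, 0]] (cQ q39 nQ) (by decide +kernel) (by decide +kernel)
  have p58 : 0 ≤ ls f [12, 10, 7, 2] :=
    pstep f 4 17 561 hm hb [12, 10, 7, 2] [[16, 9, 4, 0]] (cQ q39 nQ) (by decide +kernel) (by decide +kernel)
  have p61 : 0 ≤ ls f [14, 8, 5, 3] :=
    pstep f 4 17 561 hm hb [14, 8, 5, 3] [[16, 9, 4, 0]] (cQ q39 nQ) (by decide +kernel) (by decide +kernel)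
  have q73 : NF f 4 17 [13, 11, 6, 0] :=
    qstep f 4 16 hf hs [13, 11, 6, 0] 7 [(2, [14, 8, 5, 3]), (2, [12, 10, 7, 2]), (1, [15, 10, 6, 1]), (3, [16, 9, 4, 3]), (2, [15, 9, 5, 2])] (cP p61 (cP p58 (cP p41 (cP p20 (cP p12 nP))))) (by decide +kernel) (by decide +kernel)
  have p80 : 0 ≤ ls f [14, 10, 7, 1] :=
    pstep f 4 17 561 hm hb [14, 10, 7, 1] [[13, 11, 6, 0], [16, 9, 4, 0]] (cQ q73 (cQ q39 nQ)) (by decide +kernel) (by decide +kernel)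
  have p83 : 0 ≤ ls f [16, 8, 4, 2] :=
    pstep f 4 17 561 hm hb [16, 8, 4, 2] [[13, 11, 6, 0], [16, 9, 4, 0]] (cQ q73 (cQ q39 nQ)) (by decide +kernel) (by decide +kernel)
  have p94 : 0 ≤ ls f [12, 9, 7, 2] :=
    pstep f 4 17 561 hm hb [12, 9, 7, 2] [[13, 11, 6, 0], [16, 9, 4, 0]] (cQ q73 (cQ q39 nQ)) (by decide +kernel) (by decide +kernel)
  have p99 : 0 ≤ ls f [13, 8, 5, 3] :=
    pstep f 4 17 561 hm hb [13, 8, 5, 3] [[13, 11, 6, 0], [16, 9, 4, 0]] (cQ q73 (cQ q39 nQ)) (by decide +kernel) (by decide +kernel)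
  have q111 : NF f 4 17 [10, 7, 4, 1] :=
    qstep f 4 16 hf hs [10, 7, 4, 1] 13 [(4, [16, 15, 14, 0])] (cP p0 nP) (by decide +kernel) (by decide +kernel)
  have p113 : 0 ≤ ls f [16, 13, 10, 0] :=
    pstep f 4 17 561 hm hb [16, 13, 10, 0] [[10, 7, 4, 1]] (cQ q111 nQ) (by decide +kernel) (by decide +kernel)
  have q116 : NF f 4 17 [16, 11, 2, 0] :=
    qstep f 4 16 hf hs [16, 11, 2, 0] 4 [(8, [13, 8, 5, 3]), (1, [12, 9, 7, 2]), (4, [15, 10, 6, 1])] (cP p99 (cP p94 (cP p41 nP))) (by decide +kernel) (by decide +kernel)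
  have p129 : 0 ≤ ls f [12, 9, 5, 3] :=
    pstep f 4 17 561 hm hb [12, 9, 5, 3] [[16, 11, 2, 0], [13, 11, 6, 0], [16, 9, 4, 0]] (cQ q116 (cQ q73 (cQ q39 nQ))) (by decide +kernel) (by decide +kernel)
  have q134 : NF f 4 17 [14, 8, 7, 0] :=
    qstep f 4 16 hf hs [14, 8, 7, 0] 6 [(5, [12, 9, 5, 3]), (4, [16, 8, 4, 2]), (2, [15, 10, 6, 1])] (cP p129 (cP p83 (cP p41 nP))) (by decide +kernel) (by decide +kernel)
  have p138 : 0 ≤ ls f [16, 9, 5, 1] :=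
    pstep f 4 17 561 hm hb [16, 9, 5, 1] [[14, 8, 7, 0], [16, 11, 2, 0], [13, 11, 6, 0]] (cQ q134 (cQ q116 (cQ q73 nQ))) (by decide +kernel) (by decide +kernel)
  have p143 : 0 ≤ ls f [15, 8, 4, 2] :=
    pstep f 4 17 561 hm hb [15, 8, 4, 2] [[14, 8, 7, 0], [16, 11, 2, 0], [13, 11, 6, 0], [16, 9, 4, 0]] (cQ q134 (cQ q116 (cQ q73 (cQ q39 nQ)))) (by decide +kernel) (by decide +kernel)
  have p144 : 0 ≤ ls f [14, 9, 4, 2] :=
    pstep f 4 17 561 hm hb [14, 9, 4, 2] [[14, 8, 7, 0], [16, 11, 2, 0], [13, 11, 6, 0], [16, 9, 4, 0]] (cQ q134 (cQ q116 (cQ q73 (cQ q39 nQ)))) (by decide +kernel) (by decide +kernel)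
  have p146 : 0 ≤ ls f [15, 7, 5, 2] :=
    pstep f 4 17 561 hm hb [15, 7, 5, 2] [[14, 8, 7, 0], [16, 11, 2, 0], [13, 11, 6, 0], [16, 9, 4, 0]] (cQ q134 (cQ q116 (cQ q73 (cQ q39 nQ)))) (by decide +kernel) (by decide +kernel)
  have p154 : 0 ≤ ls f [11, 9, 6, 3] :=
    pstep f 4 17 561 hm hb [11, 9, 6, 3] [[14, 8, 7, 0], [16, 11, 2, 0], [13, 11, 6, 0], [16, 9, 4, 0]] (cQ q134 (cQ q116 (cQ q73 (cQ q39 nQ)))) (by decide +kernel) (by decide +kernel)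
  have q159 : NF f 4 17 [12, 11, 7, 0] :=
    qstep f 4 16 hf hs [12, 11, 7, 0] 6 [(6, [15, 8, 4, 2]), (2, [16, 9, 5, 1]), (3, [13, 8, 5, 3])] (cP p143 (cP p138 (cP p99 nP))) (by decide +kernel) (by decide +kernel)
  have p161 : 0 ≤ ls f [15, 12, 4, 1] :=
    pstep f 4 17 561 hm hb [15, 12, 4, 1] [[12, 11, 7, 0], [14, 8, 7, 0], [16, 11, 2, 0], [13, 11, 6, 0], [16, 9, 4, 0]] (cQ q159 (cQ q134 (cQ q116 (cQ q73 (cQ q39 nQ))))) (by decide +kernel) (by decide +kernel)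
  have p162 : 0 ≤ ls f [15, 9, 6, 1] :=
    pstep f 4 17 561 hm hb [15, 9, 6, 1] [[12, 11, 7, 0], [16, 11, 2, 0], [13, 11, 6, 0], [16, 9, 4, 0]] (cQ q159 (cQ q116 (cQ q73 (cQ q39 nQ)))) (by decide +kernel) (by decide +kernel)
  have p164 : 0 ≤ ls f [12, 8, 5, 3] :=
    pstep f 4 17 561 hm hb [12, 8, 5, 3] [[12, 11, 7, 0], [14, 8, 7, 0], [16, 11, 2, 0], [13, 11, 6, 0], [16, 9, 4, 0]] (cQ q159 (cQ q134 (cQ q116 (cQ q73 (cQ q39 nQ))))) (by decide +kernel) (by decide +kernel)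
  have p165 : 0 ≤ ls f [11, 8, 6, 4] :=
    pstep f 4 17 561 hm hb [11, 8, 6, 4] [[12, 11, 7, 0], [14, 8, 7, 0], [16, 11, 2, 0], [13, 11, 6, 0], [16, 9, 4, 0]] (cQ q159 (cQ q134 (cQ q116 (cQ q73 (cQ q39 nQ))))) (by decide +kernel) (by decide +kernel)
  exact fstep f 16 hf hs [(1, [11, 8, 6, 4]), (3, [12, 8, 5, 3]), (1, [15, 9, 6, 1]), (1, [15, 12, 4, 1]), (1, [11, 9, 6, 3]), (2, [15, 7, 5, 2]), (2, [14, 9, 4, 2]), (4, [16, 13, 10, 0]), (2, [14, 10, 7, 1])] (cP p165 (cP p164 (cP p162 (cP p161 (cP p154 (cP p146 (cP p144 (cP p113 (cP p80 nP))))))))) (by decide +kernel)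

end Pool.Agent.Helper594_MMS
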