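import Pool.Agent.Helper594_MMS.UniqBase

/-!
Base case `k = 4`, `n = 19` (machine-generated chain of inferences).
-/

namespace Pool.Agent.Helper594_MMS

open Finset

theorem ubase_4_19 : BaseU 4 18 := by
  intro f hf hs hst
  have hm := mono_of_step f 18 hf
  by_contra hne
  have hb : (negI f 0 4 19).card < 817 := by
    have h1 := not_le.1 hne
    have h2 : Nat.choose 18 (4 - 1) + 1 = 817 := by decide +kernel
    rwa [h2] at h1
  have p0 : 0 ≤ ls f [18, 17, 16, 0] := by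
    have e : Finset.Ico (18 + 1 - (4 - 1)) (18 + 1) = {16, 17, 18} := by decide
    rw [e] at hst
    simp [ls] at hst ⊢
    linarith
  have p1 : 0 ≤ ls f [18, 13, 5, 1] :=
    pstep f 4 19 817 hm hb [18, 13, 5, 1] [] nQ (by decide +kernel) (by decide +kernel)
  have p3 : 0 ≤ ls f [17, 13, 6, 1] :=
    pstep f 4 19 817 hm hb [17, 13, 6, 1] [] nQ (by decide +kernel) (by decide +kernel)
  have p11 : 0 ≤ ls f [18, 12, 4, 2] :=
    pstep f 4 19 817 hm hb [18, 12, 4, 2] [] nQ (by decide +kernel) (by decide +kernel)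
  have p20 : 0 ≤ ls f [17, 9, 7, 2] :=
    pstep f 4 19 817 hm hb [17, 9, 7, 2] [] nQ (by decide +kernel) (by decide +kernel)
  have p22 : 0 ≤ ls f [15, 11, 7, 2] :=
    pstep f 4 19 817 hm hb [15, 11, 7, 2] [] nQ (by decide +kernel) (by decide +kernel)
  have p28 : 0 ≤ ls f [17, 10, 5, 3] :=
    pstep f 4 19 817 hm hb [17, 10, 5, 3] [] nQ (by decide +kernel) (by decide +kernel)
  have p37 : 0 ≤ ls f [14, 11, 7, 3] :=
    pstep f 4 19 817 hm hb [14, 11, 7, 3] [] nQ (by decide +kernel) (by decide +kernel)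
  have p42 : 0 ≤ ls f [15, 10, 6, 4] :=
    pstep f 4 19 817 hm hb [15, 10, 6, 4] [] nQ (by decide +kernel) (by decide +kernel)
  have q54 : NF f 4 19 [16, 12, 8, 0] :=
    qstep f 4 18 hf hs [16, 12, 8, 0] 4 [(3, [15, 10, 6, 4]), (3, [14, 11, 7, 3]), (1, [17, 10, 5, 3]), (1, [15, 11, 7, 2]), (2, [17, 9, 7, 2]), (1, [18, 12, 4, 2]), (1, [17, 13, 6, 1]), (3, [18, 13, 5, 1])] (cP p42 (cP p37 (cP p28 (cP p22 (cP p20 (cP p11 (cP p3 (cP p1 nP)))))))) (by decide +kernel) (by decide +kernel)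
  have p59 : 0 ≤ ls f [17, 11, 6, 1] :=
    pstep f 4 19 817 hm hb [17, 11, 6, 1] [[16, 12, 8, 0]] (cQ q54 nQ) (by decide +kernel) (by decide +kernel)
  have p77 : 0 ≤ ls f [14, 11, 6, 2] :=
    pstep f 4 19 817 hm hb [14, 11, 6, 2] [[16, 12, 8, 0]] (cQ q54 nQ) (by decide +kernel) (by decide +kernel)
  have p88 : 0 ≤ ls f [15, 9, 5, 3] :=
    pstep f 4 19 817 hm hb [15, 9, 5, 3] [[16, 12, 8, 0]] (cQ q54 nQ) (by decide +kernel) (by decide +kernel)
  have q103 : NF f 4 19 [18, 13, 4, 0] :=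
    qstep f 4 18 hf hs [18, 13, 4, 0] 4 [(7, [15, 9, 5, 3]), (4, [14, 11, 6, 2]), (4, [17, 11, 6, 1])] (cP p88 (cP p77 (cP p59 nP))) (by decide +kernel) (by decide +kernel)
  have p115 : 0 ≤ ls f [15, 11, 7, 1] :=
    pstep f 4 19 817 hm hb [15, 11, 7, 1] [[18, 13, 4, 0], [16, 12, 8, 0]] (cQ q103 (cQ q54 nQ)) (by decide +kernel) (by decide +kernel)
  have p128 : 0 ≤ ls f [14, 9, 5, 2] :=
    pstep f 4 19 817 hm hb [14, 9, 5, 2] [[18, 13, 4, 0], [16, 12, 8, 0]] (cQ q103 (cQ q54 nQ)) (by decide +kernel) (by decide +kernel)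
  have p129 : 0 ≤ ls f [13, 11, 5, 2] :=
    pstep f 4 19 817 hm hb [13, 11, 5, 2] [[18, 13, 4, 0], [16, 12, 8, 0]] (cQ q103 (cQ q54 nQ)) (by decide +kernel) (by decide +kernel)
  have p140 : 0 ≤ ls f [14, 10, 4, 3] :=
    pstep f 4 19 817 hm hb [14, 10, 4, 3] [[18, 13, 4, 0], [16, 12, 8, 0]] (cQ q103 (cQ q54 nQ)) (by decide +kernel) (by decide +kernel)
  have p145 : 0 ≤ ls f [13, 8, 6, 3] :=
    pstep f 4 19 817 hm hb [13, 8, 6, 3] [[18, 13, 4, 0], [16, 12, 8, 0]] (cQ q103 (cQ q54 nQ)) (by decide +kernel) (by decide +kernel)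
  have p146 : 0 ≤ ls f [12, 9, 6, 3] :=
    pstep f 4 19 817 hm hb [12, 9, 6, 3] [[18, 13, 4, 0], [16, 12, 8, 0]] (cQ q103 (cQ q54 nQ)) (by decide +kernel) (by decide +kernel)
  exact fstep f 18 hf hs [(4, [12, 9, 6, 3]), (2, [13, 8, 6, 3]), (1, [14, 10, 4, 3]), (1, [13, 11, 5, 2]), (3, [14, 9, 5, 2]), (4, [15, 11, 7, 1]), (4, [18, 17, 16, 0])] (cP p146 (cP p145 (cP p140 (cP p129 (cP p128 (cP p115 (cP p0 nP))))))) (by decide +kernel)

end Pool.Agent.Helper594_MMS
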