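import Pool.Agent.Helper594_MMS.UBase_2_8
import Pool.Agent.Helper594_MMS.UBase_2_9
import Pool.Agent.Helper594_MMS.UBase_3_12
import Pool.Agent.Helper594_MMS.UBase_3_13
import Pool.Agent.Helper594_MMS.UBase_3_14
import Pool.Agent.Helper594_MMS.UBase_4_16
import Pool.Agent.Helper594_MMS.UBase_4_17
import Pool.Agent.Helper594_MMS.UBase_4_18
import Pool.Agent.Helper594_MMS.UBase_4_19

/-!
Uniqueness for `k ≤ 4` and all `n ≥ 4k`, and for `n ≥ 8k²`.
-/

namespace Pool.Agent.Helper594_MMS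

open Finset

theorem su_iter (k n : ℕ) (hk : 1 ≤ k) (hkn : 2 * k ≤ n) (hS : Strict k n) (h : SU k n) :
    ∀ q : ℕ, SU k (n + q * k) := by
  intro q
  induction q with
  | zero => simpa using h
  | succ q ih =>
    have e : n + (q + 1) * k = n + q * k + k := by ring
    rw [e]
    exact su_add k _ hk (by omega) (strict_iter k n hk (by omega) hS q) ih

theorem min_neg (A : Finset ℝ) (hA : 2 ≤ A.card) (hs : ∑ y ∈ A, y ≤ 0) (x : ℝ)
    (hmin : ∀ y ∈ A, x ≤ y) : x < 0 := by
  by_contra hc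
  have hnn : ∀ y ∈ A, 0 ≤ y := fun y hy => le_trans (not_lt.1 hc) (hmin y hy)
  have hs0 : ∑ y ∈ A, y = 0 := le_antisymm hs (Finset.sum_nonneg hnn)
  have hz := (Finset.sum_eq_zero_iff_of_nonneg hnn).1 hs0
  have hsub : A ⊆ {0} := by
    intro y hy
    rw [Finset.mem_singleton]
    exact hz y hy
  have := Finset.card_le_card hsub
  rw [Finset.card_singleton] at this
  omega

theorem su_one (n : ℕ) (hn : 2 ≤ n) : SU 1 n := by
  intro A hA hs _
  have hne : A.Nonempty := by
    rw [← Finset.card_pos]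
    omega
  refine ⟨A.min' hne, Finset.min'_mem A hne, fun y hy => Finset.min'_le A y hy, ?_⟩
  intro L _ hLc
  have hL : L = ∅ := Finset.card_eq_zero.1 hLc
  subst hL
  rw [Finset.sum_empty, add_zero]
  exact min_neg A (by omega) hs _ (fun y hy => Finset.min'_le A y hy)

theorem su_small (k n : ℕ) (hk : 1 ≤ k) (hk4 : k ≤ 4) (hn : 4 * k ≤ n) : SU k n := by
  have hcase : k = 1 ∨ k = 2 ∨ k = 3 ∨ k = 4 := by omega
  rcases hcase with rfl | rfl | rfl | rfl
  · exact su_one n (by omega)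
  · have h1 : (∃ q, n = 8 + q * 2) ∨ (∃ q, n = 9 + q * 2) := by
      have h2 : n % 2 = 0 ∨ n % 2 = 1 := by omega
      rcases h2 with h2 | h2
      · exact Or.inl ⟨(n - 8) / 2, by omega⟩
      · exact Or.inr ⟨(n - 9) / 2, by omega⟩
    rcases h1 with ⟨q, rfl⟩ | ⟨q, rfl⟩
    · exact su_iter 2 8 (by omega) (by omega) (strict_small 2 8 (by omega) (by omega) (by omega))
        (su_of_baseU 2 7 ubase_2_8) q
    · exact su_iter 2 9 (by omega) (by omega) (strict_small 2 9 (by omega) (by omega) (by omega))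
        (su_of_baseU 2 8 ubase_2_9) q
  · have h1 : (∃ q, n = 12 + q * 3) ∨ (∃ q, n = 13 + q * 3) ∨ (∃ q, n = 14 + q * 3) := by
      have h2 : n % 3 = 0 ∨ n % 3 = 1 ∨ n % 3 = 2 := by omega
      rcases h2 with h2 | h2 | h2
      · exact Or.inl ⟨(n - 12) / 3, by omega⟩
      · exact Or.inr (Or.inl ⟨(n - 13) / 3, by omega⟩)
      · exact Or.inr (Or.inr ⟨(n - 14) / 3, by omega⟩)
    rcases h1 with ⟨q, rfl⟩ | ⟨q, rfl⟩ | ⟨q, rfl⟩
    · exact su_iter 3 12 (by omega) (by omega) (strict_small 3 12 (by omega) (by omega) (by omega))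
        (su_of_baseU 3 11 ubase_3_12) q
    · exact su_iter 3 13 (by omega) (by omega) (strict_small 3 13 (by omega) (by omega) (by omega))
        (su_of_baseU 3 12 ubase_3_13) q
    · exact su_iter 3 14 (by omega) (by omega) (strict_small 3 14 (by omega) (by omega) (by omega))
        (su_of_baseU 3 13 ubase_3_14) q
  · have h1 : (∃ q, n = 16 + q * 4) ∨ (∃ q, n = 17 + q * 4) ∨ (∃ q, n = 18 + q * 4) ∨
        (∃ q, n = 19 + q * 4) := by
      have h2 : n % 4 = 0 ∨ n % 4 = 1 ∨ n % 4 = 2 ∨ n % 4 = 3 := by omega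
      rcases h2 with h2 | h2 | h2 | h2
      · exact Or.inl ⟨(n - 16) / 4, by omega⟩
      · exact Or.inr (Or.inl ⟨(n - 17) / 4, by omega⟩)
      · exact Or.inr (Or.inr (Or.inl ⟨(n - 18) / 4, by omega⟩))
      · exact Or.inr (Or.inr (Or.inr ⟨(n - 19) / 4, by omega⟩))
    rcases h1 with ⟨q, rfl⟩ | ⟨q, rfl⟩ | ⟨q, rfl⟩ | ⟨q, rfl⟩
    · exact su_iter 4 16 (by omega) (by omega) (strict_small 4 16 (by omega) (by omega) (by omega))
        (su_of_baseU 4 15 ubase_4_16) q
    · exact su_iter 4 17 (by omega) (by omega) (strict_small 4 17 (by omega) (by omega) (by omega))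
        (su_of_baseU 4 16 ubase_4_17) q
    · exact su_iter 4 18 (by omega) (by omega) (strict_small 4 18 (by omega) (by omega) (by omega))
        (su_of_baseU 4 17 ubase_4_18) q
    · exact su_iter 4 19 (by omega) (by omega) (strict_small 4 19 (by omega) (by omega) (by omega))
        (su_of_baseU 4 18 ubase_4_19) q

/-- Uniqueness for `n ≥ 8k²`. -/
theorem starLow_large (k : ℕ) (hk : 1 ≤ k) (A : Finset ℝ) (hn : 8 * k ^ 2 ≤ A.card)
    (hs : ∑ y ∈ A, y = 0) (hle : (neg k A).card ≤ (A.card - 1).choose (k - 1)) :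
    StarLow k A := by
  rcases Nat.lt_or_ge k 2 with hk2 | hk2
  · have : k = 1 := by omega
    subst this
    exact su_one A.card (by omega) A rfl hs.le hle
  · have hne : A.Nonempty := by
      rw [← Finset.card_pos]
      nlinarith
    refine ⟨A.min' hne, Finset.min'_mem A hne, fun y hy => Finset.min'_le A y hy, ?_⟩
    intro L hL hLc
    by_contra hcon
    have := caseB A k hk2 hn hs (A.min' hne) (Finset.min'_mem A hne)
      (fun y hy => Finset.min'_le A y hy) L hL hLc (not_lt.1 hcon)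
    omega

end Pool.Agent.Helper594_MMS
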