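import Pool.Agent.Helper594_MMS.Small

/-!
Uniqueness of the extremal family: passage from `n` to `n + k`.
-/

namespace Pool.Agent.Helper594_MMS

open Finset

/-- All `k`-subsets of `A` through its least element are negative. -/
def StarLow (k : ℕ) (A : Finset ℝ) : Prop :=
  ∃ x ∈ A, (∀ y ∈ A, x ≤ y) ∧ ∀ L ⊆ A.erase x, L.card = k - 1 → x + ∑ y ∈ L, y < 0

/-- Uniqueness for `n`-element sets of sum at most `0`. -/
def SU (k n : ℕ) : Prop :=
  ∀ A : Finset ℝ, A.card = n → ∑ y ∈ A, y ≤ 0 → (neg k A).card ≤ (n - 1).choose (k - 1) →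
    StarLow k A

/-- The starF through `x`. -/
noncomputable def starF (k : ℕ) (A : Finset ℝ) (x : ℝ) : Finset (Finset ℝ) :=
  (A.powersetCard k).filter (fun T => x ∈ T)

theorem card_star (k : ℕ) (A : Finset ℝ) (x : ℝ) (hx : x ∈ A) (hk : 1 ≤ k) :
    (starF k A x).card = (A.card - 1).choose (k - 1) := by
  classical
  have h := Finset.card_filter_powersetCard_subset {x} A k (Finset.singleton_subset_iff.2 hx)
    (by rw [Finset.card_singleton]; omega)
  rw [Finset.card_singleton] at h
  rw [← h]
  unfold starF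
  congr 1
  apply Finset.filter_congr
  intro T _
  rw [Finset.singleton_subset_iff]

/-- If all `k`-sets through `x` are negative and there are at most `C(n-1,k-1)` negative `k`-sets,
then these are exactly the `k`-sets through `x`. -/
theorem neg_eq_star (k : ℕ) (A : Finset ℝ) (x : ℝ) (hx : x ∈ A) (hk : 1 ≤ k)
    (hall : ∀ L ⊆ A.erase x, L.card = k - 1 → x + ∑ y ∈ L, y < 0)
    (hc : (neg k A).card ≤ (A.card - 1).choose (k - 1)) : neg k A = starF k A x := by
  classical
  symm
  apply Finset.eq_of_subset_of_card_le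
  · intro T hT
    unfold starF at hT
    rw [Finset.mem_filter, Finset.mem_powersetCard] at hT
    obtain ⟨⟨h1, h2⟩, h3⟩ := hT
    unfold neg
    rw [Finset.mem_filter, Finset.mem_powersetCard]
    refine ⟨⟨h1, h2⟩, ?_⟩
    have h4 := hall (T.erase x) (Finset.erase_subset_erase x h1)
      (by rw [Finset.card_erase_of_mem h3, h2])
    have h5 : ∑ y ∈ T.erase x, y + x = ∑ y ∈ T, y := Finset.sum_erase_add T (fun y => y) h3
    linarith
  · rw [card_star k A x hx hk]
    exact hc

theorem su_add (k n : ℕ) (hk : 1 ≤ k) (hkn : 2 * k ≤ n) (hS : Strict k n) (h : SU k n) :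
    SU k (n + k) := by
  classical
  intro A hA hs hle
  have hlow := strict_add k n hk (by omega) hS A hA hs
  have hN : (neg k A).card = (n + k - 1).choose (k - 1) := le_antisymm hle hlow
  set P := (A.powersetCard k).filter (fun B => 0 ≤ ∑ b ∈ B, b) with hP
  have htot : P.card + (neg k A).card = (n + k).choose k := by
    unfold neg
    rw [← hA, ← Finset.card_powersetCard k A, hP,
      ← Finset.card_filter_add_card_filter_not (s := A.powersetCard k)
        (fun B => 0 ≤ ∑ b ∈ B, b)]
    congr 2
    apply Finset.filter_congr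
    intro B _
    exact not_le.symm
  set a := (n - 1).choose (k - 1) with ha
  set b := n.choose k with hb
  -- degrees
  have hdS : ∀ S ∈ P, a ≤ ((neg k A).bipartiteAbove (fun S T : Finset ℝ => Disjoint S T) S).card ∧
      ((neg k A).bipartiteAbove (fun S T : Finset ℝ => Disjoint S T) S) = neg k (A \ S) := by
    intro S hSP
    rw [hP, Finset.mem_filter, Finset.mem_powersetCard] at hSP
    obtain ⟨⟨h1, h2⟩, h3⟩ := hSP
    have hc : (A \ S).card = n := by
      rw [Finset.card_sdiff_of_subset h1, hA, h2]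
      omega
    have hsum : ∑ y ∈ A \ S, y ≤ 0 := by
      have := Finset.sum_sdiff h1 (f := fun y : ℝ => y)
      linarith
    have heq : ((neg k A).bipartiteAbove (fun S T : Finset ℝ => Disjoint S T) S) =
        neg k (A \ S) := by
      ext T
      rw [Finset.mem_bipartiteAbove]
      unfold neg
      rw [Finset.mem_filter, Finset.mem_filter, Finset.mem_powersetCard, Finset.mem_powersetCard]
      constructor
      · rintro ⟨⟨⟨t1, t2⟩, t3⟩, t4⟩
        refine ⟨⟨?_, t2⟩, t3⟩
        intro y hy
        rw [Finset.mem_sdiff]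
        exact ⟨t1 hy, fun hyS => (Finset.disjoint_left.1 t4 hyS) hy⟩
      · rintro ⟨⟨t1, t2⟩, t3⟩
        exact ⟨⟨⟨t1.trans Finset.sdiff_subset, t2⟩, t3⟩,
          Finset.disjoint_of_subset_right t1 Finset.disjoint_sdiff⟩
    refine ⟨?_, heq⟩
    rw [heq]
    exact hS (A \ S) hc hsum
  have hdT : ∀ T ∈ neg k A,
      (P.bipartiteBelow (fun S T : Finset ℝ => Disjoint S T) T) ⊆ (A \ T).powersetCard k ∧
      ((A \ T).powersetCard k).card = b := by
    intro T hT
    unfold neg at hT
    rw [Finset.mem_filter, Finset.mem_powersetCard] at hT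
    obtain ⟨⟨h1, h2⟩, _⟩ := hT
    have hc : (A \ T).card = n := by
      rw [Finset.card_sdiff_of_subset h1, hA, h2]
      omega
    refine ⟨?_, ?_⟩
    · intro S hS'
      rw [Finset.mem_bipartiteBelow, hP, Finset.mem_filter, Finset.mem_powersetCard] at hS'
      rw [Finset.mem_powersetCard]
      refine ⟨?_, hS'.1.1.2⟩
      intro y hy
      rw [Finset.mem_sdiff]
      exact ⟨hS'.1.1.1 hy, fun hyT => (Finset.disjoint_left.1 hS'.2 hy) hyT⟩
    · rw [Finset.card_powersetCard, hc]
  -- equality in the double count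
  have hdc : ∑ S ∈ P, ((neg k A).bipartiteAbove (fun S T : Finset ℝ => Disjoint S T) S).card =
      ∑ T ∈ neg k A, (P.bipartiteBelow (fun S T : Finset ℝ => Disjoint S T) T).card :=
    Finset.sum_card_bipartiteAbove_eq_sum_card_bipartiteBelow _
  have hge : P.card * a ≤
      ∑ S ∈ P, ((neg k A).bipartiteAbove (fun S T : Finset ℝ => Disjoint S T) S).card := by
    rw [← smul_eq_mul]
    exact Finset.card_nsmul_le_sum _ _ _ (fun S hS' => (hdS S hS').1)
  have hTle : ∀ T ∈ neg k A,
      (P.bipartiteBelow (fun S T : Finset ℝ => Disjoint S T) T).card ≤ b := by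
    intro T hT
    obtain ⟨h1, h2⟩ := hdT T hT
    rw [← h2]
    exact Finset.card_le_card h1
  have hle' : ∑ T ∈ neg k A, (P.bipartiteBelow (fun S T : Finset ℝ => Disjoint S T) T).card ≤
      (neg k A).card * b := by
    rw [← smul_eq_mul]
    exact Finset.sum_le_card_nsmul _ _ _ hTle
  have hPa : P.card * a = (neg k A).card * b := by
    obtain ⟨j, rfl⟩ : ∃ j, k = j + 1 := ⟨k - 1, by omega⟩
    obtain ⟨p, rfl⟩ : ∃ p, n = p + 1 := ⟨n - 1, by omega⟩
    have e1 := Nat.add_one_mul_choose_eq p j
    have e2 := Nat.add_one_mul_choose_eq (p + 1 + j) j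
    have r1 : (p + 1 + (j + 1) - 1) = p + 1 + j := by omega
    have r2 : p + 1 + (j + 1) = p + 1 + j + 1 := by omega
    rw [r1] at hN
    rw [r2] at htot
    simp only [Nat.add_sub_cancel] at ha hN
    rw [hN] at htot
    rw [hN, ha, hb]
    -- e1 : (p+1) * a = b * (j+1);  e2 : (p+1+j+1) * c = d * (j+1); P + c = d
    set c := (p + 1 + j).choose j with hc
    set d := (p + 1 + j + 1).choose (j + 1) with hd
    have e3 : P.card * (j + 1) = (p + 1) * c := by
      have : (P.card + c) * (j + 1) = (p + 1 + j + 1) * c := by rw [htot, e2]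
      nlinarith
    have e4 : (j + 1) * (P.card * p.choose j) = (j + 1) * (c * (p + 1).choose (j + 1)) := by
      calc (j + 1) * (P.card * p.choose j) = (P.card * (j + 1)) * p.choose j := by ring
        _ = ((p + 1) * c) * p.choose j := by rw [e3]
        _ = c * ((p + 1) * p.choose j) := by ring
        _ = c * ((p + 1).choose (j + 1) * (j + 1)) := by rw [e1]
        _ = (j + 1) * (c * (p + 1).choose (j + 1)) := by ring
    exact Nat.eq_of_mul_eq_mul_left (by omega) e4
  have hsumS : ∑ S ∈ P, ((neg k A).bipartiteAbove (fun S T : Finset ℝ => Disjoint S T) S).card =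
      P.card * a := by
    apply le_antisymm _ hge
    rw [hdc, hPa]
    exact hle'
  have hsumT : ∑ T ∈ neg k A, (P.bipartiteBelow (fun S T : Finset ℝ => Disjoint S T) T).card =
      (neg k A).card * b := by
    rw [← hdc, hsumS, hPa]
  have hSeq : ∀ S ∈ P, (neg k (A \ S)).card ≤ a := by
    intro S hS'
    have h1 : ∑ S ∈ P, a =
        ∑ S ∈ P, ((neg k A).bipartiteAbove (fun S T : Finset ℝ => Disjoint S T) S).card := by
      rw [hsumS, Finset.sum_const, smul_eq_mul]
    have h2 := (Finset.sum_eq_sum_iff_of_le (fun S hS' => (hdS S hS').1)).1 h1 S hS'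
    rw [← (hdS S hS').2, ← h2]
  have hTeq : ∀ T ∈ neg k A, ∀ S ∈ (A \ T).powersetCard k, S ∈ P := by
    intro T hT S hS'
    have h1 : ∑ T ∈ neg k A, (P.bipartiteBelow (fun S T : Finset ℝ => Disjoint S T) T).card =
        ∑ T ∈ neg k A, b := by
      rw [hsumT, Finset.sum_const, smul_eq_mul]
    have h2 := (Finset.sum_eq_sum_iff_of_le hTle).1 h1 T hT
    obtain ⟨h3, h4⟩ := hdT T hT
    have h5 := Finset.eq_of_subset_of_card_le h3 (by rw [h4, h2])
    rw [← h5, Finset.mem_bipartiteBelow] at hS'
    exact hS'.1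
  -- the least element
  have hne : A.Nonempty := by
    rw [← Finset.card_pos]
    omega
  set x := A.min' hne with hx
  have hxA : x ∈ A := Finset.min'_mem A hne
  have hmin : ∀ y ∈ A, x ≤ y := fun y hy => Finset.min'_le A y hy
  refine ⟨x, hxA, hmin, ?_⟩
  intro L hL hLc
  by_contra hcon
  have hcon' : 0 ≤ x + ∑ y ∈ L, y := not_lt.1 hcon
  have hxL : x ∉ L := fun h' => Finset.notMem_erase x A (hL h')
  -- some negative set avoids x
  have hT : ∃ T ∈ neg k A, x ∉ T := by
    by_contra hno
    push Not at hno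
    have h1 : neg k A ⊆ starF k A x := by
      intro T hT
      have := hno T hT
      unfold neg at hT
      unfold starF
      rw [Finset.mem_filter] at hT ⊢
      exact ⟨hT.1, this⟩
    have h2 : neg k A = starF k A x := by
      apply Finset.eq_of_subset_of_card_le h1
      rw [card_star k A x hxA hk, hA, hN]
    have h3 : insert x L ∈ starF k A x := by
      unfold starF
      rw [Finset.mem_filter, Finset.mem_powersetCard]
      refine ⟨⟨?_, ?_⟩, Finset.mem_insert_self _ _⟩
      · exact Finset.insert_subset hxA (hL.trans (Finset.erase_subset _ _))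
      · rw [Finset.card_insert_of_notMem hxL, hLc]
        omega
    rw [← h2] at h3
    unfold neg at h3
    rw [Finset.mem_filter, Finset.sum_insert hxL] at h3
    exact hcon h3.2
  obtain ⟨T, hTN, hxT⟩ := hT
  have hTN' := hTN
  unfold neg at hTN'
  rw [Finset.mem_filter, Finset.mem_powersetCard] at hTN'
  obtain ⟨⟨hTA, hTc⟩, _⟩ := hTN'
  -- choose M
  have hU : (insert x (T ∪ L)).card ≤ 2 * k := by
    calc (insert x (T ∪ L)).card ≤ (T ∪ L).card + 1 := Finset.card_insert_le _ _
      _ ≤ (T.card + L.card) + 1 := by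
          have := Finset.card_union_le T L
          omega
      _ ≤ 2 * k := by rw [hTc, hLc]; omega
  have hrest : k - 1 ≤ (A \ insert x (T ∪ L)).card := by
    have := Finset.le_card_sdiff (insert x (T ∪ L)) A
    omega
  obtain ⟨M, hM, hMc⟩ := Finset.exists_subset_card_eq hrest
  have hxM : x ∉ M := by
    intro h'
    have := hM h'
    rw [Finset.mem_sdiff] at this
    exact this.2 (Finset.mem_insert_self _ _)
  have hMA : M ⊆ A := hM.trans Finset.sdiff_subset
  have hML : ∀ y ∈ M, y ∉ T ∧ y ∉ L := by
    intro y hy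
    have := hM hy
    rw [Finset.mem_sdiff, Finset.mem_insert, Finset.mem_union] at this
    push Not at this
    exact ⟨this.2.2.1, this.2.2.2⟩
  have hSP : insert x M ∈ P := by
    apply hTeq T hTN
    rw [Finset.mem_powersetCard]
    refine ⟨?_, ?_⟩
    · apply Finset.insert_subset
      · rw [Finset.mem_sdiff]
        exact ⟨hxA, hxT⟩
      · intro y hy
        rw [Finset.mem_sdiff]
        exact ⟨hMA hy, (hML y hy).1⟩
    · rw [Finset.card_insert_of_notMem hxM, hMc]
      omega
  have hSP' := hSP
  rw [hP, Finset.mem_filter, Finset.mem_powersetCard] at hSP'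
  obtain ⟨⟨hSA, hSc⟩, hS0⟩ := hSP'
  have hc : (A \ insert x M).card = n := by
    rw [Finset.card_sdiff_of_subset hSA, hA, hSc]
    omega
  have hsum : ∑ y ∈ A \ insert x M, y ≤ 0 := by
    have := Finset.sum_sdiff hSA (f := fun y : ℝ => y)
    linarith
  obtain ⟨y, hyA, hymin, hyall⟩ := h (A \ insert x M) hc hsum (hSeq _ hSP)
  have hyA' := hyA
  rw [Finset.mem_sdiff, Finset.mem_insert] at hyA'
  push Not at hyA'
  have hxy : x < y := lt_of_le_of_ne (hmin y hyA'.1) (Ne.symm hyA'.2.1)
  have hLsub : L ⊆ A \ insert x M := by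
    intro z hz
    rw [Finset.mem_sdiff, Finset.mem_insert]
    refine ⟨(Finset.mem_of_mem_erase (hL hz)), ?_⟩
    push Not
    refine ⟨?_, ?_⟩
    · rintro rfl
      exact hxL hz
    · intro hzM
      exact (hML z hzM).2 hz
  by_cases hyL : y ∈ L
  · -- replace y by some z outside L
    have : L.card < (A \ insert x M).card := by
      rw [hc, hLc]
      omega
    obtain ⟨z, hz, hzL⟩ := Finset.exists_mem_notMem_of_card_lt_card this
    have hyz : y ≤ z := hymin z hz
    have hzy : z ≠ y := by
      rintro rfl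
      exact hzL hyL
    have hsub : insert z (L.erase y) ⊆ (A \ insert x M).erase y := by
      apply Finset.insert_subset
      · exact Finset.mem_erase.2 ⟨hzy, hz⟩
      · exact Finset.erase_subset_erase y hLsub
    have hzL' : z ∉ L.erase y := fun h' => hzL (Finset.mem_of_mem_erase h')
    have hLpos : 0 < L.card := Finset.card_pos.2 ⟨y, hyL⟩
    have h6 := hyall _ hsub (by
      rw [Finset.card_insert_of_notMem hzL', Finset.card_erase_of_mem hyL, hLc]
      omega)
    rw [Finset.sum_insert hzL'] at h6
    have h7 : ∑ w ∈ L.erase y, w + y = ∑ w ∈ L, w := Finset.sum_erase_add L (fun w => w) hyL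
    linarith
  · have hsub : L ⊆ (A \ insert x M).erase y := by
      intro z hz
      refine Finset.mem_erase.2 ⟨?_, hLsub hz⟩
      rintro rfl
      exact hyL hz
    have h6 := hyall L hsub hLc
    linarith

end Pool.Agent.Helper594_MMS
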