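import Pool.Agent.Helper594_MMS.Uniq

/-!
Transfer of the uniqueness base cases from index sets to sets of reals.
-/

namespace Pool.Agent.Helper594_MMS

open Finset

theorem sum_le_top (f : ℕ → ℝ) : ∀ (j n : ℕ) (_ : ∀ a b, a ≤ b → b < n → f a ≤ f b)
    (S : Finset ℕ), S ⊆ range n → S.card = j → ∑ i ∈ S, f i ≤ ∑ i ∈ Ico (n - j) n, f i := by
  intro j
  induction j with
  | zero =>
    intro n _ S _ hS
    rw [Finset.card_eq_zero] at hS
    subst hS
    simp
  | succ j ih =>
    intro n hf S hSn hS
    have hne : S.Nonempty := by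
      rw [← Finset.card_pos]
      omega
    have hm := Finset.max'_mem S hne
    set m := S.max' hne with hmdef
    have hmn : m < n := Finset.mem_range.1 (hSn hm)
    have hsub : S.erase m ⊆ range (n - 1) := by
      intro y hy
      rw [Finset.mem_erase] at hy
      have h1 := Finset.le_max' S y hy.2
      rw [Finset.mem_range]
      have h2 : y ≠ m := hy.1
      omega
    have hc : (S.erase m).card = j := by
      rw [Finset.card_erase_of_mem hm, hS]
      omega
    have h3 := ih (n - 1) (fun a b hab hb => hf a b hab (by omega)) (S.erase m) hsub hc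
    have h4 : ∑ i ∈ S.erase m, f i + f m = ∑ i ∈ S, f i := Finset.sum_erase_add S f hm
    have h5 : f m ≤ f (n - 1) := hf m (n - 1) (by omega) (by omega)
    have hjn : j + 1 ≤ n := by
      have := Finset.card_le_card hSn
      rw [Finset.card_range] at this
      omega
    obtain ⟨q, rfl⟩ : ∃ q, n = q + 1 := ⟨n - 1, by omega⟩
    rw [Finset.sum_Ico_succ_top (by omega)]
    have e1 : q + 1 - (j + 1) = q - j := by omega
    rw [e1]
    simp only [Nat.add_sub_cancel] at h3 h5
    linarith

/-- The uniqueness statement for index sets. -/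
def BaseU (k p : ℕ) : Prop :=
  ∀ f : ℕ → ℝ, (∀ j < p, f j < f (j + 1)) → ∑ i ∈ range (p + 1), f i ≤ 0 →
    0 ≤ f 0 + ∑ i ∈ Ico (p + 1 - (k - 1)) (p + 1), f i →
    p.choose (k - 1) + 1 ≤ (negI f 0 k (p + 1)).card

theorem su_of_baseU (k p : ℕ) (h : BaseU k p) : SU k (p + 1) := by
  classical
  intro A hA hs hle
  let e := A.orderEmbOfFin hA
  let f : ℕ → ℝ := fun i => if h : i < p + 1 then e ⟨i, h⟩ else 0
  have fe : ∀ (i : ℕ) (hi : i < p + 1), f i = e ⟨i, hi⟩ := by
    intro i hi
    simp only [f]
    rw [dif_pos hi]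
  have hmono : ∀ j < p, f j < f (j + 1) := by
    intro j hj
    rw [fe j (by omega), fe (j + 1) (by omega)]
    apply e.strictMono
    rw [Fin.mk_lt_mk]
    omega
  have hm := mono_of_step f p hmono
  have hinj : Set.InjOn f (range (p + 1) : Set ℕ) := by
    intro i hi j hj hij
    rw [Finset.mem_coe, Finset.mem_range] at hi hj
    rw [fe i hi, fe j hj] at hij
    have := e.injective hij
    exact (Fin.mk.inj_iff.1 this)
  have himg : (range (p + 1)).image f = A := by
    ext y
    rw [Finset.mem_image]
    constructor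
    · rintro ⟨i, hi, rfl⟩
      rw [Finset.mem_range] at hi
      rw [fe i hi]
      exact Finset.orderEmbOfFin_mem A hA _
    · intro hy
      have h1 : y ∈ Set.range e := by
        rw [Finset.range_orderEmbOfFin]
        exact hy
      obtain ⟨i, rfl⟩ := h1
      exact ⟨i.1, Finset.mem_range.2 i.2, fe i.1 i.2⟩
  have hsum : ∑ i ∈ range (p + 1), f i ≤ 0 := by
    rw [← himg, Finset.sum_image hinj] at hs
    exact hs
  have hcard : (negI f 0 k (p + 1)).card ≤ (neg k A).card := by
    apply Finset.card_le_card_of_injOn (fun S => S.image f)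
    · intro S hS
      unfold negI at hS
      rw [Finset.mem_coe, Finset.mem_filter, Finset.mem_powersetCard, zero_add] at hS
      obtain ⟨⟨h2, h3⟩, h4⟩ := hS
      have hinjS : Set.InjOn f (S : Set ℕ) := hinj.mono (by exact_mod_cast h2)
      unfold neg
      rw [Finset.mem_coe, Finset.mem_filter, Finset.mem_powersetCard]
      refine ⟨⟨?_, ?_⟩, ?_⟩
      · rw [← himg]
        exact Finset.image_subset_image h2
      · rw [Finset.card_image_of_injOn hinjS, h3]
      · rw [Finset.sum_image hinjS]
        exact h4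
    · intro S hS S' hS' hh
      unfold negI at hS hS'
      rw [Finset.mem_coe, Finset.mem_filter, Finset.mem_powersetCard] at hS hS'
      have hh' : S.image f = S'.image f := hh
      have hS2 : (S : Set ℕ) ⊆ (range (p + 1) : Set ℕ) := by exact_mod_cast hS.1.1
      have hS2' : (S' : Set ℕ) ⊆ (range (p + 1) : Set ℕ) := by exact_mod_cast hS'.1.1
      have h5 : f '' (S : Set ℕ) = f '' (S' : Set ℕ) := by
        rw [← Finset.coe_image, ← Finset.coe_image, hh']
      have h6 := (hinj.image_eq_image_iff hS2 hS2').1 h5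
      exact_mod_cast h6
  have hf0 : f 0 ∈ A := by
    rw [← himg, Finset.mem_image]
    exact ⟨0, Finset.mem_range.2 (by omega), rfl⟩
  refine ⟨f 0, hf0, ?_, ?_⟩
  · intro y hy
    rw [← himg, Finset.mem_image] at hy
    obtain ⟨i, hi, rfl⟩ := hy
    exact hm 0 i (by omega) (Finset.mem_range.1 hi)
  · intro L hL hLc
    by_contra hcon
    have hcon' : 0 ≤ f 0 + ∑ y ∈ L, y := not_lt.1 hcon
    -- pull back L
    set S := (range (p + 1)).filter (fun i => f i ∈ L) with hS
    have hSr : S ⊆ range (p + 1) := Finset.filter_subset _ _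
    have hinjS : Set.InjOn f (S : Set ℕ) := hinj.mono (by exact_mod_cast hSr)
    have hSimg : S.image f = L := by
      ext y
      rw [Finset.mem_image]
      constructor
      · rintro ⟨i, hi, rfl⟩
        rw [hS, Finset.mem_filter] at hi
        exact hi.2
      · intro hy
        have hyA : y ∈ A := Finset.mem_of_mem_erase (hL hy)
        rw [← himg, Finset.mem_image] at hyA
        obtain ⟨i, hi, rfl⟩ := hyA
        exact ⟨i, by rw [hS, Finset.mem_filter]; exact ⟨hi, hy⟩, rfl⟩
    have hSc : S.card = k - 1 := by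
      rw [← hLc, ← hSimg, Finset.card_image_of_injOn hinjS]
    have hSsum : ∑ i ∈ S, f i = ∑ y ∈ L, y := by
      rw [← hSimg, Finset.sum_image hinjS]
    have htop := sum_le_top f (k - 1) (p + 1) hm S hSr hSc
    have h7 := h f hmono hsum (by linarith)
    rw [Nat.add_sub_cancel] at hle
    omega

end Pool.Agent.Helper594_MMS
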